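import Pool.Agent.Lib.MP_ae5b4e_an_NB4.DSA

/-!
# MP_ae5b4e_an, NB_4: the conformal density of the strip
-/

noncomputable section

namespace Pool.Agent.MP_ae5b4e_an_NB4

open Complex Set Filter Topology Metric
open Pool.Agent.MP_ae5b4e_an_NBT (St)
open Pool.Agent.MP_ae5b4e_an_NB2 (Sys)
open scoped ComplexConjugate

variable {Y : Sys} {h : ℝ} {l m z w : ℂ}

namespace DSC

theorem sq_lt {z : ℂ} (hz : z ∈ ball (0:ℂ) 1) : 0 < 1 - ‖z‖ ^ 2 := by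
  rw [mem_ball_zero_iff] at hz
  nlinarith [norm_nonneg z]

/-- `(1 - |z|²) |φ'| = D` -/
theorem phi_conf (hh : 0 < h) (hl : l ∈ St (-h) h) :
    ‖(4 * h / Real.pi / (1 - psi h l ^ 2) : ℂ)‖ * (1 - ‖psi h l‖ ^ 2) = DS h l := by
  have hz := psi_mem hh hl
  have h1 := psi_conf hh hl
  have h2 := rt_sq hh hz
  have hne : (1 - psi h l ^ 2 : ℂ) ≠ 0 := by
    intro h0
    rw [h0] at h2
    simp at h2
  have hpi := Real.pi_pos
  have h3 : ‖((Real.pi / (4 * h) : ℝ) : ℂ) * (1 - psi h l ^ 2)‖ =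
      Real.pi / (4 * h) * ‖1 - psi h l ^ 2‖ := by
    rw [norm_mul, Complex.norm_real, Real.norm_of_nonneg (by positivity)]
  have h4 : ‖(4 * h / Real.pi / (1 - psi h l ^ 2) : ℂ)‖ =
      4 * h / Real.pi / ‖1 - psi h l ^ 2‖ := by
    have e : (4 * (h:ℂ) / (Real.pi : ℂ)) = ((4 * h / Real.pi : ℝ) : ℂ) := by push_cast; rfl
    rw [norm_div, e, Complex.norm_real, Real.norm_of_nonneg (by positivity)]
  have h5 : 0 < ‖1 - psi h l ^ 2‖ := norm_pos_iff.2 hne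
  rw [h4, h1, h3]
  unfold DS
  field_simp

theorem rt_conf (hh : 0 < h) (hl : l ∈ St (-h) h) :
    ‖rt h (psi h l)‖ ^ 2 * DS h l = 1 - ‖psi h l‖ ^ 2 := by
  have h1 := phi_conf hh hl
  have h2 := congrArg norm (rt_sq hh (psi_mem hh hl))
  rw [norm_mul, norm_pow, norm_one] at h2
  rw [← h1]
  linear_combination (1 - ‖psi h l‖ ^ 2) * h2

theorem c_bd {z : ℂ} (hz : z ∈ ball (0:ℂ) 1) : ‖(conj z - z) / (1 - z ^ 2)‖ ≤ 1 := by
  have h1 : ‖conj z - z‖ ^ 2 = 4 * z.im ^ 2 := by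
    rw [← Complex.normSq_eq_norm_sq, Complex.normSq_apply]
    simp only [sub_re, conj_re, sub_im, conj_im]
    ring
  have h2 : ‖1 - z ^ 2‖ ^ 2 = (1 - ‖z‖ ^ 2) ^ 2 + 4 * z.im ^ 2 := by
    rw [← Complex.normSq_eq_norm_sq, ← Complex.normSq_eq_norm_sq, Complex.normSq_apply,
      Complex.normSq_apply, pow_two z]
    simp only [sub_re, one_re, mul_re, sub_im, one_im, mul_im]
    ring
  have h3 : 0 < ‖1 - z ^ 2‖ := by
    have := sq_lt hz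
    by_contra h0
    have h4 : ‖1 - z ^ 2‖ = 0 := le_antisymm (not_lt.1 h0) (norm_nonneg _)
    rw [h4] at h2
    nlinarith [sq_nonneg z.im]
  rw [norm_div, div_le_one h3]
  refine le_of_sq_le_sq ?_ h3.le
  rw [h1, h2]
  nlinarith [sq_nonneg (1 - ‖z‖ ^ 2)]

theorem tu_form (Y : Sys) (hh : 0 < h) (hl : l ∈ St (-h) h) :
    ∃ P c : ℂ, ‖P‖ = DS h l ∧ ‖c‖ ≤ 1 ∧ tu (dsys Y h) (psi h l) =
      (rt h (psi h l) * (P * Y.y1' l + c * Y.y1 l),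
        rt h (psi h l) * (P * Y.y2' l + c * Y.y2 l)) := by
  have hz := psi_mem hh hl
  have h2 := rt_sq hh hz
  have hne : (1 - psi h l ^ 2 : ℂ) ≠ 0 := by
    intro h0
    rw [h0] at h2
    simp at h2
  refine ⟨((1 - ‖psi h l‖ ^ 2 : ℝ) : ℂ) * (4 * h / Real.pi / (1 - psi h l ^ 2)),
    (conj (psi h l) - psi h l) / (1 - psi h l ^ 2), ?_, c_bd hz, ?_⟩
  · rw [norm_mul, Complex.norm_real, Real.norm_of_nonneg (sq_lt hz).le, mul_comm]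
    exact phi_conf hh hl
  · have h3 : (((1 - ‖psi h l‖ ^ 2 : ℝ)) : ℂ) = 1 - psi h l * conj (psi h l) := by
      rw [Complex.mul_conj, Complex.normSq_eq_norm_sq]
      push_cast
      ring
    have h4 := phi_psi hh hl
    have h5 : ∀ y y' : ℂ, (((1 - ‖psi h l‖ ^ 2 : ℝ)) : ℂ) * (rt' h (psi h l) * y +
        rt h (psi h l) * (4 * h / Real.pi / (1 - psi h l ^ 2)) * y') +
        conj (psi h l) * (rt h (psi h l) * y) =
        rt h (psi h l) * (((1 - ‖psi h l‖ ^ 2 : ℝ) : ℂ) *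
          (4 * h / Real.pi / (1 - psi h l ^ 2)) * y' +
          (conj (psi h l) - psi h l) / (1 - psi h l ^ 2) * y) := by
      intro y y'
      rw [h3]
      unfold rt'
      generalize (4 * (h:ℂ) / (Real.pi : ℂ)) = k
      field_simp
      ring
    simp only [tu, dsys, h4]
    rw [h5, h5]

theorem alg (A B C E D D' l₀ l₁ l₂ l₃ lam : ℝ) (hA : 0 ≤ A) (hB : 0 ≤ B) (hC : 0 ≤ C)
    (hE : 0 ≤ E) (hD : 0 < D) (hD' : 0 < D') (h0 : 0 < lam) (h1 : lam ≤ 1)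
    (k₀ : l₀ = A) (k₁ : l₁ ≤ D * B + A) (k₂ : l₂ ≤ D' * C + A)
    (k₃ : l₃ ≤ D * D' * E + D * B + D' * C + A)
    (n₁ : 0 ≤ l₁) (n₂ : 0 ≤ l₂) (n₃ : 0 ≤ l₃) :
    (l₀ ^ 2 + lam * l₁ ^ 2 + lam * l₂ ^ 2 + lam ^ 2 * l₃ ^ 2) / (D * D') ≤
      9 * (A ^ 2 / (D * D') + D / D' * B ^ 2 + D' / D * C ^ 2 + D * D' * E ^ 2) := by
  have e1 : 9 * (A ^ 2 / (D * D') + D / D' * B ^ 2 + D' / D * C ^ 2 + D * D' * E ^ 2) =
      9 * (A ^ 2 + (D * B) ^ 2 + (D' * C) ^ 2 + (D * D' * E) ^ 2) / (D * D') := by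
    field_simp
  rw [e1]
  refine div_le_div_of_nonneg_right ?_ (by positivity)
  have a1 : lam * l₁ ^ 2 ≤ 1 * (D * B + A) ^ 2 := by gcongr
  have a2 : lam * l₂ ^ 2 ≤ 1 * (D' * C + A) ^ 2 := by gcongr
  have a3 : lam ^ 2 * l₃ ^ 2 ≤ 1 ^ 2 * (D * D' * E + D * B + D' * C + A) ^ 2 := by gcongr
  have b1 : (D * B + A) ^ 2 ≤ 2 * (D * B) ^ 2 + 2 * A ^ 2 := by
    nlinarith [sq_nonneg (D * B - A)]
  have b2 : (D' * C + A) ^ 2 ≤ 2 * (D' * C) ^ 2 + 2 * A ^ 2 := by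
    nlinarith [sq_nonneg (D' * C - A)]
  have b3 : (D * D' * E + D * B + D' * C + A) ^ 2 ≤
      4 * ((D * D' * E) ^ 2 + (D * B) ^ 2 + (D' * C) ^ 2 + A ^ 2) := by
    nlinarith [sq_nonneg (D * D' * E - D * B), sq_nonneg (D * D' * E - D' * C),
      sq_nonneg (D * D' * E - A), sq_nonneg (D * B - D' * C), sq_nonneg (D * B - A),
      sq_nonneg (D' * C - A)]
  rw [k₀]
  nlinarith [sq_nonneg (D * B), sq_nonneg (D' * C), sq_nonneg (D * D' * E), sq_nonneg A]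

end DSC

open DSC

/-- the frames of the disc and of the strip differ by a unimodular factor and a unipotent matrix
with entry `c = (z̄ - z) / (1 - z²)`, `|c| ≤ 1` because `|1 - z²|² - 4 (Im z)² = (1 - |z|²)²`:
`tu (dsys) z = rt z ((1 - |z|²) φ' u' + c u)`, `|rt|² |φ'| = 1`, `(1 - |z|²) |φ'| = DS`. -/
theorem NN_le_NE (hh : 0 < h) {lam : ℝ} (h0 : 0 < lam) (h1 : lam ≤ 1) (hl : l ∈ St (-h) h)
    (hm : m ∈ St (-h) h) :
    NN lam (dsys Y h) (dsys Y h) (psi h l) (psi h m) ≤ 9 * NE Y h l m := by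
  obtain ⟨P, c, hP, hc, ht⟩ := tu_form Y hh hl
  obtain ⟨P', c', hP', hc', ht'⟩ := tu_form Y hh hm
  have hD := DS_pos hh hl
  have hD' := DS_pos hh hm
  have hr := rt_conf hh hl
  have hr' := rt_conf hh hm
  have hrp : 0 < ‖rt h (psi h l)‖ := norm_pos_iff.2 (rt_ne hh (psi_mem hh hl))
  have hrp' : 0 < ‖rt h (psi h m)‖ := norm_pos_iff.2 (rt_ne hh (psi_mem hh hm))
  have hu : uu (dsys Y h) (psi h l) =
      (rt h (psi h l) * Y.y1 l, rt h (psi h l) * Y.y2 l) := by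
    simp only [uu, dsys, phi_psi hh hl]
  have hu' : uu (dsys Y h) (psi h m) =
      (rt h (psi h m) * Y.y1 m, rt h (psi h m) * Y.y2 m) := by
    simp only [uu, dsys, phi_psi hh hm]
  set r := rt h (psi h l)
  set s := rt h (psi h m)
  -- the four wedges
  have w0 : wdg (uu (dsys Y h) (psi h l)) (uu (dsys Y h) (psi h m)) =
      r * s * wdg (uu Y l) (uu Y m) := by
    rw [hu, hu']
    simp only [wdg, uu]
    ring
  have w1 : wdg (tu (dsys Y h) (psi h l)) (uu (dsys Y h) (psi h m)) =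
      r * s * (P * wdg (uu' Y l) (uu Y m) + c * wdg (uu Y l) (uu Y m)) := by
    rw [ht, hu']
    simp only [wdg, uu, uu']
    ring
  have w2 : wdg (uu (dsys Y h) (psi h l)) (tu (dsys Y h) (psi h m)) =
      r * s * (P' * wdg (uu Y l) (uu' Y m) + c' * wdg (uu Y l) (uu Y m)) := by
    rw [hu, ht']
    simp only [wdg, uu, uu']
    ring
  have w3 : wdg (tu (dsys Y h) (psi h l)) (tu (dsys Y h) (psi h m)) =
      r * s * (P * P' * wdg (uu' Y l) (uu' Y m) + P * c' * wdg (uu' Y l) (uu Y m) +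
        c * P' * wdg (uu Y l) (uu' Y m) + c * c' * wdg (uu Y l) (uu Y m)) := by
    rw [ht, ht']
    simp only [wdg, uu, uu']
    ring
  set A := wdg (uu Y l) (uu Y m)
  set B := wdg (uu' Y l) (uu Y m)
  set C := wdg (uu Y l) (uu' Y m)
  set E := wdg (uu' Y l) (uu' Y m)
  have k1 : ‖P * B + c * A‖ ≤ DS h l * ‖B‖ + ‖A‖ := by
    refine (norm_add_le _ _).trans ?_
    rw [norm_mul, norm_mul, hP]
    have := mul_le_mul_of_nonneg_right hc (norm_nonneg A)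
    linarith
  have k2 : ‖P' * C + c' * A‖ ≤ DS h m * ‖C‖ + ‖A‖ := by
    refine (norm_add_le _ _).trans ?_
    rw [norm_mul, norm_mul, hP']
    have := mul_le_mul_of_nonneg_right hc' (norm_nonneg A)
    linarith
  have k3 : ‖P * P' * E + P * c' * B + c * P' * C + c * c' * A‖ ≤
      DS h l * DS h m * ‖E‖ + DS h l * ‖B‖ + DS h m * ‖C‖ + ‖A‖ := by
    refine (norm_add₄_le).trans ?_
    simp only [norm_mul, hP, hP']
    have q1 : DS h l * ‖c'‖ * ‖B‖ ≤ DS h l * 1 * ‖B‖ := by gcongr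
    have q2 : ‖c‖ * DS h m * ‖C‖ ≤ 1 * DS h m * ‖C‖ := by gcongr
    have q3 : ‖c‖ * ‖c'‖ * ‖A‖ ≤ 1 * 1 * ‖A‖ := by gcongr
    linarith
  have key := alg ‖A‖ ‖B‖ ‖C‖ ‖E‖ (DS h l) (DS h m) ‖A‖ ‖P * B + c * A‖ ‖P' * C + c' * A‖
    ‖P * P' * E + P * c' * B + c * P' * C + c * c' * A‖ lam (norm_nonneg _) (norm_nonneg _)
    (norm_nonneg _) (norm_nonneg _) hD hD' h0 h1 rfl k1 k2 k3 (norm_nonneg _) (norm_nonneg _)
    (norm_nonneg _)
  refine le_trans (le_of_eq ?_) key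
  unfold NN
  rw [w0, w1, w2, w3, ← hr, ← hr']
  simp only [norm_mul, mul_pow]
  field_simp

/-- `Q` of the disc is `Q φ'^2 + 1/(1-z²)²`, and `(1 - |z|²)² / |1 - z²|² ≤ 1`. -/
theorem q_bound (hh : 0 < h) {q₁ : ℝ} (hq : QB (dsys Y h) q₁) (hl : l ∈ St (-h) h) :
    ‖Y.Q l‖ * DS h l ^ 2 ≤ q₁ + 1 := by
  have hz := psi_mem hh hl
  have h1 := hq.bd _ hz
  have h2 := phi_conf hh hl
  have h3 := sq_lt hz
  simp only [dsys, phi_psi hh hl] at h1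
  set φ : ℂ := 4 * h / Real.pi / (1 - psi h l ^ 2)
  set z := psi h l
  have h4 : ‖(1 / (1 - z ^ 2) ^ 2 : ℂ)‖ * (1 - ‖z‖ ^ 2) ^ 2 ≤ 1 := by
    have h5 : 1 - ‖z‖ ^ 2 ≤ ‖1 - z ^ 2‖ := by
      have := norm_sub_norm_le (1:ℂ) (z ^ 2)
      rw [norm_one, norm_pow] at this
      exact this
    rw [norm_div, norm_one, norm_pow, div_mul_eq_mul_div, one_mul]
    have h6 : 0 < ‖1 - z ^ 2‖ := h3.trans_le h5
    rw [div_le_one (by positivity)]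
    gcongr
  have h7 : ‖Y.Q l * φ ^ 2‖ ≤ ‖Y.Q l * φ ^ 2 + 1 / (1 - z ^ 2) ^ 2‖ +
      ‖(1 / (1 - z ^ 2) ^ 2 : ℂ)‖ := by
    have := norm_sub_le (Y.Q l * φ ^ 2 + 1 / (1 - z ^ 2) ^ 2) (1 / (1 - z ^ 2) ^ 2)
    rwa [add_sub_cancel_right] at this
  have h8 : ‖Y.Q l * φ ^ 2‖ = ‖Y.Q l‖ * ‖φ‖ ^ 2 := by rw [norm_mul, norm_pow]
  rw [← h2]
  calc ‖Y.Q l‖ * (‖φ‖ * (1 - ‖z‖ ^ 2)) ^ 2 = ‖Y.Q l * φ ^ 2‖ * (1 - ‖z‖ ^ 2) ^ 2 := by
        rw [h8]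
        ring
    _ ≤ (‖Y.Q l * φ ^ 2 + 1 / (1 - z ^ 2) ^ 2‖ + ‖(1 / (1 - z ^ 2) ^ 2 : ℂ)‖) *
          (1 - ‖z‖ ^ 2) ^ 2 := by gcongr
    _ ≤ q₁ + 1 := by linarith

end Pool.Agent.MP_ae5b4e_an_NB4
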