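import Pool.Agent.Lib.MP_ae5b4e_an_NB4.Defs

/-!
# MP_ae5b4e_an, project NB_4: the interface between the two halves (statement as a structure)
-/

noncomputable section

namespace Pool.Agent.MP_ae5b4e_an_NB4

open Complex Set Filter Topology Metric
open Pool.Agent.MP_ae5b4e_an_NBT (St)
open Pool.Agent.MP_ae5b4e_an_NB2 (Sys)
open scoped ComplexConjugate

/-- `|dl| / D` is the hyperbolic metric of the strip (curvature `-4`) -/
def DS (h : ℝ) (l : ℂ) : ℝ := 4 * h / Real.pi * Real.cos (Real.pi * l.im / (2 * h))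

/-- the squared norm of the relative frame, with the frames `(u / √D, √D u')` of the strip -/
def NE (Y : Sys) (h : ℝ) (l m : ℂ) : ℝ :=
  ‖wdg (uu Y l) (uu Y m)‖ ^ 2 / (DS h l * DS h m) +
    DS h l / DS h m * ‖wdg (uu' Y l) (uu Y m)‖ ^ 2 +
    DS h m / DS h l * ‖wdg (uu Y l) (uu' Y m)‖ ^ 2 +
    DS h l * DS h m * ‖wdg (uu' Y l) (uu' Y m)‖ ^ 2

/-- formula (R) of section 3, in Euclidean coordinates: at the level `k` the frame of the node `i`
is isolated and deep, and the label of `i` moves by `D / 8` on a connected set of chains -/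
structure Lev (Y : Sys) (h : ℝ) (q : ℕ) (π₀ : ℂ) (i : ZMod q) (k : ℕ)
    (P : ZMod q → ℂ) (V : Set (ZMod q → ℂ)) : Prop where
  sub : V ⊆ FF Y h q π₀
  conn : IsPreconnected V
  mem : P ∈ V
  near : ∀ z ∈ V, ∀ j, ‖z j - P j‖ ≤ DS h (P j) / 8
  far : ∃ z ∈ V, ‖z i - P i‖ = DS h (P i) / 8
  deep : h - |(P i).im| ≤ 1 / (k + 1)
  iso : ∀ j, j ≠ i → (k : ℝ) ≤ NE Y h (P i) (P j)

end Pool.Agent.MP_ae5b4e_an_NB4
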