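import Pool.Agent.Lib.MP_ae5b4e_an_NB4.StripB
import Pool.Agent.Lib.MP_ae5b4e_an_NB4.Ifc

/-!
# MP_ae5b4e_an, NB_4: the conformal density of the strip
-/

noncomputable section

namespace Pool.Agent.MP_ae5b4e_an_NB4

open Complex Set Filter Topology Metric
open Pool.Agent.MP_ae5b4e_an_NBT (St)
open Pool.Agent.MP_ae5b4e_an_NB2 (Sys)
open scoped ComplexConjugate

variable {Y : Sys} {h : ℝ} {l m z w : ℂ}

private theorem DSA_arg (hh : 0 < h) (hl : l ∈ St (-h) h) :
    |Real.pi * l.im / (2 * h)| = Real.pi * |l.im| / (2 * h) ∧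
      Real.pi * |l.im| / (2 * h) < Real.pi / 2 := by
  have hpi := Real.pi_pos
  have him : |l.im| < h := abs_lt.2 ⟨hl.1, hl.2⟩
  constructor
  · rw [abs_div, abs_mul, abs_of_pos hpi, abs_of_pos (by positivity : (0:ℝ) < 2 * h)]
  · rw [div_lt_iff₀ (by positivity)]
    nlinarith

theorem DS_pos (hh : 0 < h) (hl : l ∈ St (-h) h) : 0 < DS h l := by
  obtain ⟨h1, h2⟩ := DSA_arg hh hl
  have h3 : |Real.pi * l.im / (2 * h)| < Real.pi / 2 := by rw [h1]; exact h2
  have h4 := Real.cos_pos_of_mem_Ioo (x := Real.pi * l.im / (2 * h))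
    ⟨by linarith [(abs_lt.1 h3).1], (abs_lt.1 h3).2⟩
  have hpi := Real.pi_pos
  unfold DS
  positivity

/-- the cosine is 1-Lipschitz and `4h/π * π/(2h) = 2` -/
theorem DS_lip (hh : 0 < h) (l m : ℂ) : |DS h l - DS h m| ≤ 2 * ‖l - m‖ := by
  have hpi := Real.pi_pos
  unfold DS
  rw [← mul_sub, abs_mul, abs_of_pos (by positivity : (0:ℝ) < 4 * h / Real.pi)]
  have h1 := Real.abs_cos_sub_cos_le (Real.pi * l.im / (2 * h)) (Real.pi * m.im / (2 * h))
  have h2 : Real.pi * l.im / (2 * h) - Real.pi * m.im / (2 * h) =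
      Real.pi / (2 * h) * (l - m).im := by
    rw [Complex.sub_im]
    ring
  rw [h2, abs_mul, abs_of_pos (by positivity : (0:ℝ) < Real.pi / (2 * h))] at h1
  have h3 : |(l - m).im| ≤ ‖l - m‖ := Complex.abs_im_le_norm _
  calc 4 * h / Real.pi * |Real.cos (Real.pi * l.im / (2 * h)) - Real.cos (Real.pi * m.im / (2 * h))|
      ≤ 4 * h / Real.pi * (Real.pi / (2 * h) * ‖l - m‖) := by
        refine mul_le_mul_of_nonneg_left (h1.trans ?_) (by positivity)
        exact mul_le_mul_of_nonneg_left h3 (by positivity)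
    _ = 2 * ‖l - m‖ := by
        field_simp
        ring

/-- `cos x = sin (π/2 - |x|) ≤ π/2 - |x|` -/
theorem DS_le (hh : 0 < h) (hl : l ∈ St (-h) h) : DS h l ≤ 2 * (h - |l.im|) := by
  obtain ⟨h1, h2⟩ := DSA_arg hh hl
  have hpi := Real.pi_pos
  unfold DS
  rw [← Real.cos_abs, h1, ← Real.sin_pi_div_two_sub]
  have h3 := Real.sin_le (x := Real.pi / 2 - Real.pi * |l.im| / (2 * h)) (by linarith)
  calc 4 * h / Real.pi * Real.sin (Real.pi / 2 - Real.pi * |l.im| / (2 * h))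
      ≤ 4 * h / Real.pi * (Real.pi / 2 - Real.pi * |l.im| / (2 * h)) :=
        mul_le_mul_of_nonneg_left h3 (by positivity)
    _ = 2 * (h - |l.im|) := by
        field_simp
        ring

/-- `1 - 2/π |x| ≤ cos x` on `|x| ≤ π/2` (Real.one_sub_two_div_pi_mul_le_cos or concavity) -/
theorem DS_ge (hh : 0 < h) (hl : l ∈ St (-h) h) : 4 / Real.pi * (h - |l.im|) ≤ DS h l := by
  obtain ⟨h1, h2⟩ := DSA_arg hh hl
  have hpi := Real.pi_pos
  unfold DS
  rw [← Real.cos_abs, h1, ← Real.sin_pi_div_two_sub]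
  have h3 := Real.mul_le_sin (x := Real.pi / 2 - Real.pi * |l.im| / (2 * h)) (by linarith) (by
    have : 0 ≤ Real.pi * |l.im| / (2 * h) := by positivity
    linarith)
  calc 4 / Real.pi * (h - |l.im|)
      = 4 * h / Real.pi * (2 / Real.pi * (Real.pi / 2 - Real.pi * |l.im| / (2 * h))) := by
        field_simp
    _ ≤ _ := mul_le_mul_of_nonneg_left h3 (by positivity)

/-- from `DS_le` -/
theorem ball_sub (hh : 0 < h) (hl : l ∈ St (-h) h) : ball l (DS h l / 2) ⊆ St (-h) h := by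
  intro w hw
  rw [mem_ball, Complex.dist_eq] at hw
  have h1 : |(w - l).im| ≤ ‖w - l‖ := Complex.abs_im_le_norm _
  have h2 := DS_le hh hl
  rw [Complex.sub_im] at h1
  have h3 : |w.im - l.im| < h - |l.im| := by linarith
  have h4 := abs_lt.1 h3
  have h5 := neg_abs_le l.im
  have h6 := le_abs_self l.im
  exact ⟨by linarith, by linarith⟩

/-- `psi_conf` of StripA, with `DS` -/
theorem DS_conf (hh : 0 < h) (hl : l ∈ St (-h) h) :
    1 - ‖psi h l‖ ^ 2 = ‖deriv (psi h) l‖ * DS h l := by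
  rw [(psi_deriv hh hl).deriv]
  exact psi_conf hh hl

end Pool.Agent.MP_ae5b4e_an_NB4
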