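import Pool.Agent.Lib.MP_ae5b4e_an_NB4.NdA

/-!
# MP_ae5b4e_an, NB_4: the node functions on the space of chains
-/

noncomputable section

namespace Pool.Agent.MP_ae5b4e_an_NB4

open Complex Set Filter Topology Metric
open Pool.Agent.MP_ae5b4e_an_NBT (St)
open Pool.Agent.MP_ae5b4e_an_NB2 (Sys)
open scoped ComplexConjugate

variable {Y : Sys} {h : ℝ} {q : ℕ} [NeZero q] {z : ZMod q → ℂ} {π₀ : ℂ}

private theorem Nd_s_shift (hP : Per Y h) {w l : ℂ} (hw : w ∈ St (-h) h) (hl : l ∈ St (-h) h) :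
    Y.s (w + 1) (l + 1) = Y.s w l := by
  obtain ⟨ε, hε, hp⟩ := hP.ex
  have e1 := hp w hw
  have e2 := hp l hl
  simp only [Sys.s]
  rw [e1.1, e1.2.1, e2.1, e2.2.1]
  linear_combination (Y.y1 l * Y.y2 w - Y.y2 l * Y.y1 w) * hε

private theorem Nd_c_shift (hP : Per Y h) {w l : ℂ} (hw : w ∈ St (-h) h) (hl : l ∈ St (-h) h) :
    Y.c (w + 1) (l + 1) = Y.c w l := by
  obtain ⟨ε, hε, hp⟩ := hP.ex
  have e1 := hp w hw
  have e2 := hp l hl
  simp only [Sys.c]
  rw [e1.1, e1.2.1, e2.2.2.1, e2.2.2.2]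
  linear_combination (Y.y2' l * Y.y1 w - Y.y1' l * Y.y2 w) * hε

private theorem Nd_lab_succ (z : ZMod q → ℂ) (n : ℤ) :
    lab q z (n + q + 1) = lab q z (n + 1) + 1 := by
  rw [show n + (q : ℤ) + 1 = (n + 1) + q by ring]
  exact lab_add z (n + 1)

private theorem Nd_lab_pred (z : ZMod q → ℂ) (n : ℤ) :
    lab q z (n + q - 1) = lab q z (n - 1) + 1 := by
  rw [show n + (q : ℤ) - 1 = (n - 1) + q by ring]
  exact lab_add z (n - 1)

/-- `nd` is a sum of products of two kernels of three consecutive labels; a shift of all labels by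
`1` multiplies every vector by `ε`, `ε² = 1` -/
theorem nd_per (hP : Per Y h) (hz : z ∈ Sq h q) (n : ℤ) : nd Y q z (n + q) = nd Y q z n := by
  have m0 := lab_mem hz n
  have m1 := lab_mem hz (n + 1)
  have m2 := lab_mem hz (n - 1)
  unfold nd
  rw [Nd_lab_succ, Nd_lab_pred, lab_add, Nd_c_shift hP m1 m0, Nd_c_shift hP m2 m0,
    Nd_s_shift hP m1 m0, Nd_s_shift hP m2 m0]

private theorem Nd_red {f : ℤ → ℂ} (hf : ∀ n, f (n + q) = f n) (n : ℤ) :
    f n = f (((n : ZMod q).val : ℕ) : ℤ) := by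
  have hp : Function.Periodic f (q : ℤ) := hf
  have h1 := hp.int_mul (n / (q : ℤ)) (n % (q : ℤ))
  simp only [Int.cast_id] at h1
  rw [Int.emod_add_ediv_mul] at h1
  rw [h1, ZMod.val_intCast]

theorem mem_FF_iff (hP : Per Y h) (hz : z ∈ Sq h q) : z ∈ FF Y h q π₀ ↔
    (∀ j : ZMod q, nd Y q z (j.val : ℤ) = 0) ∧ prd Y q z = π₀ := by
  constructor
  · rintro ⟨_, h1, h2⟩
    exact ⟨fun j => h1 _, h2⟩
  · rintro ⟨h1, h2⟩
    refine ⟨hz, fun n => ?_, h2⟩
    rw [Nd_red (q := q) (f := fun n => nd Y q z n) (fun m => nd_per hP hz m) n]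
    exact h1 _

/-- `FF` is closed in `Sq` -/
theorem FF_closed (hY : Y.On (St (-h) h)) (hz : z ∈ closure (FF Y h q π₀)) (hz' : z ∈ Sq h q) :
    z ∈ FF Y h q π₀ := by
  have hsub : FF Y h q π₀ ⊆ Sq h q := fun w hw => hw.1
  have key : ∀ (f : (ZMod q → ℂ) → ℂ) (a : ℂ), DifferentiableOn ℂ f (Sq h q) →
      (∀ w ∈ FF Y h q π₀, f w = a) → f z = a := by
    intro f a hf ha
    have h1 : ContinuousWithinAt f (FF Y h q π₀) z := (hf.continuousOn z hz').mono hsub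
    have h2 := h1.mem_closure_image hz
    have h3 : f '' FF Y h q π₀ ⊆ {a} := by
      rintro _ ⟨w, hw, rfl⟩
      exact ha w hw
    have h4 := closure_mono h3 h2
    rw [closure_singleton] at h4
    exact h4
  exact ⟨hz', fun n => key _ 0 (nd_diff hY n) fun w hw => hw.2.1 n,
    key _ π₀ (prd_diff hY) fun w hw => hw.2.2⟩

/-- no side is zero -/
theorem side_ne (hP : Per Y h) (h0 : π₀ ≠ 0) (hz : z ∈ FF Y h q π₀) (n : ℤ) :
    Y.s (lab q z (n + 1)) (lab q z n) ≠ 0 := by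
  have hS : z ∈ Sq h q := hz.1
  have hper : ∀ m : ℤ, (fun m => Y.s (lab q z (m + 1)) (lab q z m)) (m + q) =
      (fun m => Y.s (lab q z (m + 1)) (lab q z m)) m := by
    intro m
    change Y.s (lab q z (m + q + 1)) (lab q z (m + q)) = Y.s (lab q z (m + 1)) (lab q z m)
    rw [Nd_lab_succ, lab_add, Nd_s_shift hP (lab_mem hS _) (lab_mem hS _)]
  have h1 := Nd_red (q := q) (f := fun m => Y.s (lab q z (m + 1)) (lab q z m)) hper n
  change Y.s (lab q z (n + 1)) (lab q z n) = Y.s (lab q z ((((n : ZMod q).val : ℕ) : ℤ) + 1))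
    (lab q z (((n : ZMod q).val : ℕ) : ℤ)) at h1
  rw [h1]
  intro h2
  apply h0
  rw [← hz.2.2, prd]
  refine Finset.prod_eq_zero (Finset.mem_range.mpr (ZMod.val_lt (n : ZMod q))) ?_
  rw [h2]
  ring

end Pool.Agent.MP_ae5b4e_an_NB4
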