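import Pool.Agent.Lib.MP_ae5b4e_an_NB4.AlgN

/-!
# MP_ae5b4e_an, NB_4, module AlgM: the bounds for the first and second derivatives of `log N`
-/

noncomputable section

namespace Pool.Agent.MP_ae5b4e_an_NB4

open Complex Set Filter Topology Metric
open scoped ComplexConjugate

variable {q : ℝ} {Q R α β x11 x12 x21 x22 : ℂ}

theorem PP_symm (l : ℝ) : PP l x11 x21 x12 x22 = PP l x11 x12 x21 x22 := by
  unfold PP
  ring

private theorem CW_pos' (q : ℝ) (hq : 0 < q) : 0 < CW q := by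
  have h := lamq_pos q
  unfold CW
  positivity

private theorem Cmu_ge' (hq : 0 < q) : 1 ≤ Cmu q := by
  have h := lamq_pos q
  have hs : 0 < Real.sqrt (lamq q) := Real.sqrt_pos.2 h
  have hs2 : Real.sqrt (lamq q) * Real.sqrt (lamq q) = lamq q := Real.mul_self_sqrt h.le
  have h1 : Real.sqrt (lamq q) * CT q = 1 + lamq q + lamq q * q := by
    unfold CT
    field_simp
    nlinarith
  unfold Cmu
  rw [h1]
  have h2 : 0 ≤ lamq q * q := by positivity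
  nlinarith

private theorem PP_pos (hdet : x11 * x22 - x21 * x12 = 1) :
    0 < PP (lamq q) x11 x12 x21 x22 := by
  have h := PP_ge (q := q) hdet
  have := lamq_pos q
  linarith

private theorem hdet' (hdet : x11 * x22 - x21 * x12 = 1) : x11 * x22 - x12 * x21 = 1 := by
  rw [← hdet]
  ring

/-- `|∂ N| ≤ CW P (|α| + |β|)` (`nA_le` twice), `C6 = 2 CW²`. -/
theorem n1_le (hq : 0 < q) (hQ : ‖Q‖ ≤ q) (hR : ‖R‖ ≤ q) (hdet : x11 * x22 - x21 * x12 = 1) :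
    ‖n1 (lamq q) Q R α β x11 x12 x21 x22‖ ^ 2 / PP (lamq q) x11 x12 x21 x22 ^ 2 ≤
      C6 q * (‖α‖ ^ 2 + ‖β‖ ^ 2) := by
  have hP := PP_pos (q := q) hdet
  have hC := CW_pos' q hq
  have h1 := nA_le (x11 := x11) (x12 := x12) (x21 := x21) (x22 := x22) hq hQ
  have h2 := nA_le (x11 := x11) (x12 := x21) (x21 := x12) (x22 := x22) hq hR
  rw [PP_symm] at h2
  set P := PP (lamq q) x11 x12 x21 x22 with hPdef
  rw [div_le_iff₀ (by positivity)]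
  have h3 : ‖n1 (lamq q) Q R α β x11 x12 x21 x22‖ ≤ CW q * P * (‖α‖ + ‖β‖) := by
    unfold n1
    calc ‖α * nA (lamq q) Q x11 x12 x21 x22 + β * nA (lamq q) R x11 x21 x12 x22‖
        ≤ ‖α‖ * ‖nA (lamq q) Q x11 x12 x21 x22‖ + ‖β‖ * ‖nA (lamq q) R x11 x21 x12 x22‖ := by
          refine (norm_add_le _ _).trans ?_
          rw [norm_mul, norm_mul]
      _ ≤ ‖α‖ * (CW q * P) + ‖β‖ * (CW q * P) := by gcongr
      _ = _ := by ring
  calc ‖n1 (lamq q) Q R α β x11 x12 x21 x22‖ ^ 2 ≤ (CW q * P * (‖α‖ + ‖β‖)) ^ 2 := by gcongr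
    _ = (CW q * P) ^ 2 * (‖α‖ + ‖β‖) ^ 2 := by ring
    _ ≤ (CW q * P) ^ 2 * (2 * (‖α‖ ^ 2 + ‖β‖ ^ 2)) := by
      gcongr
      nlinarith [sq_nonneg (‖α‖ - ‖β‖)]
    _ = C6 q * (‖α‖ ^ 2 + ‖β‖ ^ 2) * P ^ 2 := by
      unfold C6
      ring

private theorem key (l : ℝ) :
    PP l x11 x12 x21 x22 * n2 l Q R α β x11 x12 x21 x22 -
        ‖n1 l Q R α β x11 x12 x21 x22‖ ^ 2 =
      ‖α‖ ^ 2 * (PP l x11 x12 x21 x22 * aA l Q x11 x12 x21 x22 - ‖nA l Q x11 x12 x21 x22‖ ^ 2) +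
      ‖β‖ ^ 2 * (PP l x11 x12 x21 x22 * aA l R x11 x21 x12 x22 - ‖nA l R x11 x21 x12 x22‖ ^ 2) +
      2 * (α * conj β * ((PP l x11 x12 x21 x22 : ℂ) * cA l Q R x11 x12 x21 x22 -
        nA l Q x11 x12 x21 x22 * conj (nA l R x11 x21 x12 x22))).re := by
  unfold n2 n1
  set P := PP l x11 x12 x21 x22
  set a := nA l Q x11 x12 x21 x22
  set b := nA l R x11 x21 x12 x22
  set c := cA l Q R x11 x12 x21 x22
  simp only [Complex.sq_norm, Complex.normSq_apply, Complex.mul_re, Complex.mul_im, Complex.add_re,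
    Complex.add_im, Complex.sub_re, Complex.sub_im, Complex.conj_re, Complex.conj_im,
    Complex.ofReal_re, Complex.ofReal_im]
  ring

private theorem mixed_bd (hq : 0 < q) (hQ : ‖Q‖ ≤ q) (hR : ‖R‖ ≤ q)
    (hdet : x11 * x22 - x21 * x12 = 1) :
    |2 * (α * conj β * ((PP (lamq q) x11 x12 x21 x22 : ℂ) * cA (lamq q) Q R x11 x12 x21 x22 -
        nA (lamq q) Q x11 x12 x21 x22 * conj (nA (lamq q) R x11 x21 x12 x22))).re| ≤
      Cmu q * PP (lamq q) x11 x12 x21 x22 * (‖α‖ ^ 2 + ‖β‖ ^ 2) := by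
  have h := mixed_le hq hQ hR hdet
  have hP := PP_pos (q := q) hdet
  have hC := Cmu_ge' hq
  set M := (PP (lamq q) x11 x12 x21 x22 : ℂ) * cA (lamq q) Q R x11 x12 x21 x22 -
        nA (lamq q) Q x11 x12 x21 x22 * conj (nA (lamq q) R x11 x21 x12 x22)
  have h1 : |(α * conj β * M).re| ≤ ‖α‖ * ‖β‖ * (Cmu q * PP (lamq q) x11 x12 x21 x22) := by
    refine (Complex.abs_re_le_norm _).trans ?_
    rw [norm_mul, norm_mul, Complex.norm_conj]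
    gcongr
  rw [abs_mul, abs_two]
  have h2 : 2 * (‖α‖ * ‖β‖) ≤ ‖α‖ ^ 2 + ‖β‖ ^ 2 := by nlinarith [sq_nonneg (‖α‖ - ‖β‖)]
  calc 2 * |(α * conj β * M).re| ≤ 2 * (‖α‖ * ‖β‖ * (Cmu q * PP (lamq q) x11 x12 x21 x22)) := by
        gcongr
    _ = 2 * (‖α‖ * ‖β‖) * (Cmu q * PP (lamq q) x11 x12 x21 x22) := by ring
    _ ≤ (‖α‖ ^ 2 + ‖β‖ ^ 2) * (Cmu q * PP (lamq q) x11 x12 x21 x22) := by
      gcongr
    _ = _ := by ring

private theorem quot (l : ℝ) (hP : 0 < PP l x11 x12 x21 x22) :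
    n2 l Q R α β x11 x12 x21 x22 / PP l x11 x12 x21 x22 -
        ‖n1 l Q R α β x11 x12 x21 x22‖ ^ 2 / PP l x11 x12 x21 x22 ^ 2 =
      (PP l x11 x12 x21 x22 * n2 l Q R α β x11 x12 x21 x22 -
        ‖n1 l Q R α β x11 x12 x21 x22‖ ^ 2) / PP l x11 x12 x21 x22 ^ 2 := by
  field_simp

/-- `P n2 - |n1|² = |α|² (P aA - |nA|²) + |β|² (P aA' - |nA'|²) +
2 Re (α conj β (P cA - nA conj nA'))`; then `mixed_le`, `2 |α| |β| ≤ |α|² + |β|²`, `P ≥ 2 l`,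
`P aA - |nA|² ≤ P aA ≤ CP P²`. -/
theorem levi_le (hq : 0 < q) (hQ : ‖Q‖ ≤ q) (hR : ‖R‖ ≤ q) (hdet : x11 * x22 - x21 * x12 = 1) :
    n2 (lamq q) Q R α β x11 x12 x21 x22 / PP (lamq q) x11 x12 x21 x22 -
        ‖n1 (lamq q) Q R α β x11 x12 x21 x22‖ ^ 2 / PP (lamq q) x11 x12 x21 x22 ^ 2 ≤
      C5 q * (‖α‖ ^ 2 + ‖β‖ ^ 2) := by
  have hP := PP_pos (q := q) hdet
  have hl := lamq_pos q
  have hC := Cmu_ge' hq
  have hP2 := PP_ge (q := q) hdet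
  rw [quot _ hP, div_le_iff₀ (by positivity), key]
  have h1 := aA_le (x11 := x11) (x12 := x12) (x21 := x21) (x22 := x22) hq hQ
  have h2 := aA_le (x11 := x11) (x12 := x21) (x21 := x12) (x22 := x22) hq hR
  rw [PP_symm] at h2
  have h3 := (abs_le.1 (mixed_bd (α := α) (β := β) hq hQ hR hdet)).2
  set P := PP (lamq q) x11 x12 x21 x22 with hPdef
  have h4 : P * aA (lamq q) Q x11 x12 x21 x22 - ‖nA (lamq q) Q x11 x12 x21 x22‖ ^ 2 ≤
      CP q * P ^ 2 := by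
    nlinarith [sq_nonneg ‖nA (lamq q) Q x11 x12 x21 x22‖, mul_le_mul_of_nonneg_left h1 hP.le]
  have h5 : P * aA (lamq q) R x11 x21 x12 x22 - ‖nA (lamq q) R x11 x21 x12 x22‖ ^ 2 ≤
      CP q * P ^ 2 := by
    nlinarith [sq_nonneg ‖nA (lamq q) R x11 x21 x12 x22‖, mul_le_mul_of_nonneg_left h2 hP.le]
  have h6 : Cmu q * P * (‖α‖ ^ 2 + ‖β‖ ^ 2) ≤
      Cmu q / (2 * lamq q) * P ^ 2 * (‖α‖ ^ 2 + ‖β‖ ^ 2) := by
    have : Cmu q * P ≤ Cmu q / (2 * lamq q) * P ^ 2 := by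
      rw [div_mul_eq_mul_div, le_div_iff₀ (by positivity)]
      have : Cmu q * P * (2 * lamq q) ≤ Cmu q * P * P := by gcongr
      nlinarith
    gcongr
  calc _ ≤ ‖α‖ ^ 2 * (CP q * P ^ 2) + ‖β‖ ^ 2 * (CP q * P ^ 2) +
        Cmu q / (2 * lamq q) * P ^ 2 * (‖α‖ ^ 2 + ‖β‖ ^ 2) := by
        refine add_le_add (add_le_add ?_ ?_) (h3.trans h6)
        · gcongr
        · gcongr
    _ = _ := by
      unfold C5
      ring

/-- the same formula with `pure_lower`; `P ≥ 8 Cmu` because `log P ≥ M0 q = log (8 Cmu q)`. -/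
theorem levi_ge (hq : 0 < q) (hQ : ‖Q‖ ≤ q) (hR : ‖R‖ ≤ q) (hdet : x11 * x22 - x21 * x12 = 1)
    (hP : M0 q ≤ Real.log (PP (lamq q) x11 x12 x21 x22)) :
    (‖α‖ ^ 2 + ‖β‖ ^ 2) / 8 ≤
      n2 (lamq q) Q R α β x11 x12 x21 x22 / PP (lamq q) x11 x12 x21 x22 -
        ‖n1 (lamq q) Q R α β x11 x12 x21 x22‖ ^ 2 / PP (lamq q) x11 x12 x21 x22 ^ 2 := by
  have hP0 := PP_pos (q := q) hdet
  have hC := Cmu_ge' hq
  rw [quot _ hP0, le_div_iff₀ (by positivity), key]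
  have h1 := pure_lower (x11 := x11) (x12 := x12) (x21 := x21) (x22 := x22) hq hQ
  have h2 := pure_lower (x11 := x11) (x12 := x21) (x21 := x12) (x22 := x22) hq hR
  rw [PP_symm] at h2
  have h3 := (abs_le.1 (mixed_bd (α := α) (β := β) hq hQ hR hdet)).1
  set P := PP (lamq q) x11 x12 x21 x22 with hPdef
  have h8 : 8 * Cmu q ≤ P := by
    unfold M0 at hP
    exact (Real.log_le_log_iff (by positivity) hP0).1 hP
  have h9 : Cmu q * P * (‖α‖ ^ 2 + ‖β‖ ^ 2) ≤ P ^ 2 / 8 * (‖α‖ ^ 2 + ‖β‖ ^ 2) := by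
    have : Cmu q * P ≤ P ^ 2 / 8 := by nlinarith
    gcongr
  have h10 : ‖α‖ ^ 2 * (P ^ 2 / 4) ≤ ‖α‖ ^ 2 * (P * aA (lamq q) Q x11 x12 x21 x22 -
      ‖nA (lamq q) Q x11 x12 x21 x22‖ ^ 2) := by gcongr
  have h11 : ‖β‖ ^ 2 * (P ^ 2 / 4) ≤ ‖β‖ ^ 2 * (P * aA (lamq q) R x11 x21 x12 x22 -
      ‖nA (lamq q) R x11 x21 x12 x22‖ ^ 2) := by gcongr
  linarith

end Pool.Agent.MP_ae5b4e_an_NB4
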