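import Pool.Agent.Lib.MP_ae5b4e_an_NB4.Defs

/-!
# MP_ae5b4e_an, NB_4, module AlgN: the Levi form of `log N` (pure algebra of four complex numbers)

Notation: `x = (x11, x12; x21, x22)` with determinant one, `l = lamq q = 1 / (2 q² + 1)`,
`P = |x11|² + l |x21|² + l |x12|² + l² |x22|²`.
-/

noncomputable section

namespace Pool.Agent.MP_ae5b4e_an_NB4

open Complex Set Filter Topology Metric
open scoped ComplexConjugate

/-- the value of `N` -/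
def PP (l : ℝ) (x11 x12 x21 x22 : ℂ) : ℝ :=
  ‖x11‖ ^ 2 + l * ‖x21‖ ^ 2 + l * ‖x12‖ ^ 2 + l ^ 2 * ‖x22‖ ^ 2

/-- the coefficient of `α` in `∂ N` (the coefficient of `β` is `nA l R x11 x21 x12 x22`) -/
def nA (l : ℝ) (Q x11 x12 x21 x22 : ℂ) : ℂ :=
  (1 + l) * (x21 * conj x11 + l * (x22 * conj x12)) -
    l * Q * (x11 * conj x21 + l * (x12 * conj x22))

/-- the coefficient of `|α|²` in `∂ ∂̄ N` -/
def aA (l : ℝ) (Q x11 x12 x21 x22 : ℂ) : ℝ :=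
  (1 + l) * (‖x21‖ ^ 2 + l * ‖x22‖ ^ 2) + (1 + l + l * ‖Q‖ ^ 2) * (‖x11‖ ^ 2 + l * ‖x12‖ ^ 2)

/-- the coefficient of `α conj β` in `∂ ∂̄ N` (twice the real part is taken) -/
def cA (l : ℝ) (Q R x11 x12 x21 x22 : ℂ) : ℂ :=
  (1 + l) ^ 2 * (x21 * conj x12) - l * (1 + l) * (Q * x11 * conj x22 + conj R * x22 * conj x11) +
    l ^ 2 * (Q * conj R * (x12 * conj x21))

/-- `∂ N` -/
def n1 (l : ℝ) (Q R α β x11 x12 x21 x22 : ℂ) : ℂ :=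
  α * nA l Q x11 x12 x21 x22 + β * nA l R x11 x21 x12 x22

/-- `∂ ∂̄ N` -/
def n2 (l : ℝ) (Q R α β x11 x12 x21 x22 : ℂ) : ℝ :=
  ‖α‖ ^ 2 * aA l Q x11 x12 x21 x22 + ‖β‖ ^ 2 * aA l R x11 x21 x12 x22 +
    2 * (α * conj β * cA l Q R x11 x12 x21 x22).re

variable {q : ℝ} {Q R x11 x12 x21 x22 : ℂ}

theorem lamq_pos (q : ℝ) : 0 < lamq q := by
  unfold lamq
  positivity

theorem lamq_eq (q : ℝ) : lamq q * (2 * q ^ 2 + 1) = 1 := by
  unfold lamq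
  field_simp

private theorem nsq (z : ℂ) : ((‖z‖ : ℝ) : ℂ) ^ 2 = z * conj z := (Complex.mul_conj' z).symm

private theorem lamq_le_one (q : ℝ) : lamq q ≤ 1 := by
  have h := lamq_eq q
  have h1 := lamq_pos q
  nlinarith [mul_nonneg h1.le (sq_nonneg q)]

private theorem norm_nA {l : ℝ} (hl : 0 ≤ l) (Q x11 x12 x21 x22 : ℂ) :
    ‖nA l Q x11 x12 x21 x22‖ ≤
      ((1 + l) + l * ‖Q‖) * (‖x21‖ * ‖x11‖ + l * (‖x22‖ * ‖x12‖)) := by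
  have e1 : ‖((1 : ℂ) + (l : ℂ))‖ = 1 + l := by
    have : ((1 : ℂ) + (l : ℂ)) = ((1 + l : ℝ) : ℂ) := by push_cast; ring
    rw [this, Complex.norm_real, Real.norm_of_nonneg (by linarith)]
  have e2 : ‖(l : ℂ)‖ = l := by rw [Complex.norm_real, Real.norm_of_nonneg hl]
  have g1 : ‖x21 * conj x11 + l * (x22 * conj x12)‖ ≤ ‖x21‖ * ‖x11‖ + l * (‖x22‖ * ‖x12‖) := by
    refine (norm_add_le _ _).trans ?_
    rw [norm_mul, norm_mul, norm_mul, e2, Complex.norm_conj, Complex.norm_conj]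
  have g2 : ‖x11 * conj x21 + l * (x12 * conj x22)‖ ≤ ‖x21‖ * ‖x11‖ + l * (‖x22‖ * ‖x12‖) := by
    refine (norm_add_le _ _).trans ?_
    rw [norm_mul, norm_mul, norm_mul, e2, Complex.norm_conj, Complex.norm_conj]
    linarith [mul_comm ‖x11‖ ‖x21‖, mul_comm ‖x12‖ ‖x22‖]
  unfold nA
  refine (norm_sub_le _ _).trans ?_
  rw [norm_mul, norm_mul, norm_mul, e1, e2]
  have h1 := mul_le_mul_of_nonneg_left g1 (by linarith : 0 ≤ 1 + l)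
  have h2 := mul_le_mul_of_nonneg_left g2 (mul_nonneg hl (norm_nonneg Q))
  linarith

/-- `2 l ≤ 2 l |x11 x22| + 2 l |x12 x21| ≤ P`. -/
theorem PP_ge (hdet : x11 * x22 - x21 * x12 = 1) : 2 * lamq q ≤ PP (lamq q) x11 x12 x21 x22 := by
  have h1 : (1 : ℝ) ≤ ‖x11‖ * ‖x22‖ + ‖x21‖ * ‖x12‖ := by
    have h := norm_sub_le (x11 * x22) (x21 * x12)
    rw [hdet, norm_one, norm_mul, norm_mul] at h
    exact h
  have hl := lamq_pos q
  unfold PP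
  nlinarith [sq_nonneg (‖x11‖ - lamq q * ‖x22‖), mul_nonneg hl.le (sq_nonneg (‖x21‖ - ‖x12‖)),
    mul_le_mul_of_nonneg_left h1 hl.le]

/-- Put `A = |x11|² + l |x12|²`, `B = |x21|² + l |x22|²`, `g = x21 conj x11 + l x22 conj x12`:
`P = A + l B`, `|g|² ≤ A B` (Cauchy-Schwarz), `|nA| ≤ ((1 + l) + l |Q|) |g|`,
`aA = (1 + l) B + (1 + l + l |Q|²) A`.  So `P aA - |nA|² ≥
(1 + l + l|Q|²) A² + (1 + l) l B² - 2 (1 + l) l |Q| A B`
(the coefficient of `A B` is exactly that), and this is `≥ ((1 + l) / 2) (A² + l² B²) ≥ P² / 4`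
because `1 / l = 2 q² + 1`. -/
theorem pure_lower (hq : 0 < q) (hQ : ‖Q‖ ≤ q) :
    PP (lamq q) x11 x12 x21 x22 ^ 2 / 4 ≤
      PP (lamq q) x11 x12 x21 x22 * aA (lamq q) Q x11 x12 x21 x22 -
        ‖nA (lamq q) Q x11 x12 x21 x22‖ ^ 2 := by
  have hl := lamq_pos q
  have hl1 := lamq_le_one q
  have hle := lamq_eq q
  have hn := norm_nA hl.le Q x11 x12 x21 x22
  have hn2 := pow_le_pow_left₀ (norm_nonneg _) hn 2
  refine le_trans ?_ (sub_le_sub_left hn2 _)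
  unfold PP aA
  set l := lamq q
  set t := ‖Q‖
  have ht : 0 ≤ t := norm_nonneg Q
  set a := ‖x11‖
  set b := ‖x12‖
  set c := ‖x21‖
  set d := ‖x22‖
  -- the two quantities
  obtain ⟨A, hA⟩ : ∃ A, A = a ^ 2 + l * b ^ 2 := ⟨_, rfl⟩
  obtain ⟨B, hB⟩ : ∃ B, B = c ^ 2 + l * d ^ 2 := ⟨_, rfl⟩
  have hG : (c * a + l * (d * b)) ^ 2 ≤ A * B := by
    rw [hA, hB]
    nlinarith [mul_nonneg hl.le (sq_nonneg (a * d - b * c))]
  have hG' : ((1 + l + l * t) * (c * a + l * (d * b))) ^ 2 ≤ (1 + l + l * t) ^ 2 * (A * B) := by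
    rw [mul_pow]
    exact mul_le_mul_of_nonneg_left hG (sq_nonneg _)
  have htq : t ^ 2 ≤ q ^ 2 := pow_le_pow_left₀ ht hQ 2
  have hlt : l * t ^ 2 ≤ (1 - l) / 2 := by
    have := mul_le_mul_of_nonneg_left htq hl.le
    linarith
  have e1 : a ^ 2 + l * c ^ 2 + l * b ^ 2 + l ^ 2 * d ^ 2 = A + l * B := by rw [hA, hB]; ring
  rw [e1, ← hA, ← hB]
  have key : 0 ≤ ((1 + l) / 2 + l * t ^ 2) * A ^ 2 + (1 + l) * (l - l ^ 2 / 2) * B ^ 2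
      - 2 * (l * (1 + l) * t) * (A * B) := by
    have ha : 0 < (1 + l) / 2 + l * t ^ 2 := by positivity
    have hab : (l * (1 + l) * t) ^ 2 ≤
        ((1 + l) / 2 + l * t ^ 2) * ((1 + l) * (l - l ^ 2 / 2)) := by
      have h3 : l * (1 + l) * t ^ 2 ≤ ((1 + l) / 2 + l * t ^ 2) * (1 - l / 2) := by
        have : (3 * l / 2) * (l * t ^ 2) ≤ (3 * l / 2) * ((1 - l) / 2) :=
          mul_le_mul_of_nonneg_left hlt (by linarith)
        nlinarith [sq_nonneg l, sq_nonneg (1 - l)]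
      have h4 : 0 ≤ l * (1 + l) := by positivity
      have := mul_le_mul_of_nonneg_left h3 h4
      nlinarith [this]
    have h5 : 0 ≤ (((1 + l) / 2 + l * t ^ 2) * A - (l * (1 + l) * t) * B) ^ 2 +
        (((1 + l) / 2 + l * t ^ 2) * ((1 + l) * (l - l ^ 2 / 2)) - (l * (1 + l) * t) ^ 2) * B ^ 2 :=
      add_nonneg (sq_nonneg _) (mul_nonneg (by linarith) (sq_nonneg _))
    by_contra hneg
    push Not at hneg
    have := mul_neg_of_pos_of_neg ha hneg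
    nlinarith [this, h5]
  have h6 : (A + l * B) ^ 2 / 4 ≤ (1 + l) / 2 * (A ^ 2 + l ^ 2 * B ^ 2) := by
    nlinarith [sq_nonneg (A - l * B), mul_nonneg hl.le (sq_nonneg A),
      mul_nonneg hl.le (sq_nonneg (l * B))]
  nlinarith [key, h6, hG']

/-- `|nA| ≤ (1 + l + l q) √(A B) ≤ CW q * P`. -/
theorem nA_le (hq : 0 < q) (hQ : ‖Q‖ ≤ q) :
    ‖nA (lamq q) Q x11 x12 x21 x22‖ ≤ CW q * PP (lamq q) x11 x12 x21 x22 := by
  have hl := lamq_pos q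
  refine (norm_nA hl.le Q x11 x12 x21 x22).trans ?_
  have hs : 0 < Real.sqrt (lamq q) := Real.sqrt_pos.2 hl
  have hs2 : Real.sqrt (lamq q) ^ 2 = lamq q := Real.sq_sqrt hl.le
  unfold PP CW
  have hG : 2 * Real.sqrt (lamq q) * (‖x21‖ * ‖x11‖ + lamq q * (‖x22‖ * ‖x12‖)) ≤
      ‖x11‖ ^ 2 + lamq q * ‖x21‖ ^ 2 + lamq q * ‖x12‖ ^ 2 + lamq q ^ 2 * ‖x22‖ ^ 2 := by
    have h1 := sq_nonneg (‖x11‖ - Real.sqrt (lamq q) * ‖x21‖)
    have h2 := mul_nonneg hl.le (sq_nonneg (‖x12‖ - Real.sqrt (lamq q) * ‖x22‖))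
    have h3 : (‖x11‖ - Real.sqrt (lamq q) * ‖x21‖) ^ 2 = ‖x11‖ ^ 2
        - 2 * Real.sqrt (lamq q) * (‖x21‖ * ‖x11‖) + lamq q * ‖x21‖ ^ 2 := by
      rw [sub_sq, mul_pow, hs2]; ring
    have h4 : (‖x12‖ - Real.sqrt (lamq q) * ‖x22‖) ^ 2 = ‖x12‖ ^ 2
        - 2 * Real.sqrt (lamq q) * (‖x22‖ * ‖x12‖) + lamq q * ‖x22‖ ^ 2 := by
      rw [sub_sq, mul_pow, hs2]; ring
    rw [h3] at h1
    rw [h4] at h2
    nlinarith [h1, h2]
  have h5 : (1 + lamq q) + lamq q * ‖Q‖ ≤ 1 + lamq q + lamq q * q := by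
    have := mul_le_mul_of_nonneg_left hQ hl.le
    linarith
  have h6 : 0 ≤ ‖x21‖ * ‖x11‖ + lamq q * (‖x22‖ * ‖x12‖) := by positivity
  have h7 : 0 < 1 + lamq q + lamq q * q := by positivity
  calc _ ≤ (1 + lamq q + lamq q * q) * (‖x21‖ * ‖x11‖ + lamq q * (‖x22‖ * ‖x12‖)) :=
        mul_le_mul_of_nonneg_right h5 h6
    _ = (1 + lamq q + lamq q * q) / (2 * Real.sqrt (lamq q)) *
        (2 * Real.sqrt (lamq q) * (‖x21‖ * ‖x11‖ + lamq q * (‖x22‖ * ‖x12‖))) := by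
        field_simp
    _ ≤ _ := mul_le_mul_of_nonneg_left hG (by positivity)

/-- `aA ≤ CP q * P`: `A + B ≤ (A + l B) / l`. -/
theorem aA_le (hq : 0 < q) (hQ : ‖Q‖ ≤ q) :
    aA (lamq q) Q x11 x12 x21 x22 ≤ CP q * PP (lamq q) x11 x12 x21 x22 := by
  have hl := lamq_pos q
  have hl1 := lamq_le_one q
  have htq : ‖Q‖ ^ 2 ≤ q ^ 2 := pow_le_pow_left₀ (norm_nonneg Q) hQ 2
  unfold aA CP PP
  set l := lamq q
  obtain ⟨A, hA⟩ : ∃ A, A = ‖x11‖ ^ 2 + l * ‖x12‖ ^ 2 := ⟨_, rfl⟩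
  obtain ⟨B, hB⟩ : ∃ B, B = ‖x21‖ ^ 2 + l * ‖x22‖ ^ 2 := ⟨_, rfl⟩
  have hA0 : 0 ≤ A := by rw [hA]; positivity
  have hB0 : 0 ≤ B := by rw [hB]; positivity
  have e1 : ‖x11‖ ^ 2 + l * ‖x21‖ ^ 2 + l * ‖x12‖ ^ 2 + l ^ 2 * ‖x22‖ ^ 2 = A + l * B := by
    rw [hA, hB]; ring
  rw [e1, ← hA, ← hB]
  have h1 : (1 + l) / l * (A + l * B) = (1 + l) / l * A + (1 + l) * B := by
    field_simp
  have h2 : (1 + l) * A ≤ (1 + l) / l * A := by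
    apply mul_le_mul_of_nonneg_right _ hA0
    rw [le_div_iff₀ hl]
    nlinarith
  have h3 : l * ‖Q‖ ^ 2 * A ≤ l * q ^ 2 * A :=
    mul_le_mul_of_nonneg_right (mul_le_mul_of_nonneg_left htq hl.le) hA0
  have h4 : 0 ≤ l * q ^ 2 * (l * B) := by positivity
  calc _ = (1 + l) * B + (1 + l) * A + l * ‖Q‖ ^ 2 * A := by ring
    _ ≤ (1 + l) * B + (1 + l) / l * A + (l * q ^ 2 * A + l * q ^ 2 * (l * B)) := by linarith
    _ = (1 + l) / l * (A + l * B) + l * q ^ 2 * (A + l * B) := by rw [h1]; ring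
    _ = _ := by ring

/-- The exact formula for the mixed term (uses the determinant only); proof: expand, with
`‖z‖ ^ 2 = z * conj z`. -/
theorem mixed_eq (l : ℝ) (hdet : x11 * x22 - x21 * x12 = 1) :
    (PP l x11 x12 x21 x22 : ℂ) * cA l Q R x11 x12 x21 x22 -
        nA l Q x11 x12 x21 x22 * conj (nA l R x11 x21 x12 x22) =
      -(l * (1 + l) ^ 2 * (x21 ^ 2 + conj x12 ^ 2)) -
        l * (1 + l) * Q * (x11 ^ 2 + l ^ 2 * conj x22 ^ 2) -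
        l * (1 + l) * conj R * (conj x11 ^ 2 + l ^ 2 * x22 ^ 2) -
        l ^ 3 * (Q * conj R) * (conj x21 ^ 2 + x12 ^ 2) := by
  have hdet' : conj x11 * conj x22 - conj x21 * conj x12 = 1 := by
    rw [← map_mul, ← map_mul, ← map_sub, hdet, map_one]
  unfold PP cA nA
  push_cast
  simp only [nsq, map_add, map_sub, map_mul, Complex.conj_conj, Complex.conj_ofReal, map_one]
  linear_combination
    (-(l * (1 + l) ^ 2 * conj x12 ^ 2) - l * (1 + l) * Q * (l ^ 2 * conj x22 ^ 2) -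
      l * (1 + l) * conj R * conj x11 ^ 2 - l ^ 3 * (Q * conj R) * conj x21 ^ 2) * hdet +
    (-(l * (1 + l) ^ 2 * x21 ^ 2) - l * (1 + l) * Q * x11 ^ 2 -
      l * (1 + l) * conj R * (l ^ 2 * x22 ^ 2) - l ^ 3 * (Q * conj R) * x12 ^ 2) * hdet'

/-- `Cmu q = (1 + l + l q)²`, and with `S₁ = |x11|² + l² |x22|²`, `S₂ = l (|x12|² + |x21|²)`,
`S₁ + S₂ = P`, the right side of `mixed_eq` is at most
`((1 + l)² + l² q²) S₂ + 2 l (1 + l) q S₁`. -/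
theorem mixed_le (hq : 0 < q) (hQ : ‖Q‖ ≤ q) (hR : ‖R‖ ≤ q) (hdet : x11 * x22 - x21 * x12 = 1) :
    ‖(PP (lamq q) x11 x12 x21 x22 : ℂ) * cA (lamq q) Q R x11 x12 x21 x22 -
        nA (lamq q) Q x11 x12 x21 x22 * conj (nA (lamq q) R x11 x21 x12 x22)‖ ≤
      Cmu q * PP (lamq q) x11 x12 x21 x22 := by
  have hl := lamq_pos q
  have hs : 0 < Real.sqrt (lamq q) := Real.sqrt_pos.2 hl
  have hs2 : Real.sqrt (lamq q) * Real.sqrt (lamq q) = lamq q := Real.mul_self_sqrt hl.le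
  have hC : Cmu q = (1 + lamq q + lamq q * q) ^ 2 := by
    unfold Cmu CT
    have : Real.sqrt (lamq q) * (Real.sqrt (lamq q) + (1 + lamq q * q) / Real.sqrt (lamq q))
        = 1 + lamq q + lamq q * q := by
      rw [mul_add, hs2, mul_div_cancel₀ _ hs.ne']
      ring
    rw [this]; ring
  rw [mixed_eq (lamq q) hdet, hC]
  unfold PP
  set l := lamq q
  have e1 : ‖((1 : ℂ) + (l : ℂ))‖ = 1 + l := by
    have : ((1 : ℂ) + (l : ℂ)) = ((1 + l : ℝ) : ℂ) := by push_cast; ring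
    rw [this, Complex.norm_real, Real.norm_of_nonneg (by linarith)]
  have e2 : ‖(l : ℂ)‖ = l := by rw [Complex.norm_real, Real.norm_of_nonneg hl.le]
  have t1 : ‖x21 ^ 2 + conj x12 ^ 2‖ ≤ ‖x21‖ ^ 2 + ‖x12‖ ^ 2 := by
    refine (norm_add_le _ _).trans ?_
    rw [norm_pow, norm_pow, Complex.norm_conj]
  have t2 : ‖x11 ^ 2 + l ^ 2 * conj x22 ^ 2‖ ≤ ‖x11‖ ^ 2 + l ^ 2 * ‖x22‖ ^ 2 := by
    refine (norm_add_le _ _).trans ?_
    rw [norm_mul, norm_pow, norm_pow, norm_pow, e2, Complex.norm_conj]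
  have t3 : ‖conj x11 ^ 2 + l ^ 2 * x22 ^ 2‖ ≤ ‖x11‖ ^ 2 + l ^ 2 * ‖x22‖ ^ 2 := by
    refine (norm_add_le _ _).trans ?_
    rw [norm_mul, norm_pow, norm_pow, norm_pow, e2, Complex.norm_conj]
  have t4 : ‖conj x21 ^ 2 + x12 ^ 2‖ ≤ ‖x21‖ ^ 2 + ‖x12‖ ^ 2 := by
    refine (norm_add_le _ _).trans ?_
    rw [norm_pow, norm_pow, Complex.norm_conj]
  have u1 : ‖(l : ℂ) * (1 + l) ^ 2 * (x21 ^ 2 + conj x12 ^ 2)‖ ≤
      l * (1 + l) ^ 2 * (‖x21‖ ^ 2 + ‖x12‖ ^ 2) := by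
    rw [norm_mul, norm_mul, norm_pow, e1, e2]
    exact mul_le_mul_of_nonneg_left t1 (by positivity)
  have u2 : ‖(l : ℂ) * (1 + l) * Q * (x11 ^ 2 + l ^ 2 * conj x22 ^ 2)‖ ≤
      l * (1 + l) * q * (‖x11‖ ^ 2 + l ^ 2 * ‖x22‖ ^ 2) := by
    rw [norm_mul, norm_mul, norm_mul, e1, e2]
    exact mul_le_mul (mul_le_mul_of_nonneg_left hQ (by positivity)) t2 (norm_nonneg _)
      (by positivity)
  have u3 : ‖(l : ℂ) * (1 + l) * conj R * (conj x11 ^ 2 + l ^ 2 * x22 ^ 2)‖ ≤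
      l * (1 + l) * q * (‖x11‖ ^ 2 + l ^ 2 * ‖x22‖ ^ 2) := by
    rw [norm_mul, norm_mul, norm_mul, e1, e2, Complex.norm_conj]
    exact mul_le_mul (mul_le_mul_of_nonneg_left hR (by positivity)) t3 (norm_nonneg _)
      (by positivity)
  have u4 : ‖(l : ℂ) ^ 3 * (Q * conj R) * (conj x21 ^ 2 + x12 ^ 2)‖ ≤
      l ^ 3 * (q * q) * (‖x21‖ ^ 2 + ‖x12‖ ^ 2) := by
    rw [norm_mul, norm_mul, norm_mul, norm_pow, e2, Complex.norm_conj]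
    exact mul_le_mul (mul_le_mul_of_nonneg_left (mul_le_mul hQ hR (norm_nonneg _) hq.le)
      (by positivity)) t4 (norm_nonneg _) (by positivity)
  have v : ‖-((l : ℂ) * (1 + l) ^ 2 * (x21 ^ 2 + conj x12 ^ 2)) -
        l * (1 + l) * Q * (x11 ^ 2 + l ^ 2 * conj x22 ^ 2) -
        l * (1 + l) * conj R * (conj x11 ^ 2 + l ^ 2 * x22 ^ 2) -
        l ^ 3 * (Q * conj R) * (conj x21 ^ 2 + x12 ^ 2)‖ ≤
      l * (1 + l) ^ 2 * (‖x21‖ ^ 2 + ‖x12‖ ^ 2) +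
      l * (1 + l) * q * (‖x11‖ ^ 2 + l ^ 2 * ‖x22‖ ^ 2) +
      l * (1 + l) * q * (‖x11‖ ^ 2 + l ^ 2 * ‖x22‖ ^ 2) +
      l ^ 3 * (q * q) * (‖x21‖ ^ 2 + ‖x12‖ ^ 2) := by
    refine (norm_sub_le _ _).trans (add_le_add ?_ u4)
    refine (norm_sub_le _ _).trans (add_le_add ?_ u3)
    refine (norm_sub_le _ _).trans (add_le_add ?_ u2)
    rw [norm_neg]
    exact u1
  refine v.trans ?_
  have w1 : 0 ≤ 2 * l * (1 + l) * q * (l * (‖x21‖ ^ 2 + ‖x12‖ ^ 2)) := by positivity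
  have w2 : 0 ≤ ((1 + l) ^ 2 + l ^ 2 * q ^ 2) * (‖x11‖ ^ 2 + l ^ 2 * ‖x22‖ ^ 2) := by positivity
  nlinarith [w1, w2]

end Pool.Agent.MP_ae5b4e_an_NB4
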