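import Pool.Agent.Lib.MP_ae5b4e_an_NB4.Nd

/-!
# MP_ae5b4e_an, NB_4: the component of the closed chains
-/

noncomputable section

namespace Pool.Agent.MP_ae5b4e_an_NB4

open Complex Set Filter Topology Metric
open Pool.Agent.MP_ae5b4e_an_NBT (St)
open Pool.Agent.MP_ae5b4e_an_NB2 (Sys)

variable {Y : Sys} {h q₁ : ℝ} {q : ℕ} [NeZero q] {z : ZMod q → ℂ} {π₀ : ℂ}

/-- all labels different: no pair function is `-∞` -/
def Om (Y : Sys) (h : ℝ) (q : ℕ) : Set (ZMod q → ℂ) :=
  {z | z ∈ Sq h q ∧ ∀ i j, i ≠ j → Y.s (z i) (z j) ≠ 0}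

private theorem contS (hY : Y.On (St (-h) h)) (i j : ZMod q) :
    ContinuousOn (fun z : ZMod q → ℂ => Y.s (z i) (z j)) (Sq h q) := by
  have h1 : ContinuousOn Y.y1 (St (-h) h) := fun w hw => (hY.d1 w hw).continuousAt.continuousWithinAt
  have h2 : ContinuousOn Y.y2 (St (-h) h) := fun w hw => (hY.d2 w hw).continuousAt.continuousWithinAt
  have e : ∀ k : ZMod q, ContinuousOn (fun z : ZMod q → ℂ => z k) (Sq h q) :=
    fun k => (continuous_apply k).continuousOn
  have m : ∀ k : ZMod q, MapsTo (fun z : ZMod q → ℂ => z k) (Sq h q) (St (-h) h) :=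
    fun k z hz => hz k
  unfold Sys.s
  exact ((h1.comp (e j) (m j)).mul (h2.comp (e i) (m i))).sub
    ((h2.comp (e j) (m j)).mul (h1.comp (e i) (m i)))

theorem isOpen_Om (hY : Y.On (St (-h) h)) : IsOpen (Om Y h q) := by
  have key : Om Y h q = Sq h q ∩ ⋂ i : ZMod q, ⋂ j : ZMod q,
      (Sq h q ∩ {z | i ≠ j → Y.s (z i) (z j) ≠ 0}) := by
    ext z
    simp only [Om, mem_setOf_eq, mem_inter_iff, mem_iInter]
    constructor
    · rintro ⟨h1, h2⟩
      exact ⟨h1, fun i j => ⟨h1, h2 i j⟩⟩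
    · rintro ⟨h1, h2⟩
      exact ⟨h1, fun i j => (h2 i j).2⟩
  rw [key]
  have : Finite (ZMod q) := Finite.of_fintype _
  refine isOpen_Sq.inter (isOpen_iInter_of_finite fun i => isOpen_iInter_of_finite fun j => ?_)
  by_cases hij : i = j
  · have : (Sq h q ∩ {z | i ≠ j → Y.s (z i) (z j) ≠ 0}) = Sq h q := by
      ext z
      simp [hij]
    rw [this]
    exact isOpen_Sq
  · have : (Sq h q ∩ {z | i ≠ j → Y.s (z i) (z j) ≠ 0}) =
        Sq h q ∩ (fun z : ZMod q → ℂ => Y.s (z i) (z j)) ⁻¹' {0}ᶜ := by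
      ext z
      simp [hij]
    rw [this]
    exact (contS hY i j).isOpen_inter_preimage isOpen_Sq isOpen_compl_singleton

/-- `CC := connectedComponentIn (FF Y h q π₀) z₀`, `z₀` the point of `H.real`. It is preconnected
with more than one point, so every point is in the closure of the rest (a preconnected set with an
isolated point is a single point). Closed in `Sq`: `closure CC ∩ Sq ⊆ FF` is ... `CC ∪ {z}` is
preconnected (`IsPreconnected.subset_closure`) and contained in `FF` by `FF_closed`. -/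
theorem exists_comp (H : Bdd Y h q₁ q π₀) : ∃ CC ⊆ FF Y h q π₀, IsPreconnected CC ∧
    (∀ z ∈ closure CC, z ∈ Sq h q → z ∈ CC) ∧ (∀ z ∈ CC, z ∈ closure (FF Y h q π₀ \ {z})) ∧
    (∀ z ∈ CC, ∀ S ⊆ FF Y h q π₀, IsPreconnected S → z ∈ S → S ⊆ CC) ∧
    ∃ z ∈ CC, Rm Y q z ≠ 0 ∧ z ∈ Om Y h q := by
  obtain ⟨C₀, hC₀, hpre, hnt, z₀, hz₀, hR, hs⟩ := H.real
  have hz₀F : z₀ ∈ FF Y h q π₀ := hC₀ hz₀
  have hsub : C₀ ⊆ connectedComponentIn (FF Y h q π₀) z₀ :=
    hpre.subset_connectedComponentIn hz₀ hC₀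
  refine ⟨connectedComponentIn (FF Y h q π₀) z₀, connectedComponentIn_subset _ _,
    isPreconnected_connectedComponentIn, ?_, ?_, ?_, z₀, mem_connectedComponentIn hz₀F, hR,
    hz₀F.1, hs⟩
  · intro z hz hzS
    have hzF : z ∈ FF Y h q π₀ :=
      FF_closed H.on (closure_mono (connectedComponentIn_subset _ _) hz) hzS
    have hp : IsPreconnected (insert z (connectedComponentIn (FF Y h q π₀) z₀)) := by
      refine isPreconnected_connectedComponentIn.subset_closure (subset_insert _ _) ?_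
      rw [insert_subset_iff]
      exact ⟨hz, subset_closure⟩
    have := hp.subset_connectedComponentIn (mem_insert_of_mem _ (mem_connectedComponentIn hz₀F))
      (insert_subset hzF (connectedComponentIn_subset _ _))
    exact this (mem_insert _ _)
  · intro z hz
    have hperf := (isPreconnected_connectedComponentIn (x := z₀)
      (F := FF Y h q π₀)).preperfect_of_nontrivial (hnt.mono hsub)
    have hacc := hperf z hz
    rw [accPt_principal_iff_clusterPt, ← mem_closure_iff_clusterPt] at hacc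
    exact closure_mono (diff_subset_diff_left (connectedComponentIn_subset _ _)) hacc
  · intro z hz S hS hSp hzS
    rw [connectedComponentIn_eq hz]
    exact hSp.subset_connectedComponentIn hzS hS

end Pool.Agent.MP_ae5b4e_an_NB4
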