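import Pool.Agent.Lib.MP_ae5b4e_an_NB4.DSA

/-!
# MP_ae5b4e_an, NB_4: the conformal density of the strip
-/

noncomputable section

namespace Pool.Agent.MP_ae5b4e_an_NB4

open Complex Set Filter Topology Metric
open Pool.Agent.MP_ae5b4e_an_NBT (St)
open Pool.Agent.MP_ae5b4e_an_NB2 (Sys)
open scoped ComplexConjugate

variable {Y : Sys} {h : ℝ} {l m z w : ℂ}

private theorem dsb_id (a p : ℂ) : normSq (1 - conj a * p) - normSq (p - a) =
    (1 - normSq a) * (1 - normSq p) := by
  simp only [normSq_apply, Complex.sub_re, Complex.sub_im, Complex.mul_re, Complex.mul_im,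
    Complex.conj_re, Complex.conj_im, Complex.one_re, Complex.one_im]
  ring

private theorem dsb_lt {a p : ℂ} (ha : ‖a‖ < 1) (hp : ‖p‖ < 1) :
    ‖p - a‖ < ‖1 - conj a * p‖ := by
  have h1 : normSq a < 1 := by
    rw [normSq_eq_norm_sq]
    have := norm_nonneg a
    nlinarith
  have h2 : normSq p < 1 := by
    rw [normSq_eq_norm_sq]
    have := norm_nonneg p
    nlinarith
  have h3 : normSq (p - a) < normSq (1 - conj a * p) := by
    have h4 := dsb_id a p
    have h5 : 0 < (1 - normSq a) * (1 - normSq p) := mul_pos (by linarith) (by linarith)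
    linarith
  rw [normSq_eq_norm_sq, normSq_eq_norm_sq] at h3
  exact lt_of_pow_lt_pow_left₀ 2 (norm_nonneg _) h3

private theorem dsb_sym (a p : ℂ) : ‖(a - p) / (1 - conj p * a)‖ = ‖(p - a) / (1 - conj a * p)‖ := by
  rw [norm_div, norm_div, norm_sub_rev a p]
  congr 1
  rw [← Complex.norm_conj (1 - conj p * a)]
  congr 1
  simp only [map_sub, map_one, map_mul, Complex.conj_conj]
  ring

/-- Schwarz-Pick for `psi : ball l (D/2) → ball 0 1` (compose with `mob (-psi l)` and use the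
Schwarz lemma): the pseudohyperbolic distance is `≤ |m - l| / (D/2) ≤ 1/4`. -/
theorem pd_le (hh : 0 < h) (hl : l ∈ St (-h) h) (hm : ‖m - l‖ ≤ DS h l / 8) :
    m ∈ St (-h) h ∧ ‖(psi h m - psi h l) / (1 - conj (psi h l) * psi h m)‖ ≤ 1 / 4 ∧
      ‖(psi h l - psi h m) / (1 - conj (psi h m) * psi h l)‖ ≤ 1 / 4 := by
  have hD := DS_pos hh hl
  have hsub := ball_sub hh hl
  have hmb : m ∈ ball l (DS h l / 2) := by
    rw [mem_ball, dist_eq_norm]
    linarith
  have hpsi : ∀ ζ ∈ ball l (DS h l / 2), ‖psi h ζ‖ < 1 := fun ζ hζ => by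
    have := psi_mem hh (hsub hζ)
    rwa [mem_ball_zero_iff] at this
  have hl1 : ‖psi h l‖ < 1 := hpsi l (mem_ball_self (by linarith))
  obtain ⟨a, ha⟩ : ∃ a, a = psi h l := ⟨_, rfl⟩
  rw [← ha] at hl1
  have hne : ∀ ζ ∈ ball l (DS h l / 2), 1 - conj a * psi h ζ ≠ 0 := fun ζ hζ h0 => by
    have h1 := dsb_lt hl1 (hpsi ζ hζ)
    rw [h0, norm_zero] at h1
    exact absurd h1 (not_lt.2 (norm_nonneg _))
  have hdiff : DifferentiableOn ℂ (fun ζ => (psi h ζ - a) / (1 - conj a * psi h ζ))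
      (ball l (DS h l / 2)) := by
    have h1 : DifferentiableOn ℂ (psi h) (ball l (DS h l / 2)) := fun ζ hζ =>
      (psi_deriv hh (hsub hζ)).differentiableAt.differentiableWithinAt
    exact (h1.sub_const a).div ((h1.const_mul (conj a)).const_sub 1) hne
  have hfl : (psi h l - a) / (1 - conj a * psi h l) = 0 := by
    rw [← ha, sub_self, zero_div]
  have key := dist_le_div_mul_dist_of_mapsTo_ball (R₂ := 1) hdiff (fun ζ hζ => by
    rw [hfl, mem_closedBall_zero_iff]
    show ‖(psi h ζ - a) / (1 - conj a * psi h ζ)‖ ≤ 1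
    rw [norm_div]
    exact div_le_one_of_le₀ (dsb_lt hl1 (hpsi ζ hζ)).le (norm_nonneg _)) hmb
  rw [hfl, dist_zero_right, dist_eq_norm] at key
  have h1 : ‖(psi h m - a) / (1 - conj a * psi h m)‖ ≤ 1 / 4 := by
    refine key.trans ?_
    calc 1 / (DS h l / 2) * ‖m - l‖ ≤ 1 / (DS h l / 2) * (DS h l / 8) := by
          refine mul_le_mul_of_nonneg_left hm ?_
          positivity
      _ = 1 / 4 := by
          field_simp
          norm_num
  rw [ha] at h1
  refine ⟨hsub hmb, h1, ?_⟩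
  rw [dsb_sym]
  exact h1

end Pool.Agent.MP_ae5b4e_an_NB4
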