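import Mathlib
import Pool.Agent.Lib.MP_ae5b4e_an_NB2.Defs

/-!
# MP_ae5b4e_an, project NB_4 (bounded Schwarzian, one rational step): definitions

The text is /team-store/POR_NB4_RAT_h34.md.  `Sys` is a fundamental system `(y1, y2)` of
`y'' + Q y = 0` with `y1 y2' - y1' y2 = 1`; the curve is `y2 / y1`.
-/

noncomputable section

namespace Pool.Agent.MP_ae5b4e_an_NB4

open Complex Set Filter Topology Metric
open Pool.Agent.MP_ae5b4e_an_NBT (St)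
open Pool.Agent.MP_ae5b4e_an_NB2 (Sys)
open scoped ComplexConjugate

/-! ### Jets of order two at the origin -/

/-- `f = a + b τ + b' τ̄ + e τ² + e' τ̄² + d τ τ̄ + o(|τ|²)` -/
def CJ (f : ℂ → ℂ) (a b b' d : ℂ) : Prop :=
  ∃ e e' : ℂ, (fun τ : ℂ => f τ - (a + b * τ + b' * conj τ + e * τ ^ 2 + e' * conj τ ^ 2 +
    d * (τ * conj τ))) =o[𝓝 0] (fun τ : ℂ => ‖τ‖ ^ 2)

/-- real jets: value `a`, `∂ f = b`, `∂ ∂̄ f = d` -/
def RJ (f : ℂ → ℝ) (a : ℝ) (b : ℂ) (d : ℝ) : Prop :=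
  CJ (fun τ => (f τ : ℂ)) a b (conj b) d

/-! ### Frames on the unit disc -/

/-- the determinant of two vectors -/
def wdg (a b : ℂ × ℂ) : ℂ := a.1 * b.2 - a.2 * b.1

/-- the vector `(y1, y2)` -/
def uu (Y : Sys) (z : ℂ) : ℂ × ℂ := (Y.y1 z, Y.y2 z)

/-- the derivative of the vector `(y1, y2)` -/
def uu' (Y : Sys) (z : ℂ) : ℂ × ℂ := (Y.y1' z, Y.y2' z)

/-- `(1 - |z|²) u' + z̄ u`: the covariant derivative on the unit disc -/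
def tu (Y : Sys) (z : ℂ) : ℂ × ℂ :=
  (((1 - ‖z‖ ^ 2 : ℝ) : ℂ) * Y.y1' z + conj z * Y.y1 z,
    ((1 - ‖z‖ ^ 2 : ℝ) : ℂ) * Y.y2' z + conj z * Y.y2 z)

/-- a system on the unit disc with `|Q| (1 - |z|²)² ≤ q` -/
structure QB (Y : Sys) (q : ℝ) : Prop where
  on : Y.On (ball 0 1)
  an : AnalyticOnNhd ℂ Y.Q (ball 0 1)
  bd : ∀ z ∈ ball (0:ℂ) 1, ‖Y.Q z‖ * (1 - ‖z‖ ^ 2) ^ 2 ≤ q

/-- the automorphism of the disc which maps `0` to `a` -/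
def mob (a z : ℂ) : ℂ := (z + a) / (1 + conj a * z)

/-- the window at `a`: the system in the coordinate `z`, `mob a z` -/
def win (Y : Sys) (a : ℂ) : Sys where
  Q z := Y.Q (mob a z) * (((1 - ‖a‖ ^ 2 : ℝ) : ℂ) / (1 + conj a * z) ^ 2) ^ 2
  y1 z := (1 + conj a * z) / (Real.sqrt (1 - ‖a‖ ^ 2) : ℂ) * Y.y1 (mob a z)
  y2 z := (1 + conj a * z) / (Real.sqrt (1 - ‖a‖ ^ 2) : ℂ) * Y.y2 (mob a z)
  y1' z := conj a / (Real.sqrt (1 - ‖a‖ ^ 2) : ℂ) * Y.y1 (mob a z) +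
    (Real.sqrt (1 - ‖a‖ ^ 2) : ℂ) / (1 + conj a * z) * Y.y1' (mob a z)
  y2' z := conj a / (Real.sqrt (1 - ‖a‖ ^ 2) : ℂ) * Y.y2 (mob a z) +
    (Real.sqrt (1 - ‖a‖ ^ 2) : ℂ) / (1 + conj a * z) * Y.y2' (mob a z)

/-! ### The pair functions -/

/-- the squared norm of the relative frame -/
def NN (lam : ℝ) (A B : Sys) (z w : ℂ) : ℝ :=
  (‖wdg (uu A z) (uu B w)‖ ^ 2 + lam * ‖wdg (tu A z) (uu B w)‖ ^ 2 +
    lam * ‖wdg (uu A z) (tu B w)‖ ^ 2 + lam ^ 2 * ‖wdg (tu A z) (tu B w)‖ ^ 2) /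
    ((1 - ‖z‖ ^ 2) * (1 - ‖w‖ ^ 2))

/-- the invariant `log (|s|² / (D D'))` -/
def ww (A B : Sys) (z w : ℂ) : ℝ :=
  Real.log (‖wdg (uu A z) (uu B w)‖ ^ 2 / ((1 - ‖z‖ ^ 2) * (1 - ‖w‖ ^ 2)))

/-! ### Constants (functions of `q`) -/

def lamq (q : ℝ) : ℝ := 1 / (2 * q ^ 2 + 1)
def CW (q : ℝ) : ℝ := (1 + lamq q + lamq q * q) / (2 * Real.sqrt (lamq q))
def C6 (q : ℝ) : ℝ := 2 * CW q ^ 2
def CT (q : ℝ) : ℝ := Real.sqrt (lamq q) + (1 + lamq q * q) / Real.sqrt (lamq q)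
def Cmu (q : ℝ) : ℝ := Real.sqrt (lamq q) * CT q * (1 + lamq q + lamq q * q)
def CP (q : ℝ) : ℝ := (1 + lamq q) / lamq q + lamq q * q ^ 2
def C5 (q : ℝ) : ℝ := CP q + Cmu q / (2 * lamq q)
def M0 (q : ℝ) : ℝ := Real.log (8 * Cmu q)
def Lc (q : ℝ) : ℝ := 6 * C6 q
def th (q : ℝ) : ℝ := 1 / (32 * C6 q)
def bb (q : ℝ) : ℝ := 32 * C5 q / th q

/-- a `C²` function: `0` for `x ≤ 0`, `x - 1/2` for `x ≥ 1` -/
def G0 (x : ℝ) : ℝ := if x ≤ 0 then 0 else if x ≤ 1 then x ^ 3 - x ^ 4 / 2 else x - 1 / 2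

def gg (q s : ℝ) : ℝ := Lc q * G0 ((s - M0 q) / Lc q)

def XX (q w W : ℝ) : ℝ := gg q W + M0 q + Lc q + 1 - w

/-- the bounded plurisubharmonic pair function, as a function of `w` and `W = log N` -/
def UU (q w W : ℝ) : ℝ := -(Real.exp (-(th q * gg q W)) * (bb q + Real.sqrt (XX q w W)))

/-! ### The strip and the disc -/

/-- from the strip `|Im l| < h` to the unit disc -/
def psi (h : ℝ) (l : ℂ) : ℂ := Complex.tanh (Real.pi / (4 * h) * l)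

/-- from the unit disc to the strip -/
def phi (h : ℝ) (z : ℂ) : ℂ := 2 * h / Real.pi * Complex.log ((1 + z) / (1 - z))

/-- `φ' ^ (-1/2)` -/
def rt (h : ℝ) (z : ℂ) : ℂ := (Real.sqrt (Real.pi / (4 * h)) : ℂ) * (1 - z ^ 2) ^ (1 / 2 : ℂ)

/-- the derivative of `rt` -/
def rt' (h : ℝ) (z : ℂ) : ℂ := -z / (1 - z ^ 2) * rt h z

/-- the system in the coordinate of the disc -/
def dsys (Y : Sys) (h : ℝ) : Sys where
  Q z := Y.Q (phi h z) * (4 * h / Real.pi / (1 - z ^ 2)) ^ 2 + 1 / (1 - z ^ 2) ^ 2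
  y1 z := rt h z * Y.y1 (phi h z)
  y2 z := rt h z * Y.y2 (phi h z)
  y1' z := rt' h z * Y.y1 (phi h z) + rt h z * (4 * h / Real.pi / (1 - z ^ 2)) * Y.y1' (phi h z)
  y2' z := rt' h z * Y.y2 (phi h z) + rt h z * (4 * h / Real.pi / (1 - z ^ 2)) * Y.y2' (phi h z)

/-- the pseudohyperbolic distance of the strip -/
def pd (h : ℝ) (l m : ℂ) : ℝ := ‖(psi h l - psi h m) / (1 - conj (psi h m) * psi h l)‖

/-! ### Closed chains -/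

/-- the labels with all integer indices; `l (n + q) = l n + 1` -/
def lab (q : ℕ) (z : ZMod q → ℂ) (n : ℤ) : ℂ := z (n : ZMod q) + ((n / (q : ℤ) : ℤ) : ℂ)

/-- the node function at the node `n` -/
def nd (Y : Sys) (q : ℕ) (z : ZMod q → ℂ) (n : ℤ) : ℂ :=
  Y.c (lab q z (n + 1)) (lab q z n) * Y.s (lab q z (n - 1)) (lab q z n) +
    Y.c (lab q z (n - 1)) (lab q z n) * Y.s (lab q z (n + 1)) (lab q z n)

/-- the product of the squares of the sides -/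
def prd (Y : Sys) (q : ℕ) (z : ZMod q → ℂ) : ℂ :=
  ∏ n ∈ Finset.range q, (Y.s (lab q z ((n : ℤ) + 1)) (lab q z n)) ^ 2

/-- all labels in the strip -/
def Sq (h : ℝ) (q : ℕ) : Set (ZMod q → ℂ) := {z | ∀ j, z j ∈ St (-h) h}

/-- the closed chains with the product `π₀` -/
def FF (Y : Sys) (h : ℝ) (q : ℕ) (π₀ : ℂ) : Set (ZMod q → ℂ) :=
  {z | z ∈ Sq h q ∧ (∀ n : ℤ, nd Y q z n = 0) ∧ prd Y q z = π₀}

/-- the Jacobian matrix of the node functions -/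
def Jm (Y : Sys) (q : ℕ) [NeZero q] (z : ZMod q → ℂ) : Matrix (ZMod q) (ZMod q) ℂ :=
  fun i j => fderiv ℂ (fun z' : ZMod q → ℂ => nd Y q z' (i.val : ℤ)) z (Pi.single j 1)

/-- its adjugate: non-zero at regular points -/
def Rm (Y : Sys) (q : ℕ) [NeZero q] (z : ZMod q → ℂ) : Matrix (ZMod q) (ZMod q) ℂ :=
  (Jm Y q z).adjugate

/-- `(y1, y2)` is periodic up to the sign -/
structure Per (Y : Sys) (h : ℝ) : Prop where
  ex : ∃ ε : ℂ, ε ^ 2 = 1 ∧ ∀ z ∈ St (-h) h, Y.y1 (z + 1) = ε * Y.y1 z ∧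
    Y.y2 (z + 1) = ε * Y.y2 z ∧ Y.y1' (z + 1) = ε * Y.y1' z ∧ Y.y2' (z + 1) = ε * Y.y2' z

/-- the curve `y2 / y1` is not injective on almost tangent discs -/
def NF (Y : Sys) (h : ℝ) : Prop :=
  ∃ ε > 0, ∃ s₀ > 0, ∀ w ∈ St (-h) h, h - |w.im| < s₀ →
    ¬ ∀ u ∈ ball w ((h - |w.im|) / (1 + ε)), ∀ v ∈ ball w ((h - |w.im|) / (1 + ε)),
      Y.s u v = 0 → u = v

/-- the data of the bounded case with one closed chain of real labels -/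
structure Bdd (Y : Sys) (h q₁ : ℝ) (q : ℕ) [NeZero q] (π₀ : ℂ) : Prop where
  h_pos : 0 < h
  q_two : 2 ≤ q
  on : Y.On (St (-h) h)
  qan : AnalyticOnNhd ℂ Y.Q (St (-h) h)
  per : Per Y h
  qb : QB (dsys Y h) q₁
  q_pos : 0 < q₁
  nf : NF Y h
  pi_ne : π₀ ≠ 0
  real : ∃ C₀ ⊆ FF Y h q π₀, IsPreconnected C₀ ∧ C₀.Nontrivial ∧ ∃ z ∈ C₀, Rm Y q z ≠ 0 ∧
    ∀ i j, i ≠ j → Y.s (z i) (z j) ≠ 0

end Pool.Agent.MP_ae5b4e_an_NB4
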