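import Mathlib

/-!
# MP_ae5b4e_an, NB_4: the zero set of `q - 1` equations in `q` variables is a curve
-/

noncomputable section

namespace Pool.Agent.MP_ae5b4e_an_NB4

open Complex Set Filter Topology Metric

/-- Let `f` be a `C²` map near `z` with Jacobian `J`, and suppose that the determinant of `J` with
the row `i` replaced by `e_j` is not zero. The map `Φ w = f w` with the component `i` replaced by
`w j` has an invertible derivative at `z`; its local inverse `g` is differentiable near `Φ z`;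
put `γ τ := g (f z with the component i replaced by z j + τ)`, where `f z = 0` off `i`. -/
theorem implicit_curve {ι : Type*} [Fintype ι] [DecidableEq ι] {f : (ι → ℂ) → ι → ℂ} {z : ι → ℂ}
    (hf : ContDiffAt ℂ 2 f z) (i j : ι) (h0 : ∀ k, k ≠ i → f z k = 0)
    (hdet : ((Matrix.of fun a b => fderiv ℂ (fun w => f w a) z (Pi.single b 1)).updateRow i
      (Pi.single j 1)).det ≠ 0) :
    ∃ (γ : ℂ → ι → ℂ) (r : ℝ), 0 < r ∧ γ 0 = z ∧ DifferentiableOn ℂ γ (ball 0 r) ∧
      (∀ τ ∈ ball (0:ℂ) r, γ τ j = z j + τ) ∧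
      (∀ τ ∈ ball (0:ℂ) r, ∀ k, k ≠ i → f (γ τ) k = 0) ∧
      ∀ᶠ w in 𝓝 z, (∀ k, k ≠ i → f w k = 0) → w j - z j ∈ ball (0:ℂ) r ∧ w = γ (w j - z j) := by
  classical
  have hfk : ∀ k, ContDiffAt ℂ 2 (fun w => f w k) z := fun k => contDiffAt_pi.1 hf k
  set Φ : (ι → ℂ) → ι → ℂ := fun w => Function.update (f w) i (w j) with hΦ
  have hΦi : ∀ w, Φ w i = w j := fun w => by simp [hΦ]
  have hΦk : ∀ w k, k ≠ i → Φ w k = f w k := fun w k hk => by
    simp [hΦ, Function.update_of_ne hk]
  have hΦc : ContDiffAt ℂ 2 Φ z := by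
    rw [contDiffAt_pi]
    intro k
    by_cases hk : k = i
    · subst hk
      have h1 : (fun w => Φ w k) = fun w : ι → ℂ => w j := funext hΦi
      rw [h1]
      exact (contDiff_apply ℂ ℂ j).contDiffAt
    · have h1 : (fun w => Φ w k) = fun w : ι → ℂ => f w k := funext fun w => hΦk w k hk
      rw [h1]
      exact hfk k
  have hd : DifferentiableAt ℂ Φ z := hΦc.differentiableAt (by norm_num)
  have hcomp : ∀ k, fderiv ℂ (fun w => Φ w k) z =
      (ContinuousLinearMap.proj k).comp (fderiv ℂ Φ z) := by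
    intro k
    have h1 : HasFDerivAt (fun w => Φ w k) ((ContinuousLinearMap.proj k).comp (fderiv ℂ Φ z)) z :=
      (hasFDerivAt_pi'.1 hd.hasFDerivAt) k
    exact h1.fderiv
  have hmat : LinearMap.toMatrix' ((fderiv ℂ Φ z : (ι → ℂ) →L[ℂ] ι → ℂ) : (ι → ℂ) →ₗ[ℂ] ι → ℂ) =
      (Matrix.of fun a b => fderiv ℂ (fun w => f w a) z (Pi.single b 1)).updateRow i
      (Pi.single j 1) := by
    ext a b
    rw [LinearMap.toMatrix'_apply]
    have h1 : (fderiv ℂ Φ z : (ι → ℂ) →L[ℂ] ι → ℂ) (Pi.single b 1) a =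
        fderiv ℂ (fun w => Φ w a) z (Pi.single b 1) := by
      rw [hcomp a]
      rfl
    refine h1.trans ?_
    by_cases ha : a = i
    · subst ha
      rw [Matrix.updateRow_self]
      have h2 : (fun w => Φ w a) = fun w : ι → ℂ => w j := funext hΦi
      rw [h2]
      have h3 : HasFDerivAt (fun w : ι → ℂ => w j) (ContinuousLinearMap.proj j) z :=
        hasFDerivAt_apply (𝕜 := ℂ) (F' := fun _ : ι => ℂ) j z
      rw [h3.fderiv]
      simp [Pi.single_apply, eq_comm]
    · rw [Matrix.updateRow_ne ha]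
      have h2 : (fun w => Φ w a) = fun w : ι → ℂ => f w a := funext fun w => hΦk w a ha
      rw [h2]
      rfl
  have hdet' : (fderiv ℂ Φ z).det ≠ 0 := by
    rw [ContinuousLinearMap.det, ← LinearMap.det_toMatrix', hmat]
    exact hdet
  obtain ⟨e, he⟩ : ∃ e : (ι → ℂ) ≃L[ℂ] (ι → ℂ), (e : (ι → ℂ) →L[ℂ] (ι → ℂ)) = fderiv ℂ Φ z :=
    ⟨(fderiv ℂ Φ z).toContinuousLinearEquivOfDetNeZero hdet',
      ContinuousLinearMap.coe_toContinuousLinearEquivOfDetNeZero _ hdet'⟩
  have hF : HasFDerivAt Φ (e : (ι → ℂ) →L[ℂ] (ι → ℂ)) z := by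
    rw [he]
    exact hd.hasFDerivAt
  have h2 : (2 : WithTop ℕ∞) ≠ 0 := by norm_num
  set g := hΦc.localInverse hF h2 with hg
  have hgz : g (Φ z) = z := hΦc.localInverse_apply_image hF h2
  have hgc : ContDiffAt ℂ 2 g (Φ z) := hΦc.to_localInverse hF h2
  have hgd : ∀ᶠ y in 𝓝 (Φ z), DifferentiableAt ℂ g y := by
    filter_upwards [hgc.eventually (by norm_num)] with y hy
    exact hy.differentiableAt (by norm_num)
  have hleft : ∀ᶠ w in 𝓝 z, g (Φ w) = w :=
    (hΦc.hasStrictFDerivAt' hF h2).eventually_left_inverse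
  have hright : ∀ᶠ y in 𝓝 (Φ z), Φ (g y) = y :=
    (hΦc.hasStrictFDerivAt' hF h2).eventually_right_inverse
  set p : ℂ → ι → ℂ := fun τ => Function.update (f z) i (z j + τ) with hp
  have hp0 : p 0 = Φ z := by
    rw [hp, hΦ]
    simp
  have hpd : Differentiable ℂ p := by
    rw [differentiable_pi]
    intro k
    by_cases hk : k = i
    · subst hk
      have h3 : (fun τ => p τ k) = fun τ : ℂ => z j + τ := funext fun τ => by simp [hp]
      rw [h3]
      exact (differentiable_const _).add differentiable_id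
    · have h3 : (fun τ => p τ k) = fun _ : ℂ => f z k := funext fun τ => by
        simp [hp, Function.update_of_ne hk]
      rw [h3]
      exact differentiable_const _
  have hpc : Tendsto p (𝓝 0) (𝓝 (Φ z)) := by
    have := hpd.continuous.tendsto 0
    rwa [hp0] at this
  have hev : ∀ᶠ τ in 𝓝 (0:ℂ), DifferentiableAt ℂ g (p τ) ∧ Φ (g (p τ)) = p τ :=
    hpc.eventually (hgd.and hright)
  obtain ⟨r, hr, hball⟩ := Metric.eventually_nhds_iff_ball.1 hev
  refine ⟨fun τ => g (p τ), r, hr, ?_, ?_, ?_, ?_, ?_⟩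
  · simp only
    rw [hp0, hgz]
  · intro τ hτ
    exact ((hball τ hτ).1.comp τ (hpd τ)).differentiableWithinAt
  · intro τ hτ
    have h3 := congrFun (hball τ hτ).2 i
    rw [hΦi] at h3
    simp only
    rw [h3]
    simp [hp]
  · intro τ hτ k hk
    have h3 := congrFun (hball τ hτ).2 k
    rw [hΦk _ k hk] at h3
    simp only
    rw [h3]
    simp [hp, Function.update_of_ne hk, h0 k hk]
  · have hc : Tendsto (fun w : ι → ℂ => w j - z j) (𝓝 z) (𝓝 0) := by
      have h3 : Continuous fun w : ι → ℂ => w j - z j := (continuous_apply j).sub continuous_const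
      have h4 := h3.tendsto z
      rwa [sub_self] at h4
    filter_upwards [hleft, hc.eventually (ball_mem_nhds (0:ℂ) hr)] with w hw1 hw2 hw3
    refine ⟨hw2, ?_⟩
    have h5 : Φ w = p (w j - z j) := by
      funext k
      by_cases hk : k = i
      · subst hk
        rw [hΦi]
        simp [hp]
      · rw [hΦk w k hk, hw3 k hk]
        simp [hp, Function.update_of_ne hk, h0 k hk]
    rw [← h5, hw1]

end Pool.Agent.MP_ae5b4e_an_NB4
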