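import Pool.Agent.Lib.MP_ae5b4e_an_NB4.Nd
import Pool.Agent.Lib.MP_ae5b4e_an_NB4.LemSa

/-!
# MP_ae5b4e_an, NB_4: Lemma S, the chains near a regular point
-/

noncomputable section

namespace Pool.Agent.MP_ae5b4e_an_NB4

open Complex Set Filter Topology Metric
open Pool.Agent.MP_ae5b4e_an_NBT (St)
open Pool.Agent.MP_ae5b4e_an_NB2 (Sys)

variable {Y : Sys} {h q₁ : ℝ} {q : ℕ} [NeZero q] {z : ZMod q → ℂ} {π₀ : ℂ}

/-- **Lemma S** (0.6). `Rm ≠ 0`: some entry `adjugate j i = det (updateRow i (e_j))` is not zero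
(`Matrix.adjugate_apply`); apply `implicit_curve` to `f w a = nd Y q w a.val`. The points of `FF`
near `z` are on the curve `γ`; since `z` is not isolated in `FF`, the remaining equation and
`prd - π₀`, analytic in `τ`, have zeros accumulating at `0`, so they vanish on the disc
(`AnalyticOnNhd.eqOn_zero_of_preconnected_of_frequently_eq_zero`). Shrink `r` so that the curve
stays in `Sq`. -/
theorem local_curve (H : Bdd Y h q₁ q π₀) (hz : z ∈ FF Y h q π₀) (hR : Rm Y q z ≠ 0)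
    (hacc : z ∈ closure (FF Y h q π₀ \ {z})) :
    ∃ (γ : ℂ → ZMod q → ℂ) (r : ℝ), 0 < r ∧ γ 0 = z ∧ DifferentiableOn ℂ γ (ball 0 r) ∧
      (∀ τ ∈ ball (0:ℂ) r, γ τ ∈ FF Y h q π₀) ∧ ∃ j, ∀ τ ∈ ball (0:ℂ) r, γ τ j = z j + τ := by
  -- an entry of the adjugate which is not zero
  obtain ⟨j, i, hji⟩ : ∃ j i, Rm Y q z j i ≠ 0 := by
    by_contra hcon
    push Not at hcon
    exact hR (Matrix.ext fun a b => hcon a b)
  have hSq : z ∈ Sq h q := hz.1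
  have hopen : IsOpen (Sq h q) := isOpen_Sq
  have hfd : ContDiffAt ℂ 2 (fun (w : ZMod q → ℂ) (a : ZMod q) => nd Y q w (a.val : ℤ)) z := by
    rw [contDiffAt_pi]
    intro a
    exact (nd_contDiff H.on (a.val : ℤ)).contDiffAt (hopen.mem_nhds hSq)
  have hdet : ((Matrix.of fun a b => fderiv ℂ
      (fun w => (fun (w : ZMod q → ℂ) (a : ZMod q) => nd Y q w (a.val : ℤ)) w a) z
      (Pi.single b 1)).updateRow i (Pi.single j 1)).det ≠ 0 := by
    have h1 := hji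
    rw [Rm, Matrix.adjugate_apply] at h1
    exact h1
  obtain ⟨γ, r, hr, hγ0, hγd, hγj, hγf, hev⟩ := implicit_curve hfd i j
    (fun k _ => hz.2.1 _) hdet
  -- shrink the disc
  have hγc : ContinuousAt γ 0 :=
    (hγd.differentiableAt (isOpen_ball.mem_nhds (mem_ball_self hr))).continuousAt
  obtain ⟨r', hr', hsub⟩ : ∃ r' > 0, ∀ τ ∈ ball (0:ℂ) r', γ τ ∈ Sq h q ∧ τ ∈ ball (0:ℂ) r := by
    have h1 : ∀ᶠ τ in 𝓝 (0:ℂ), γ τ ∈ Sq h q :=
      hγc.eventually (hopen.mem_nhds (by rw [hγ0]; exact hSq))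
    have h2 : ∀ᶠ τ in 𝓝 (0:ℂ), τ ∈ ball (0:ℂ) r := isOpen_ball.mem_nhds (mem_ball_self hr)
    obtain ⟨r', hr', h3⟩ := Metric.eventually_nhds_iff_ball.1 (h1.and h2)
    exact ⟨r', hr', h3⟩
  have hγd' : DifferentiableOn ℂ γ (ball 0 r') := hγd.mono fun τ hτ => (hsub τ hτ).2
  have hmaps : MapsTo γ (ball 0 r') (Sq h q) := fun τ hτ => (hsub τ hτ).1
  -- the remaining equation and the product
  have hg1 : DifferentiableOn ℂ (fun τ => nd Y q (γ τ) (i.val : ℤ)) (ball (0:ℂ) r') :=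
    DifferentiableOn.comp (g := fun w : ZMod q → ℂ => nd Y q w (i.val : ℤ))
      (nd_diff H.on (i.val : ℤ)) hγd' hmaps
  have hp1 : DifferentiableOn ℂ (fun τ => prd Y q (γ τ)) (ball (0:ℂ) r') :=
    DifferentiableOn.comp (g := fun w : ZMod q → ℂ => prd Y q w) (prd_diff H.on) hγd' hmaps
  have hg : AnalyticOnNhd ℂ (fun τ => nd Y q (γ τ) (i.val : ℤ)) (ball (0:ℂ) r') :=
    hg1.analyticOnNhd isOpen_ball
  have hp : AnalyticOnNhd ℂ (fun τ => prd Y q (γ τ) - π₀) (ball (0:ℂ) r') :=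
    (hp1.sub_const π₀).analyticOnNhd isOpen_ball
  have hT : Tendsto (fun w : ZMod q → ℂ => w j - z j) (𝓝 z) (𝓝 0) := by
    have h1 : Continuous fun w : ZMod q → ℂ => w j - z j := by fun_prop
    have h2 := h1.tendsto z
    simpa using h2
  have hfr : ∃ᶠ τ in 𝓝 (0:ℂ), (nd Y q (γ τ) (i.val : ℤ) = 0 ∧ prd Y q (γ τ) - π₀ = 0) ∧
      τ ∈ ({0}ᶜ : Set ℂ) := by
    refine hT.frequently ?_
    refine ((mem_closure_iff_frequently.1 hacc).and_eventually hev).mono ?_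
    rintro w ⟨⟨hwF, hwz⟩, hw⟩
    obtain ⟨hwb, hwγ⟩ := hw fun k _ => hwF.2.1 _
    refine ⟨⟨?_, ?_⟩, ?_⟩
    · rw [← hwγ]
      exact hwF.2.1 _
    · rw [← hwγ, hwF.2.2, sub_self]
    · intro h0
      rw [mem_singleton_iff] at h0
      rw [h0, hγ0] at hwγ
      exact hwz hwγ
  have hfr' : ∃ᶠ τ in 𝓝[≠] (0:ℂ), nd Y q (γ τ) (i.val : ℤ) = 0 ∧ prd Y q (γ τ) - π₀ = 0 :=
    frequently_nhdsWithin_iff.2 hfr
  have hpre : IsPreconnected (ball (0:ℂ) r') := (convex_ball (0:ℂ) r').isPreconnected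
  have hg0 := hg.eqOn_zero_of_preconnected_of_frequently_eq_zero hpre (mem_ball_self hr')
    (hfr'.mono fun τ hτ => hτ.1)
  have hp0 := hp.eqOn_zero_of_preconnected_of_frequently_eq_zero hpre (mem_ball_self hr')
    (hfr'.mono fun τ hτ => hτ.2)
  refine ⟨γ, r', hr', hγ0, hγd', ?_, j, fun τ hτ => hγj τ (hsub τ hτ).2⟩
  intro τ hτ
  rw [mem_FF_iff H.per (hsub τ hτ).1]
  refine ⟨fun k => ?_, ?_⟩
  · by_cases hk : k = i
    · rw [hk]
      exact hg0 hτ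
    · exact hγf τ (hsub τ hτ).2 k hk
  · exact sub_eq_zero.1 (hp0 hτ)

end Pool.Agent.MP_ae5b4e_an_NB4
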