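import Mathlib

/-!
# MP_ae5b4e_an, NB_4: the maximum principle (0.7)
-/

noncomputable section

namespace Pool.Agent.MP_ae5b4e_an_NB4

open Complex Set Filter Topology Metric

/-- the clopen part: a compact set `K`, the component `V` of `P` in `K`, a closed set `Z` which
misses `V`: there is a relatively clopen subset of `K` which contains `P` and misses `Z`
(`connectedComponent_eq_iInter_isClopen` in the compact Hausdorff space `K`, and compactness). -/
theorem exists_clopen {E : Type*} [TopologicalSpace E] [T2Space E] {K Z : Set E} {P : E}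
    (hK : IsCompact K) (hP : P ∈ K) (hZ : IsClosed Z) (hd : connectedComponentIn K P ∩ Z = ∅) :
    ∃ K' ⊆ K, IsCompact K' ∧ P ∈ K' ∧ K' ∩ Z = ∅ ∧ ∀ z ∈ K', ∀ᶠ w in 𝓝[K] z, w ∈ K' := by
  have hKc : CompactSpace K := isCompact_iff_compactSpace.1 hK
  set x0 : K := ⟨P, hP⟩ with hx0
  have hcc : connectedComponentIn K P = Subtype.val '' connectedComponent x0 :=
    connectedComponentIn_eq_image hP
  have hne : Nonempty {s : Set K // IsClopen s ∧ x0 ∈ s} := ⟨⟨univ, isClopen_univ, mem_univ _⟩⟩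
  have hdir : Directed (· ⊇ ·) (fun s : {s : Set K // IsClopen s ∧ x0 ∈ s} => s.1) := by
    intro s t
    exact ⟨⟨s.1 ∩ t.1, s.2.1.inter t.2.1, s.2.2, t.2.2⟩, inter_subset_left, inter_subset_right⟩
  obtain ⟨s, hs⟩ := exists_subset_nhds_of_isCompact' hdir
    (fun s => s.2.1.isClosed.isCompact) (fun s => s.2.1.isClosed)
    (U := (Subtype.val ⁻¹' Z)ᶜ) (by
      intro x hx
      refine (hZ.preimage continuous_subtype_val).isOpen_compl.mem_nhds ?_
      intro hxZ
      rw [← connectedComponent_eq_iInter_isClopen] at hx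
      have h1 : (x : E) ∈ connectedComponentIn K P ∩ Z := ⟨hcc ▸ ⟨x, hx, rfl⟩, hxZ⟩
      rw [hd] at h1
      exact h1)
  refine ⟨Subtype.val '' s.1, ?_, s.2.1.isClosed.isCompact.image continuous_subtype_val,
    ⟨x0, s.2.2, rfl⟩, ?_, ?_⟩
  · rintro _ ⟨x, -, rfl⟩
    exact x.2
  · rw [eq_empty_iff_forall_notMem]
    rintro _ ⟨⟨x, hx, rfl⟩, hxZ⟩
    exact hs hx hxZ
  · rintro _ ⟨x, hx, rfl⟩
    rw [← map_nhds_subtype_val]
    exact image_mem_map (s.2.1.isOpen.mem_nhds hx)

end Pool.Agent.MP_ae5b4e_an_NB4
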