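import Pool.Agent.Lib.MP_ae5b4e_an_NB4.PairIfc
import Pool.Agent.Lib.MP_ae5b4e_an_NB4.MPa

/-!
# MP_ae5b4e_an, NB_4: the maximum principle (0.7)
-/

noncomputable section

namespace Pool.Agent.MP_ae5b4e_an_NB4

open Complex Set Filter Topology Metric

/-- **Lemma MP** (0.7). `U` is the set of the interior points. With `b z := exp (Ψ z / ε) * ‖R z‖`
(sup norm), `ε` so small that `b P ≥ exp ((Ψ P - e) / ε) * C₀`, `C₀ ≥ 1` a bound of `‖R‖` on `K`;
`Z := {z ∈ K \ U | exp ((Ψ P - e) / ε) * C₀ ≤ b z}` is compact. If `Z` misses the component, take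
`K'` from `exists_clopen` and a maximum point `z₀` of `b` on `K'`: it is in `U` and `R z₀ ≠ 0`.
On the curve `γ`, with `i` such that `‖R z₀‖ = ‖R z₀ i‖`:
`Ψ (γ τ) / ε + log ‖R (γ τ) i‖ ≤ log (b (γ τ)) ≤ log (b z₀)` with equality at `0`; the left side
has a jet with `d > 0`: contradiction to `RJ.no_max`. A point of `Z` in the component is what is
claimed. -/
theorem max_prin {E : Type*} [NormedAddCommGroup E] [NormedSpace ℂ E] {ι : Type*} [Fintype ι]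
    {C K U : Set E} {Ψ : E → ℝ} {R : E → ι → ℂ} {P : E} (hK : IsCompact K) (hKC : K ⊆ C)
    (hU : ∀ z ∈ K, z ∈ U → ∀ᶠ w in 𝓝[C] z, w ∈ K) (hUo : IsOpen (U : Set E))
    (hΨ : ContinuousOn Ψ K) (hR : ContinuousOn R K) (hP : P ∈ K) (hRP : R P ≠ 0)
    (hcur : ∀ z ∈ K, z ∈ U → R z ≠ 0 → ∃ γ : ℂ → E, γ 0 = z ∧ ContinuousAt γ 0 ∧
      (∀ᶠ τ in 𝓝 0, γ τ ∈ C) ∧ (∀ i, AnalyticAt ℂ (fun τ => R (γ τ) i) 0) ∧
      ∃ (b : ℂ) (d : ℝ), 0 < d ∧ RJ (fun τ => Ψ (γ τ)) (Ψ z) b d)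
    {e : ℝ} (he : 0 < e) :
    ∃ z ∈ connectedComponentIn K P, z ∉ U ∧ R z ≠ 0 ∧ Ψ P - e ≤ Ψ z := by
  classical
  -- the bound of the norm of `R`
  obtain ⟨C₁, hC₁⟩ := hK.exists_bound_of_continuousOn hR
  set C₀ : ℝ := max C₁ 1 with hC₀def
  have hC₀1 : 1 ≤ C₀ := le_max_right _ _
  have hC₀ : ∀ z ∈ K, ‖R z‖ ≤ C₀ := fun z hz => (hC₁ z hz).trans (le_max_left _ _)
  have hC₀pos : 0 < C₀ := lt_of_lt_of_le one_pos hC₀1
  have hRPpos : 0 < ‖R P‖ := norm_pos_iff.mpr hRP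
  have hratio : 1 ≤ C₀ / ‖R P‖ := by
    rw [le_div_iff₀ hRPpos, one_mul]
    exact hC₀ P hP
  have hlog : 0 ≤ Real.log (C₀ / ‖R P‖) := Real.log_nonneg hratio
  set ε : ℝ := e / (1 + Real.log (C₀ / ‖R P‖)) with hεdef
  have hden : 0 < 1 + Real.log (C₀ / ‖R P‖) := by linarith
  have hε : 0 < ε := div_pos he hden
  have heε : e / ε = 1 + Real.log (C₀ / ‖R P‖) := by
    rw [hεdef]
    field_simp
  set b : E → ℝ := fun z => Real.exp (Ψ z / ε) * ‖R z‖ with hb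
  set m : ℝ := Real.exp ((Ψ P - e) / ε) * C₀ with hm
  have hmpos : 0 < m := mul_pos (Real.exp_pos _) hC₀pos
  have hbP : m ≤ b P := by
    have h1 : C₀ / ‖R P‖ ≤ Real.exp (e / ε) := by
      rw [heε]
      calc C₀ / ‖R P‖ = Real.exp (Real.log (C₀ / ‖R P‖)) := by
            rw [Real.exp_log (lt_of_lt_of_le one_pos hratio)]
        _ ≤ Real.exp (1 + Real.log (C₀ / ‖R P‖)) := by
            apply Real.exp_le_exp.mpr
            linarith
    have h2 : C₀ ≤ Real.exp (e / ε) * ‖R P‖ := by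
      rwa [div_le_iff₀ hRPpos] at h1
    have h3 : Real.exp (Ψ P / ε) = Real.exp ((Ψ P - e) / ε) * Real.exp (e / ε) := by
      rw [← Real.exp_add]
      congr 1
      ring
    show Real.exp ((Ψ P - e) / ε) * C₀ ≤ Real.exp (Ψ P / ε) * ‖R P‖
    rw [h3, mul_assoc]
    exact mul_le_mul_of_nonneg_left h2 (Real.exp_pos _).le
  have hbc : ContinuousOn b K := by
    apply ContinuousOn.mul
    · exact Real.continuous_exp.comp_continuousOn (hΨ.div_const ε)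
    · exact hR.norm
  -- the boundary points with a large value
  set Z : Set E := {z | z ∈ K ∧ z ∉ U ∧ m ≤ b z} with hZdef
  have hZc : IsClosed Z := by
    have h1 : IsClosed (K ∩ b ⁻¹' Set.Ici m) :=
      hbc.preimage_isClosed_of_isClosed hK.isClosed isClosed_Ici
    have h2 : Z = (K ∩ b ⁻¹' Set.Ici m) ∩ Uᶜ := by
      ext z
      simp only [hZdef, Set.mem_ofPred_eq, Set.mem_inter_iff, Set.mem_preimage, Set.mem_Ici,
        Set.mem_compl_iff]
      tauto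
    rw [h2]
    exact h1.inter hUo.isClosed_compl
  by_cases hd : connectedComponentIn K P ∩ Z = ∅
  · exfalso
    obtain ⟨K', hK'K, hK'c, hPK', hK'Z, hK'o⟩ := exists_clopen hK hP hZc hd
    obtain ⟨z₀, hz₀, hmax⟩ := hK'c.exists_isMaxOn ⟨P, hPK'⟩ (hbc.mono hK'K)
    have hz₀K : z₀ ∈ K := hK'K hz₀
    have hbz₀ : m ≤ b z₀ := hbP.trans (hmax hPK')
    have hbz₀pos : 0 < b z₀ := lt_of_lt_of_le hmpos hbz₀
    have hRz₀ : R z₀ ≠ 0 := by
      intro h
      have : b z₀ = 0 := by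
        show Real.exp (Ψ z₀ / ε) * ‖R z₀‖ = 0
        rw [h, norm_zero, mul_zero]
      linarith
    have hz₀U : z₀ ∈ U := by
      by_contra hn
      have : z₀ ∈ K' ∩ Z := ⟨hz₀, hz₀K, hn, hbz₀⟩
      rw [hK'Z] at this
      exact this
    obtain ⟨γ, hγ0, hγc, hγC, hγa, β, d, hdpos, hjet⟩ := hcur z₀ hz₀K hz₀U hRz₀
    have ht : Tendsto γ (𝓝 0) (𝓝 z₀) := by
      have := hγc.tendsto
      rwa [hγ0] at this
    have htC : Tendsto γ (𝓝 0) (𝓝[C] z₀) :=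
      tendsto_nhdsWithin_iff.mpr ⟨ht, hγC⟩
    have hγK : ∀ᶠ τ in 𝓝 (0:ℂ), γ τ ∈ K := htC.eventually (hU z₀ hz₀K hz₀U)
    have htK : Tendsto γ (𝓝 0) (𝓝[K] z₀) :=
      tendsto_nhdsWithin_iff.mpr ⟨ht, hγK⟩
    have hγK' : ∀ᶠ τ in 𝓝 (0:ℂ), γ τ ∈ K' := htK.eventually (hK'o z₀ hz₀)
    -- the coordinate which gives the norm
    have hne : (Finset.univ : Finset ι).Nonempty := by
      by_contra hn
      rw [Finset.not_nonempty_iff_eq_empty, Finset.univ_eq_empty_iff] at hn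
      apply hRz₀
      funext i
      exact hn.elim i
    obtain ⟨i, -, hi⟩ := Finset.exists_max_image Finset.univ (fun i => ‖R z₀ i‖) hne
    have hnorm : ‖R z₀‖ = ‖R z₀ i‖ := by
      apply le_antisymm
      · rw [pi_norm_le_iff_of_nonneg (norm_nonneg _)]
        intro j
        exact hi j (Finset.mem_univ j)
      · exact norm_le_pi_norm (R z₀) i
    have hRi : R (γ 0) i ≠ 0 := by
      rw [hγ0]
      intro h
      apply hRz₀
      rw [← norm_eq_zero, hnorm, h, norm_zero]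
    have hne' : ∀ᶠ τ in 𝓝 (0:ℂ), R (γ τ) i ≠ 0 :=
      (hγa i).continuousAt.eventually_ne hRi
    obtain ⟨β', hjet'⟩ := RJ.log_norm (hγa i) hRi
    have hsum := (RJ.mul_const hjet (1 / ε)).add hjet'
    have hdp : 0 < d * (1 / ε) + 0 := by
      rw [add_zero]
      exact mul_pos hdpos (one_div_pos.mpr hε)
    refine RJ.no_max hsum hdp ?_
    filter_upwards [hγK', hne'] with τ hτ hτne
    have hle : b (γ τ) ≤ b z₀ := hmax hτ
    have hpos1 : 0 < ‖R (γ τ) i‖ := norm_pos_iff.mpr hτne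
    have h1 : Real.log ‖R (γ τ) i‖ ≤ Real.log ‖R (γ τ)‖ :=
      Real.log_le_log hpos1 (norm_le_pi_norm _ i)
    have hpos2 : 0 < ‖R (γ τ)‖ := lt_of_lt_of_le hpos1 (norm_le_pi_norm _ i)
    have h2 : Real.log (b (γ τ)) = Ψ (γ τ) / ε + Real.log ‖R (γ τ)‖ := by
      show Real.log (Real.exp (Ψ (γ τ) / ε) * ‖R (γ τ)‖) = _
      rw [Real.log_mul (Real.exp_pos _).ne' hpos2.ne', Real.log_exp]
    have h3 : Real.log (b z₀) = Ψ z₀ / ε + Real.log ‖R z₀‖ := by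
      show Real.log (Real.exp (Ψ z₀ / ε) * ‖R z₀‖) = _
      rw [Real.log_mul (Real.exp_pos _).ne' (norm_pos_iff.mpr hRz₀).ne', Real.log_exp]
    have hbpos : 0 < b (γ τ) := mul_pos (Real.exp_pos _) hpos2
    have h4 : Real.log (b (γ τ)) ≤ Real.log (b z₀) := Real.log_le_log hbpos hle
    show Ψ (γ τ) * (1 / ε) + Real.log ‖R (γ τ) i‖ ≤ Ψ (γ 0) * (1 / ε) + Real.log ‖R (γ 0) i‖
    rw [hγ0, ← hnorm, mul_one_div, mul_one_div]
    linarith
  · obtain ⟨z, hz1, hz2⟩ := Set.nonempty_iff_ne_empty.mpr hd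
    obtain ⟨hzK, hzU, hzm⟩ := hz2
    refine ⟨z, hz1, hzU, ?_, ?_⟩
    · intro h
      have : b z = 0 := by
        show Real.exp (Ψ z / ε) * ‖R z‖ = 0
        rw [h, norm_zero, mul_zero]
      linarith
    · have h1 : Real.exp ((Ψ P - e) / ε) * C₀ ≤ Real.exp (Ψ z / ε) * C₀ :=
        hzm.trans (mul_le_mul_of_nonneg_left (hC₀ z hzK) (Real.exp_pos _).le)
      have h2 := le_of_mul_le_mul_right h1 hC₀pos
      rw [Real.exp_le_exp] at h2
      exact (div_le_div_iff_of_pos_right hε).mp h2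

end Pool.Agent.MP_ae5b4e_an_NB4
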