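import Pool.Agent.Lib.MP_ae5b4e_an_NB4.PhiF

/-!
# MP_ae5b4e_an, NB_4: the function `Φ` (3.1)
-/

noncomputable section

namespace Pool.Agent.MP_ae5b4e_an_NB4

open Complex Set Filter Topology Metric
open Pool.Agent.MP_ae5b4e_an_NBT (St)
open Pool.Agent.MP_ae5b4e_an_NB2 (Sys)

variable {Y : Sys} {h q₁ : ℝ} {q : ℕ} [NeZero q] {z : ZMod q → ℂ} {π₀ : ℂ} {l m : ℂ}

namespace PhiG

/-- the number whose logarithm is `w2` -/
def f2 (Y : Sys) (h : ℝ) (l m : ℂ) : ℝ :=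
  ‖wdg (uu (dsys Y h) (psi h l)) (uu (dsys Y h) (psi h m))‖ ^ 2 /
    ((1 - ‖psi h l‖ ^ 2) * (1 - ‖psi h m‖ ^ 2))

/-- the number whose logarithm is `W2` -/
def N2 (Y : Sys) (h q₁ : ℝ) (l m : ℂ) : ℝ :=
  NN (lamq q₁) (dsys Y h) (dsys Y h) (psi h l) (psi h m)

theorem one_sub_pos {w : ℂ} (hw : w ∈ ball (0:ℂ) 1) : 0 < 1 - ‖w‖ ^ 2 := by
  rw [mem_ball_zero_iff] at hw
  have h0 := norm_nonneg w
  nlinarith

theorem cont_psi (hh : 0 < h) (hl : l ∈ St (-h) h) : ContinuousAt (psi h) l :=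
  (psi_deriv hh hl).continuousAt

theorem cont_f2 (hh : 0 < h) (hY : Y.On (St (-h) h)) (hl : l ∈ St (-h) h) (hm : m ∈ St (-h) h) :
    ContinuousAt (fun p : ℂ × ℂ => f2 Y h p.1 p.2) (l, m) := by
  have hA := dsys_on hh hY
  have hzl := psi_mem hh hl
  have hzm := psi_mem hh hm
  have p1 : ContinuousAt (fun p : ℂ × ℂ => psi h p.1) (l, m) :=
    ContinuousAt.comp (f := fun p : ℂ × ℂ => p.1) (g := psi h) (x := (l, m))
      (cont_psi hh hl) continuousAt_fst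
  have p2 : ContinuousAt (fun p : ℂ × ℂ => psi h p.2) (l, m) :=
    ContinuousAt.comp (f := fun p : ℂ × ℂ => p.2) (g := psi h) (x := (l, m))
      (cont_psi hh hm) continuousAt_snd
  have a1 : ContinuousAt (fun p : ℂ × ℂ => (dsys Y h).y1 (psi h p.1)) (l, m) :=
    ContinuousAt.comp (f := fun p : ℂ × ℂ => psi h p.1) (g := (dsys Y h).y1) (x := (l, m))
      (hA.d1 _ hzl).continuousAt p1
  have a2 : ContinuousAt (fun p : ℂ × ℂ => (dsys Y h).y2 (psi h p.1)) (l, m) :=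
    ContinuousAt.comp (f := fun p : ℂ × ℂ => psi h p.1) (g := (dsys Y h).y2) (x := (l, m))
      (hA.d2 _ hzl).continuousAt p1
  have b1 : ContinuousAt (fun p : ℂ × ℂ => (dsys Y h).y1 (psi h p.2)) (l, m) :=
    ContinuousAt.comp (f := fun p : ℂ × ℂ => psi h p.2) (g := (dsys Y h).y1) (x := (l, m))
      (hA.d1 _ hzm).continuousAt p2
  have b2 : ContinuousAt (fun p : ℂ × ℂ => (dsys Y h).y2 (psi h p.2)) (l, m) :=
    ContinuousAt.comp (f := fun p : ℂ × ℂ => psi h p.2) (g := (dsys Y h).y2) (x := (l, m))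
      (hA.d2 _ hzm).continuousAt p2
  have hden : ((1 - ‖psi h l‖ ^ 2) * (1 - ‖psi h m‖ ^ 2)) ≠ 0 :=
    (mul_pos (one_sub_pos hzl) (one_sub_pos hzm)).ne'
  have hnum : ContinuousAt (fun p : ℂ × ℂ =>
      wdg (uu (dsys Y h) (psi h p.1)) (uu (dsys Y h) (psi h p.2))) (l, m) := by
    show ContinuousAt (fun p : ℂ × ℂ => (dsys Y h).y1 (psi h p.1) * (dsys Y h).y2 (psi h p.2) -
      (dsys Y h).y2 (psi h p.1) * (dsys Y h).y1 (psi h p.2)) (l, m)
    exact (a1.mul b2).sub (a2.mul b1)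
  exact (hnum.norm.pow 2).div ((continuousAt_const.sub (p1.norm.pow 2)).mul
    (continuousAt_const.sub (p2.norm.pow 2))) hden

theorem cont_N2 (hh : 0 < h) (hY : Y.On (St (-h) h)) (hl : l ∈ St (-h) h) (hm : m ∈ St (-h) h) :
    ContinuousAt (fun p : ℂ × ℂ => N2 Y h q₁ p.1 p.2) (l, m) := by
  have hA := dsys_on hh hY
  have hzl := psi_mem hh hl
  have hzm := psi_mem hh hm
  have p1 : ContinuousAt (fun p : ℂ × ℂ => psi h p.1) (l, m) :=
    ContinuousAt.comp (f := fun p : ℂ × ℂ => p.1) (g := psi h) (x := (l, m))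
      (cont_psi hh hl) continuousAt_fst
  have p2 : ContinuousAt (fun p : ℂ × ℂ => psi h p.2) (l, m) :=
    ContinuousAt.comp (f := fun p : ℂ × ℂ => p.2) (g := psi h) (x := (l, m))
      (cont_psi hh hm) continuousAt_snd
  -- the frames are continuous at the points of the ball
  have hu : ∀ z ∈ ball (0:ℂ) 1, ContinuousAt (uu (dsys Y h)) z := fun z hz =>
    (hA.d1 z hz).continuousAt.prodMk (hA.d2 z hz).continuousAt
  have hconj : ∀ z : ℂ, ContinuousAt (fun z : ℂ => (starRingEnd ℂ) z) z := fun z =>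
    Complex.continuous_conj.continuousAt
  have hone : ∀ z : ℂ, ContinuousAt (fun z : ℂ => ((1 - ‖z‖ ^ 2 : ℝ) : ℂ)) z := fun z => by
    apply Continuous.continuousAt
    fun_prop
  have ht : ∀ z ∈ ball (0:ℂ) 1, ContinuousAt (tu (dsys Y h)) z := fun z hz =>
    (((hone z).mul (hA.d1' z hz).continuousAt).add
      ((hconj z).mul (hA.d1 z hz).continuousAt)).prodMk
    (((hone z).mul (hA.d2' z hz).continuousAt).add
      ((hconj z).mul (hA.d2 z hz).continuousAt))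
  have hw : ∀ a b : ℂ × ℂ → ℂ × ℂ, ContinuousAt a (l, m) → ContinuousAt b (l, m) →
      ContinuousAt (fun p => wdg (a p) (b p)) (l, m) := by
    intro a b ha hb
    show ContinuousAt (fun p => (a p).1 * (b p).2 - (a p).2 * (b p).1) (l, m)
    exact (ha.fst.mul hb.snd).sub (ha.snd.mul hb.fst)
  have u1 : ContinuousAt (fun p : ℂ × ℂ => uu (dsys Y h) (psi h p.1)) (l, m) :=
    ContinuousAt.comp (f := fun p : ℂ × ℂ => psi h p.1) (g := uu (dsys Y h)) (x := (l, m))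
      (hu _ hzl) p1
  have u2 : ContinuousAt (fun p : ℂ × ℂ => uu (dsys Y h) (psi h p.2)) (l, m) :=
    ContinuousAt.comp (f := fun p : ℂ × ℂ => psi h p.2) (g := uu (dsys Y h)) (x := (l, m))
      (hu _ hzm) p2
  have t1 : ContinuousAt (fun p : ℂ × ℂ => tu (dsys Y h) (psi h p.1)) (l, m) :=
    ContinuousAt.comp (f := fun p : ℂ × ℂ => psi h p.1) (g := tu (dsys Y h)) (x := (l, m))
      (ht _ hzl) p1
  have t2 : ContinuousAt (fun p : ℂ × ℂ => tu (dsys Y h) (psi h p.2)) (l, m) :=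
    ContinuousAt.comp (f := fun p : ℂ × ℂ => psi h p.2) (g := tu (dsys Y h)) (x := (l, m))
      (ht _ hzm) p2
  have hden : ((1 - ‖psi h l‖ ^ 2) * (1 - ‖psi h m‖ ^ 2)) ≠ 0 :=
    (mul_pos (one_sub_pos hzl) (one_sub_pos hzm)).ne'
  have hnum := ((((hw _ _ u1 u2).norm.pow 2).add
    (continuousAt_const (y := lamq q₁).mul ((hw _ _ t1 u2).norm.pow 2))).add
    (continuousAt_const (y := lamq q₁).mul ((hw _ _ u1 t2).norm.pow 2))).add
    (continuousAt_const (y := lamq q₁ ^ 2).mul ((hw _ _ t1 t2).norm.pow 2))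
  exact hnum.div ((continuousAt_const.sub (p1.norm.pow 2)).mul
    (continuousAt_const.sub (p2.norm.pow 2))) hden

theorem N2_pos (H : Bdd Y h q₁ q π₀) (hl : l ∈ St (-h) h) (hm : m ∈ St (-h) h) :
    0 < N2 Y h q₁ l m := by
  have h1 := nn_lower H.q_pos H.qb H.qb (psi_mem H.h_pos hl) (psi_mem H.h_pos hm)
  have h2 : 0 < lamq q₁ := by
    unfold lamq
    positivity
  unfold N2
  linarith

theorem f2_pos (H : Bdd Y h q₁ q π₀) (hl : l ∈ St (-h) h) (hm : m ∈ St (-h) h)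
    (hs : Y.s l m ≠ 0) : 0 < f2 Y h l m := by
  have h1 := (wdg_ne_iff H.h_pos hl hm (Y := Y)).2 hs
  have h2 := norm_pos_iff.2 h1
  exact div_pos (by positivity) (mul_pos (one_sub_pos (psi_mem H.h_pos hl))
    (one_sub_pos (psi_mem H.h_pos hm)))

theorem s_ne (H : Bdd Y h q₁ q π₀) (hl : l ∈ St (-h) h) (hm : m ∈ St (-h) h)
    (hs : 0 < f2 Y h l m) : Y.s l m ≠ 0 := by
  rw [← wdg_ne_iff H.h_pos hl hm (Y := Y)]
  intro h0
  unfold f2 at hs
  rw [h0, norm_zero] at hs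
  norm_num at hs

theorem cont_W2 (H : Bdd Y h q₁ q π₀) (hl : l ∈ St (-h) h) (hm : m ∈ St (-h) h) :
    ContinuousAt (fun p : ℂ × ℂ => W2 Y h q₁ p.1 p.2) (l, m) :=
  (cont_N2 H.h_pos H.on hl hm).log (N2_pos H hl hm).ne'

theorem cont_w2 (H : Bdd Y h q₁ q π₀) (hl : l ∈ St (-h) h) (hm : m ∈ St (-h) h)
    (hs : Y.s l m ≠ 0) : ContinuousAt (fun p : ℂ × ℂ => w2 Y h p.1 p.2) (l, m) :=
  (cont_f2 H.h_pos H.on hl hm).log (f2_pos H hl hm hs).ne'

theorem cont_gg {f : ℂ × ℂ → ℝ} {x : ℂ × ℂ} (hq : 0 < q₁) (hf : ContinuousAt f x) :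
    ContinuousAt (fun p => gg q₁ (f p)) x :=
  ContinuousAt.comp (f := f) (g := gg q₁) (x := x) (gg_cont hq).continuousAt hf

theorem cont_U2 (H : Bdd Y h q₁ q π₀) (hl : l ∈ St (-h) h) (hm : m ∈ St (-h) h)
    (hs : Y.s l m ≠ 0) : ContinuousAt (fun p : ℂ × ℂ => U2 Y h q₁ p.1 p.2) (l, m) := by
  have hg := cont_gg H.q_pos (cont_W2 H hl hm)
  have h1 : ContinuousAt (fun p : ℂ × ℂ => XX q₁ (w2 Y h p.1 p.2) (W2 Y h q₁ p.1 p.2)) (l, m) :=
    (((hg.add continuousAt_const).add continuousAt_const).add continuousAt_const).sub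
      (cont_w2 H hl hm hs)
  exact ((continuousAt_const.mul hg).neg.rexp.mul (continuousAt_const.add h1.sqrt)).neg

theorem cont_pair {F : ℂ × ℂ → ℝ} (i j : ZMod q) (hF : ContinuousAt F (z i, z j)) :
    ContinuousAt (fun z' : ZMod q → ℂ => F (z' i, z' j)) z :=
  ContinuousAt.comp (f := fun z' : ZMod q → ℂ => (z' i, z' j)) (g := F) (x := z) hF
    ((continuous_apply i).prodMk (continuous_apply j)).continuousAt

theorem cont_Phi (H : Bdd Y h q₁ q π₀) (hz : z ∈ Om Y h q) : ContinuousAt (Phi Y h q₁ q) z := by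
  have h1 : ContinuousAt (fun z' : ZMod q → ℂ =>
      ∑ i, ∑ j, if i = j then 0 else U2 Y h q₁ (z' i) (z' j)) z := by
    refine tendsto_finsetSum _ fun i _ => tendsto_finsetSum _ fun j _ => ?_
    by_cases hij : i = j
    · simp only [hij, if_true]
      exact tendsto_const_nhds
    · simp only [hij, if_false]
      exact cont_pair (F := fun p => U2 Y h q₁ p.1 p.2) i j
        (cont_U2 H (hz.1 i) (hz.1 j) (hz.2 i j hij))
  have h2 : ContinuousAt (fun z' : ZMod q → ℂ => ∑ j, (z' j).im ^ 2) z := by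
    apply Continuous.continuousAt
    fun_prop
  exact h1.add h2

theorem bb_nonneg (hq : 0 < q₁) : 0 ≤ bb q₁ := by
  have h5 := C5_pos hq
  have h6 := C6_pos hq
  unfold bb th
  positivity

/-- the lower bound for `f2` -/
theorem f2_ge (H : Bdd Y h q₁ q π₀) (hl : l ∈ St (-h) h) (hm : m ∈ St (-h) h)
    (hs : Y.s l m ≠ 0) {c : ℝ} (hc : c ≤ U2 Y h q₁ l m) :
    Real.exp (gg q₁ (W2 Y h q₁ l m) + M0 q₁ + Lc q₁ + 1 -
      (-c * Real.exp (th q₁ * gg q₁ (W2 Y h q₁ l m))) ^ 2) ≤ f2 Y h l m := by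
  have hf := f2_pos H hl hm hs
  have hw : w2 Y h l m = Real.log (f2 Y h l m) := rfl
  rw [← Real.le_log_iff_exp_le hf, ← hw]
  unfold U2 UU at hc
  set E := Real.exp (-(th q₁ * gg q₁ (W2 Y h q₁ l m))) with hE
  have hE0 : 0 < E := Real.exp_pos _
  have hEE : E * Real.exp (th q₁ * gg q₁ (W2 Y h q₁ l m)) = 1 := by
    rw [hE, ← Real.exp_add, neg_add_cancel, Real.exp_zero]
  have hb : 0 ≤ E * bb q₁ := mul_nonneg hE0.le (bb_nonneg H.q_pos)
  have h1 : E * Real.sqrt (XX q₁ (w2 Y h l m) (W2 Y h q₁ l m)) ≤ -c := by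
    rw [mul_add] at hc
    linarith
  have h2 : Real.sqrt (XX q₁ (w2 Y h l m) (W2 Y h q₁ l m)) ≤
      -c * Real.exp (th q₁ * gg q₁ (W2 Y h q₁ l m)) := by
    have h3 := mul_le_mul_of_nonneg_right h1
      (Real.exp_pos (th q₁ * gg q₁ (W2 Y h q₁ l m))).le
    calc Real.sqrt (XX q₁ (w2 Y h l m) (W2 Y h q₁ l m)) =
        (E * Real.exp (th q₁ * gg q₁ (W2 Y h q₁ l m))) *
          Real.sqrt (XX q₁ (w2 Y h l m) (W2 Y h q₁ l m)) := by rw [hEE, one_mul]
      _ = E * Real.sqrt (XX q₁ (w2 Y h l m) (W2 Y h q₁ l m)) *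
          Real.exp (th q₁ * gg q₁ (W2 Y h q₁ l m)) := by ring
      _ ≤ _ := h3
  have h4 := (Real.sqrt_le_iff.1 h2).2
  have h5 : XX q₁ (w2 Y h l m) (W2 Y h q₁ l m) =
      gg q₁ (W2 Y h q₁ l m) + M0 q₁ + Lc q₁ + 1 - w2 Y h l m := rfl
  rw [h5] at h4
  linarith

end PhiG

theorem Phi_cont (H : Bdd Y h q₁ q π₀) : ContinuousOn (Phi Y h q₁ q) (Om Y h q) := by
  intro z hz
  exact (PhiG.cont_Phi H hz).continuousWithinAt

/-- If `z ∈ Sq` is a limit of points of `Om` with `Φ ≥ c`, then `z ∈ Om`: if `s (z i) (z j) = 0`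
for some pair then `w2 → -∞` along the points, `W2` converges (`NN` is continuous and
`≥ 2 lamq > 0`), so `U2 → -∞`, against `U2_ge`. -/
theorem Phi_closed (H : Bdd Y h q₁ q π₀) {c : ℝ}
    (hz : z ∈ closure {z | z ∈ Om Y h q ∧ c ≤ Phi Y h q₁ q z}) (hz' : z ∈ Sq h q) :
    z ∈ Om Y h q ∧ c ≤ Phi Y h q₁ q z := by
  have hOm : z ∈ Om Y h q := by
    refine ⟨hz', fun i j hij => PhiG.s_ne H (hz' i) (hz' j) ?_⟩
    have hcW : ContinuousAt (fun z' : ZMod q → ℂ => gg q₁ (W2 Y h q₁ (z' i) (z' j))) z :=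
      PhiG.cont_pair (F := fun p => gg q₁ (W2 Y h q₁ p.1 p.2)) i j
        (PhiG.cont_gg H.q_pos (PhiG.cont_W2 H (hz' i) (hz' j)))
    have hcf : ContinuousAt (fun z' : ZMod q → ℂ => PhiG.f2 Y h (z' i) (z' j)) z :=
      PhiG.cont_pair (F := fun p => PhiG.f2 Y h p.1 p.2) i j
        (PhiG.cont_f2 H.h_pos H.on (hz' i) (hz' j))
    have hcL : ContinuousAt (fun z' : ZMod q → ℂ =>
        Real.exp (gg q₁ (W2 Y h q₁ (z' i) (z' j)) + M0 q₁ + Lc q₁ + 1 -
          (-(c - q * h ^ 2) * Real.exp (th q₁ * gg q₁ (W2 Y h q₁ (z' i) (z' j)))) ^ 2)) z :=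
      ((((hcW.add continuousAt_const).add continuousAt_const).add continuousAt_const).sub
        ((continuousAt_const.mul (continuousAt_const.mul hcW).rexp).pow 2)).rexp
    have hle := ContinuousWithinAt.closure_le hz hcL.continuousWithinAt hcf.continuousWithinAt
      (fun y hy => PhiG.f2_ge H (hy.1.1 i) (hy.1.1 j) (hy.1.2 i j hij) (by
        have h1 := U2_ge H hy.1 hij
        have h2 := hy.2
        linarith))
    exact lt_of_lt_of_le (Real.exp_pos _) hle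
  refine ⟨hOm, ?_⟩
  exact ContinuousWithinAt.closure_le (f := fun _ => c) hz continuousWithinAt_const
    (PhiG.cont_Phi H hOm).continuousWithinAt (fun y hy => hy.2)

end Pool.Agent.MP_ae5b4e_an_NB4
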