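import Pool.Agent.Lib.MP_ae5b4e_an_NB4.PhiF

/-!
# MP_ae5b4e_an, NB_4: the function `Φ` (3.1)
-/

noncomputable section

namespace Pool.Agent.MP_ae5b4e_an_NB4

open Complex Set Filter Topology Metric
open Pool.Agent.MP_ae5b4e_an_NBT (St)
open Pool.Agent.MP_ae5b4e_an_NB2 (Sys)

variable {Y : Sys} {h q₁ : ℝ} {q : ℕ} [NeZero q] {z : ZMod q → ℂ} {π₀ : ℂ} {l m : ℂ}

private theorem PhiJ_isOpen_St (a b : ℝ) : IsOpen (St a b) := by
  have h1 : IsOpen {t : ℂ | a < t.im} := isOpen_lt continuous_const Complex.continuous_im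
  have h2 : IsOpen {t : ℂ | t.im < b} := isOpen_lt Complex.continuous_im continuous_const
  exact h1.inter h2

private theorem PhiJ_psi_an (hh : 0 < h) (hl : l ∈ St (-h) h) : AnalyticAt ℂ (psi h) l := by
  have h1 : DifferentiableOn ℂ (psi h) (St (-h) h) := fun x hx =>
    (psi_deriv hh hx).differentiableAt.differentiableWithinAt
  exact h1.analyticAt ((PhiJ_isOpen_St (-h) h).mem_nhds hl)

private theorem PhiJ_sum {ι : Type*} (s : Finset ι) {f : ι → ℂ → ℝ} {a : ι → ℝ} {b : ι → ℂ}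
    {d : ι → ℝ} (hf : ∀ i ∈ s, RJ (f i) (a i) (b i) (d i)) :
    RJ (fun τ => ∑ i ∈ s, f i τ) (∑ i ∈ s, a i) (∑ i ∈ s, b i) (∑ i ∈ s, d i) := by
  classical
  induction s using Finset.induction_on with
  | empty =>
    simp only [Finset.sum_empty]
    exact RJ.const 0
  | insert i s hi ih =>
    simp only [Finset.sum_insert hi]
    exact (hf i (Finset.mem_insert_self i s)).add
      (ih fun j hj => hf j (Finset.mem_insert_of_mem hj))

private theorem PhiJ_speed (hh : 0 < h) {c : ℂ → ℂ} (hc : AnalyticAt ℂ c 0)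
    (hl : c 0 ∈ St (-h) h) :
    ‖deriv (fun τ => psi h (c τ)) 0‖ ^ 2 / (1 - ‖psi h (c 0)‖ ^ 2) ^ 2 =
      ‖deriv c 0‖ ^ 2 / DS h (c 0) ^ 2 := by
  have h1 : HasDerivAt (fun τ => psi h (c τ)) (deriv (psi h) (c 0) * deriv c 0) 0 :=
    (PhiJ_psi_an hh hl).differentiableAt.hasDerivAt.comp (0 : ℂ) hc.differentiableAt.hasDerivAt
  have h2 := DS_conf hh hl
  have h3 : 0 < 1 - ‖psi h (c 0)‖ ^ 2 := by
    have h4 := psi_mem hh hl
    rw [mem_ball, dist_zero_right] at h4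
    have h5 : ‖psi h (c 0)‖ ^ 2 < 1 := by
      rw [sq_lt_one_iff₀ (norm_nonneg _)]
      exact h4
    linarith
  have h4 : ‖deriv (psi h) (c 0)‖ ≠ 0 := by
    intro h0
    rw [h0, zero_mul] at h2
    linarith
  have h5 : DS h (c 0) ≠ 0 := (DS_pos hh hl).ne'
  rw [h1.deriv, h2, norm_mul]
  field_simp

/-- (3.1): the jet of `Φ` along a curve. The hyperbolic speed of `psi ∘ γ j` is
`|γ_j'| / DS (γ_j)` by `DS_conf`; `pair_jet` for every pair, `RJ.im_sq`, `RJ.add`. -/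
theorem Phi_jet (H : Bdd Y h q₁ q π₀) {γ : ℂ → ZMod q → ℂ} {r : ℝ} (hr : 0 < r)
    (hγ : DifferentiableOn ℂ γ (ball 0 r)) (hz : γ 0 ∈ Om Y h q) : ∃ (b : ℂ) (d : ℝ),
    RJ (fun τ => Phi Y h q₁ q (γ τ)) (Phi Y h q₁ q (γ 0)) b d ∧
    (∑ i, ∑ j, if i = j then 0 else wt Y h q₁ (γ 0 i) (γ 0 j) *
      (‖deriv (fun τ => γ τ i) 0‖ ^ 2 / DS h (γ 0 i) ^ 2 +
        ‖deriv (fun τ => γ τ j) 0‖ ^ 2 / DS h (γ 0 j) ^ 2)) +
      ∑ j, ‖deriv (fun τ => γ τ j) 0‖ ^ 2 / 2 ≤ d := by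
  have hh := H.h_pos
  have hc : ∀ j, AnalyticAt ℂ (fun τ => γ τ j) 0 := fun j =>
    (differentiableOn_pi.1 hγ j).analyticAt (ball_mem_nhds 0 hr)
  have hS : ∀ j, γ 0 j ∈ St (-h) h := hz.1
  have ha : ∀ j, AnalyticAt ℂ (fun τ => psi h (γ τ j)) 0 := fun j =>
    AnalyticAt.comp (g := psi h) (f := fun τ => γ τ j) (PhiJ_psi_an hh (hS j)) (hc j)
  have hpair : ∀ i j, ∃ (b : ℂ) (d : ℝ),
      RJ (fun τ => if i = j then 0 else U2 Y h q₁ (γ τ i) (γ τ j))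
        (if i = j then 0 else U2 Y h q₁ (γ 0 i) (γ 0 j)) b d ∧
      (if i = j then 0 else wt Y h q₁ (γ 0 i) (γ 0 j) *
        (‖deriv (fun τ => γ τ i) 0‖ ^ 2 / DS h (γ 0 i) ^ 2 +
          ‖deriv (fun τ => γ τ j) 0‖ ^ 2 / DS h (γ 0 j) ^ 2)) ≤ d := by
    intro i j
    by_cases hij : i = j
    · simp only [if_pos hij]
      exact ⟨0, 0, RJ.const 0, le_rfl⟩
    · simp only [if_neg hij]
      obtain ⟨β, d, h1, h2⟩ := pair_jet H.q_pos H.qb H.qb (ha i) (ha j) (psi_mem hh (hS i))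
        (psi_mem hh (hS j)) ((wdg_ne_iff hh (hS i) (hS j)).2 (hz.2 i j hij))
      refine ⟨β, d, h1, ?_⟩
      rw [PhiJ_speed hh (hc i) (hS i), PhiJ_speed hh (hc j) (hS j)] at h2
      exact h2
  choose b d hb hd using hpair
  choose b' hb' using fun j => RJ.im_sq (hc j)
  have h1 : RJ (fun τ => ∑ i, ∑ j, if i = j then 0 else U2 Y h q₁ (γ τ i) (γ τ j))
      (∑ i, ∑ j, if i = j then 0 else U2 Y h q₁ (γ 0 i) (γ 0 j)) (∑ i, ∑ j, b i j)
      (∑ i, ∑ j, d i j) :=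
    PhiJ_sum Finset.univ fun i _ => PhiJ_sum Finset.univ fun j _ => hb i j
  have h2 : RJ (fun τ => ∑ j, (γ τ j).im ^ 2) (∑ j, (γ 0 j).im ^ 2) (∑ j, b' j)
      (∑ j, ‖deriv (fun τ => γ τ j) 0‖ ^ 2 / 2) :=
    PhiJ_sum Finset.univ fun j _ => hb' j
  refine ⟨_, _, h1.add h2, ?_⟩
  exact add_le_add (Finset.sum_le_sum fun i _ => Finset.sum_le_sum fun j _ => hd i j) le_rfl

end Pool.Agent.MP_ae5b4e_an_NB4
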