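import Pool.Agent.Lib.MP_ae5b4e_an_NB4.Wt
import Pool.Agent.Lib.MP_ae5b4e_an_NB4.PhiG
import Pool.Agent.Lib.MP_ae5b4e_an_NB4.PhiJ
import Pool.Agent.Lib.MP_ae5b4e_an_NB4.LemS
import Pool.Agent.Lib.MP_ae5b4e_an_NB4.MP

/-!
# MP_ae5b4e_an, NB_4: the extremal argument (3.4), (3.5)
-/

noncomputable section

namespace Pool.Agent.MP_ae5b4e_an_NB4

open Complex Set Filter Topology Metric
open Pool.Agent.MP_ae5b4e_an_NBT (St)
open Pool.Agent.MP_ae5b4e_an_NB2 (Sys)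

variable {Y : Sys} {h q₁ : ℝ} {q : ℕ} [NeZero q] {π₀ : ℂ}

/-- the polydisc about `P` -/
def PD (h : ℝ) {q : ℕ} (P : ZMod q → ℂ) : Set (ZMod q → ℂ) :=
  {z | ∀ j, ‖z j - P j‖ ≤ DS h (P j) / 8}

/-- the compact set of (3.4) -/
def KK (Y : Sys) (h q₁ : ℝ) {q : ℕ} [NeZero q] (CC : Set (ZMod q → ℂ)) (σ : ℝ)
    (P : ZMod q → ℂ) : Set (ZMod q → ℂ) :=
  CC ∩ PD h P ∩ {z | z ∈ Om Y h q ∧ σ - 1 ≤ Phi Y h q₁ q z}

/-- `PD h P` is a product of closed discs contained in the strip (`ball_sub`), hence compact in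
`Sq`; `CC` and `{Φ ≥ σ - 1}` are closed in `Sq` (`Phi_closed`). -/
theorem KK_compact (H : Bdd Y h q₁ q π₀) {CC : Set (ZMod q → ℂ)}
    (hcl : ∀ z ∈ closure CC, z ∈ Sq h q → z ∈ CC) (σ : ℝ) {P : ZMod q → ℂ} (hP : P ∈ Sq h q) :
    IsCompact (KK Y h q₁ CC σ P) := by
  have hPD : PD h P = Set.pi univ fun j => closedBall (P j) (DS h (P j) / 8) := by
    ext z
    simp only [PD, mem_setOf_eq, Set.mem_pi, mem_univ, forall_true_left, mem_closedBall,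
      dist_eq_norm]
  have hcomp : IsCompact (PD h P) := by
    rw [hPD]
    exact isCompact_univ_pi fun j => isCompact_closedBall _ _
  have hsub : PD h P ⊆ Sq h q := by
    intro z hz j
    have h1 := DS_pos H.h_pos (hP j)
    refine ball_sub H.h_pos (hP j) ?_
    rw [mem_ball, dist_eq_norm]
    have h2 := hz j
    linarith
  refine hcomp.of_isClosed_subset ?_ fun z hz => hz.1.2
  refine isClosed_of_closure_subset fun z hz => ?_
  have h1 : z ∈ PD h P := by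
    have h2 := closure_mono (s := KK Y h q₁ CC σ P) (t := PD h P) (fun z hz => hz.1.2) hz
    rwa [hcomp.isClosed.closure_eq] at h2
  refine ⟨⟨hcl z (closure_mono (fun z hz => hz.1.1) hz) (hsub h1), h1⟩, ?_⟩
  exact Phi_closed H (closure_mono (fun z hz => hz.2) hz) (hsub h1)

/-- the set `J` of (3.4), at the level `η` -/
def JJ (Y : Sys) (h q₁ : ℝ) {q : ℕ} [NeZero q] (P : ZMod q → ℂ) (η : ℝ) : Set (ZMod q) :=
  {n | (∃ j, j ≠ n ∧ η < Real.exp (-(2 * th q₁ * gg q₁ (W2 Y h q₁ (P n) (P j))))) ∨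
    η < DS h (P n) ^ 2}

open Classical in
/-- the penalised function -/
def PsiP (Y : Sys) (h q₁ : ℝ) {q : ℕ} [NeZero q] (P : ZMod q → ℂ) (η c : ℝ)
    (z : ZMod q → ℂ) : ℝ :=
  Phi Y h q₁ q z - c / 4 * η * ∑ n, if n ∈ JJ Y h q₁ P η then ‖(z n - P n) / DS h (P n)‖ ^ 2 else 0

end Pool.Agent.MP_ae5b4e_an_NB4
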