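import Pool.Agent.Lib.MP_ae5b4e_an_NB4.ExtJ

/-!
# MP_ae5b4e_an, NB_4: the extremal sequence, result (R)
-/

noncomputable section

namespace Pool.Agent.MP_ae5b4e_an_NB4

open Complex Set Filter Topology Metric
open Pool.Agent.MP_ae5b4e_an_NBT (St)
open Pool.Agent.MP_ae5b4e_an_NB2 (Sys)

variable {Y : Sys} {h q₁ : ℝ} {q : ℕ} [NeZero q] {π₀ : ℂ}

theorem ExtB_pen_nonneg {P z : ZMod q → ℂ} {η c : ℝ} (hη : 0 < η) (hc : 0 < c) :
    PsiP Y h q₁ P η c z ≤ Phi Y h q₁ q z := by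
  unfold PsiP
  have h1 : 0 ≤ ∑ n, (open Classical in
      if n ∈ JJ Y h q₁ P η then ‖(z n - P n) / DS h (P n)‖ ^ 2 else 0) := by
    refine Finset.sum_nonneg fun n _ => ?_
    split_ifs
    · positivity
    · exact le_rfl
  have h2 : 0 ≤ c / 4 * η := by positivity
  have := mul_nonneg h2 h1
  linarith

theorem ExtB_self (P : ZMod q → ℂ) (η c : ℝ) :
    PsiP Y h q₁ P η c P = Phi Y h q₁ q P := by
  unfold PsiP
  have h1 : ∑ n, (open Classical in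
      if n ∈ JJ Y h q₁ P η then ‖(P n - P n) / DS h (P n)‖ ^ 2 else 0) = 0 := by
    refine Finset.sum_eq_zero fun n _ => ?_
    split_ifs
    · simp
    · rfl
  rw [h1]
  ring

theorem ExtB_pen_ge {P z : ZMod q → ℂ} {η c : ℝ} (hη : 0 < η) (hc : 0 < c) {n : ZMod q}
    (hD : 0 < DS h (P n)) (hn : n ∈ JJ Y h q₁ P η) (hz : ‖z n - P n‖ = DS h (P n) / 8) :
    PsiP Y h q₁ P η c z ≤ Phi Y h q₁ q z - c * η / 256 := by
  unfold PsiP
  have h1 : (1 : ℝ) / 64 ≤ ∑ n, (open Classical in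
      if n ∈ JJ Y h q₁ P η then ‖(z n - P n) / DS h (P n)‖ ^ 2 else 0) := by
    have h2 := Finset.single_le_sum (s := Finset.univ) (f := fun n => (open Classical in
      if n ∈ JJ Y h q₁ P η then ‖(z n - P n) / DS h (P n)‖ ^ 2 else 0)) (fun m _ => by
        split_ifs
        · positivity
        · exact le_rfl) (Finset.mem_univ n)
    refine le_trans (le_of_eq ?_) h2
    rw [if_pos hn, norm_div, hz, Complex.norm_of_nonneg hD.le]
    field_simp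
    norm_num
  have h3 := mul_le_mul_of_nonneg_left h1 (show (0 : ℝ) ≤ c / 4 * η by positivity)
  linarith

theorem ExtB_cont (H : Bdd Y h q₁ q π₀) (P : ZMod q → ℂ) (η c : ℝ) :
    ContinuousOn (PsiP Y h q₁ P η c) (Om Y h q) := by
  unfold PsiP
  refine (Phi_cont H).sub (Continuous.continuousOn ?_)
  refine continuous_const.mul (continuous_finsetSum _ fun n _ => ?_)
  split_ifs
  · exact ((((continuous_apply n).sub continuous_const).div_const _).norm).pow 2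
  · exact continuous_const

theorem ExtB_open (H : Bdd Y h q₁ q π₀) (σ : ℝ) (P : ZMod q → ℂ) :
    IsOpen {z : ZMod q → ℂ | (∀ j, ‖z j - P j‖ < DS h (P j) / 8) ∧ z ∈ Om Y h q ∧
      σ - 1 < Phi Y h q₁ q z} := by
  have h1 : IsOpen {z : ZMod q → ℂ | ∀ j, ‖z j - P j‖ < DS h (P j) / 8} := by
    rw [Set.ofPred_forall]
    exact isOpen_iInter_of_finite fun j =>
      isOpen_lt ((continuous_apply j).sub continuous_const).norm continuous_const
  have h2 : IsOpen (Om Y h q ∩ Phi Y h q₁ q ⁻¹' Set.Ioi (σ - 1)) :=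
    (Phi_cont H).isOpen_inter_preimage (isOpen_Om H.on) isOpen_Ioi
  exact h1.inter h2

/-- (3.4), (3.5). `CC` from `exists_comp`, `σ := sSup (Φ '' {z ∈ CC | Rm z ≠ 0, z ∈ Om})`, `c₂` from
`PsiP_jet`, `c := min (1/2) (c₂ / 512)`. For `η < c` choose `P ∈ CC`, regular, in `Om`, with
`Φ P > σ - η²`. Apply `max_prin` with `C := CC`, `K := KK`, `U` the same set with strict
inequalities, `Ψ := PsiP`, `R z := fun p => Rm z p.1 p.2`, `e := η²` (the curves: `local_curve`,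
they stay in `CC` by the maximality in `exists_comp`; `Rm_curve`). The point `z''` satisfies
`Φ z'' ≥ Ψ z'' ≥ σ - 2 η² > σ - 1`, so `‖z'' n - P n‖ = DS (P n) / 8` for some `n`; and
`Φ z'' ≤ σ`, so if `n ∈ J`: `c₂ η / 256 ≤ Φ - Ψ ≤ 2 η²`, impossible. So `n ∉ J`.
`V := connectedComponentIn K P`. -/
theorem ext_step (H : Bdd Y h q₁ q π₀) : ∃ c > 0, ∀ η : ℝ, 0 < η → η < c →
    ∃ (i : ZMod q) (P : ZMod q → ℂ) (V : Set (ZMod q → ℂ)), V ⊆ FF Y h q π₀ ∧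
      IsPreconnected V ∧ P ∈ V ∧ (∀ z ∈ V, ∀ j, ‖z j - P j‖ ≤ DS h (P j) / 8) ∧
      (∃ z ∈ V, ‖z i - P i‖ = DS h (P i) / 8) ∧ i ∉ JJ Y h q₁ P η := by
  obtain ⟨CC, hCF, hCpre, hCcl, hCacc, hCmax, z₀, hz₀C, hz₀R, hz₀O⟩ := exists_comp H
  set A : Set (ZMod q → ℂ) := {z | z ∈ CC ∧ Rm Y q z ≠ 0 ∧ z ∈ Om Y h q} with hA
  set σ : ℝ := sSup (Phi Y h q₁ q '' A) with hσdef
  have hne : (Phi Y h q₁ q '' A).Nonempty := ⟨_, z₀, ⟨hz₀C, hz₀R, hz₀O⟩, rfl⟩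
  have hub : ∀ x ∈ Phi Y h q₁ q '' A, x ≤ q * h ^ 2 := by
    rintro _ ⟨z, hz, rfl⟩
    exact Phi_le H hz.2.2
  have hbdd : BddAbove (Phi Y h q₁ q '' A) := ⟨_, hub⟩
  have hσ : σ ≤ q * h ^ 2 := csSup_le hne hub
  obtain ⟨c₂, hc₂, -, hjet⟩ := PsiP_jet H hσ
  refine ⟨min (1 / 2) (c₂ / 512), lt_min (by norm_num) (by positivity), fun η hη hηc => ?_⟩
  have hη1 : η < 1 / 2 := hηc.trans_le (min_le_left _ _)
  have hη2 : η < c₂ / 512 := hηc.trans_le (min_le_right _ _)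
  have hηsq : 0 < η ^ 2 := by positivity
  have hηsq1 : 2 * η ^ 2 < 1 := by nlinarith
  obtain ⟨x, ⟨P, ⟨hPC, hPR, hPO⟩, rfl⟩, hPσ⟩ :=
    exists_lt_of_lt_csSup hne (show σ - η ^ 2 < σ by linarith)
  have hPS : P ∈ Sq h q := hPO.1
  have hD : ∀ n, 0 < DS h (P n) := fun n => DS_pos H.h_pos (hPS n)
  set K := KK Y h q₁ CC σ P with hKdef
  set U : Set (ZMod q → ℂ) := {z : ZMod q → ℂ | (∀ j, ‖z j - P j‖ < DS h (P j) / 8) ∧
    z ∈ Om Y h q ∧ σ - 1 < Phi Y h q₁ q z} with hUdef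
  have hUo : IsOpen U := ExtB_open H σ P
  have hKC : K ⊆ CC := fun z hz => hz.1.1
  have hKO : K ⊆ Om Y h q := fun z hz => hz.2.1
  have hPK : P ∈ K := by
    refine ⟨⟨hPC, fun j => ?_⟩, hPO, by linarith⟩
    rw [sub_self, norm_zero]
    have := hD j
    positivity
  have hRm0 : ∀ z : ZMod q → ℂ, (fun p : ZMod q × ZMod q => Rm Y q z p.1 p.2) ≠ 0 ↔
      Rm Y q z ≠ 0 := by
    intro z
    rw [not_iff_not]
    constructor
    · intro h0
      ext i j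
      exact congrFun h0 (i, j)
    · intro h0
      rw [h0]
      rfl
  have hU : ∀ z ∈ K, z ∈ U → ∀ᶠ w in 𝓝[CC] z, w ∈ K := by
    intro z hzK hzU
    have h1 : ∀ᶠ w in 𝓝[CC] z, w ∈ U := nhdsWithin_le_nhds (hUo.mem_nhds hzU)
    filter_upwards [h1, self_mem_nhdsWithin] with w hw hwC
    exact ⟨⟨hwC, fun j => (hw.1 j).le⟩, hw.2.1, hw.2.2.le⟩
  have hR : ContinuousOn (fun z (p : ZMod q × ZMod q) => Rm Y q z p.1 p.2) K := by
    refine continuousOn_pi.2 fun p => ?_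
    have h1 : Continuous fun M : Matrix (ZMod q) (ZMod q) ℂ => M p.1 p.2 :=
      continuous_id.matrix_elem p.1 p.2
    exact h1.comp_continuousOn ((Rm_cont H.on).mono fun z hz => (hKO hz).1)
  have hcur : ∀ z ∈ K, z ∈ U → (fun p : ZMod q × ZMod q => Rm Y q z p.1 p.2) ≠ 0 →
      ∃ γ : ℂ → ZMod q → ℂ, γ 0 = z ∧ ContinuousAt γ 0 ∧
      (∀ᶠ τ in 𝓝 0, γ τ ∈ CC) ∧
      (∀ p : ZMod q × ZMod q, AnalyticAt ℂ (fun τ => Rm Y q (γ τ) p.1 p.2) 0) ∧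
      ∃ (b : ℂ) (d : ℝ), 0 < d ∧
        RJ (fun τ => PsiP Y h q₁ P η c₂ (γ τ)) (PsiP Y h q₁ P η c₂ z) b d := by
    intro z hzK hzU hzR
    rw [hRm0] at hzR
    have hzC := hKC hzK
    obtain ⟨γ, r, hr, hγ0, hγd, hγF, j, hj⟩ := local_curve H (hCF hzC) hzR (hCacc z hzC)
    have h0 : (0 : ℂ) ∈ ball (0 : ℂ) r := mem_ball_self hr
    refine ⟨γ, hγ0, (hγd.differentiableAt (ball_mem_nhds 0 hr)).continuousAt, ?_, ?_, ?_⟩
    · filter_upwards [ball_mem_nhds (0 : ℂ) hr] with τ hτ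
      have hS := hCmax z hzC (γ '' ball 0 r) (by
        rintro _ ⟨τ', hτ', rfl⟩
        exact hγF τ' hτ') ((convex_ball (0 : ℂ) r).isPreconnected.image γ hγd.continuousOn)
        ⟨0, h0, hγ0⟩
      exact hS ⟨τ, hτ, rfl⟩
    · intro p
      exact Rm_curve H.on hr hγd (by rw [hγ0]; exact (hKO hzK).1) p.1 p.2
    · have hb := hjet P η hPS hη γ r hr hγd (by rw [hγ0]; exact hKO hzK)
        (by rw [hγ0]; exact hzK.2.2) (by rw [hγ0]; exact hzK.1.2)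
        ⟨j, fun τ hτ => by rw [hγ0]; exact hj τ hτ⟩
      rw [hγ0] at hb
      exact hb
  obtain ⟨z', hz'V, hz'U, hz'R, hz'Ψ⟩ := max_prin (C := CC) (K := K) (U := U)
    (Ψ := PsiP Y h q₁ P η c₂) (R := fun z (p : ZMod q × ZMod q) => Rm Y q z p.1 p.2) (P := P)
    (KK_compact H hCcl σ hPS) hKC hU hUo ((ExtB_cont H P η c₂).mono hKO) hR hPK
    ((hRm0 P).2 hPR) hcur hηsq
  rw [hRm0] at hz'R
  have hz'K : z' ∈ K := connectedComponentIn_subset K P hz'V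
  have hz'O : z' ∈ Om Y h q := hKO hz'K
  have hle : Phi Y h q₁ q z' ≤ σ := le_csSup hbdd ⟨z', ⟨hKC hz'K, hz'R, hz'O⟩, rfl⟩
  rw [ExtB_self] at hz'Ψ
  have h1 := ExtB_pen_nonneg (Y := Y) (h := h) (q₁ := q₁) (P := P) (z := z') hη hc₂
  have h2 : ¬ ∀ j, ‖z' j - P j‖ < DS h (P j) / 8 := fun hall =>
    hz'U ⟨hall, hz'O, by linarith⟩
  push Not at h2
  obtain ⟨n, hn⟩ := h2
  have hn' : ‖z' n - P n‖ = DS h (P n) / 8 := le_antisymm (hz'K.1.2 n) hn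
  refine ⟨n, P, connectedComponentIn K P,
    (connectedComponentIn_subset K P).trans (hKC.trans hCF),
    isPreconnected_connectedComponentIn, mem_connectedComponentIn hPK,
    fun z hz => (connectedComponentIn_subset K P hz).1.2, ⟨z', hz'V, hn'⟩, fun hnJ => ?_⟩
  have h3 := ExtB_pen_ge (z := z') hη hc₂ (hD n) hnJ hn'
  have h4 : c₂ * η / 256 < 2 * η ^ 2 := by linarith
  have h5 : η * η < c₂ / 512 * η := mul_lt_mul_of_pos_right hη2 hη
  nlinarith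

end Pool.Agent.MP_ae5b4e_an_NB4
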