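import Pool.Agent.Lib.MP_ae5b4e_an_NB4.ExtB

/-!
# MP_ae5b4e_an, NB_4: the extremal sequence, result (R)
-/

noncomputable section

namespace Pool.Agent.MP_ae5b4e_an_NB4

open Complex Set Filter Topology Metric
open Pool.Agent.MP_ae5b4e_an_NBT (St)
open Pool.Agent.MP_ae5b4e_an_NB2 (Sys)

variable {Y : Sys} {h q₁ : ℝ} {q : ℕ} [NeZero q] {π₀ : ℂ}

private theorem lev_mono {i : ZMod q} {k k' : ℕ} (hk : k ≤ k') {P : ZMod q → ℂ}
    {V : Set (ZMod q → ℂ)} (L : Lev Y h q π₀ i k' P V) : Lev Y h q π₀ i k P V := by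
  have hk1 : (k : ℝ) ≤ k' := Nat.cast_le.2 hk
  have hk0 : (0 : ℝ) ≤ k := Nat.cast_nonneg k
  exact ⟨L.sub, L.conn, L.mem, L.near, L.far,
    L.deep.trans (one_div_le_one_div_of_le (by linarith) (by linarith)),
    fun j hj => hk1.trans (L.iso j hj)⟩

private theorem lev_exists (H : Bdd Y h q₁ q π₀) (k : ℕ) : ∃ (i : ZMod q) (P : ZMod q → ℂ)
    (V : Set (ZMod q → ℂ)), Lev Y h q π₀ i k P V := by
  obtain ⟨c, hc, hstep⟩ := ext_step H
  have hC6 := C6_pos H.q_pos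
  have ht : 0 < th q₁ := by
    unfold th
    positivity
  have hk0 : (0 : ℝ) ≤ k := Nat.cast_nonneg k
  set g₀ : ℝ := Real.log (9 * (k + 1)) with hg₀
  have hg₀pos : 0 < g₀ := Real.log_pos (by linarith)
  set η : ℝ := min (c / 2) (min (Real.exp (-(2 * th q₁ * g₀))) ((1 / (k + 1)) ^ 2)) with hη
  have hη0 : 0 < η := lt_min (by linarith) (lt_min (Real.exp_pos _) (by positivity))
  have hη1 : η < c := lt_of_le_of_lt (min_le_left _ _) (by linarith)
  have hη2 : η ≤ Real.exp (-(2 * th q₁ * g₀)) := (min_le_right _ _).trans (min_le_left _ _)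
  have hη3 : η ≤ (1 / ((k : ℝ) + 1)) ^ 2 := (min_le_right _ _).trans (min_le_right _ _)
  obtain ⟨i, P, V, hV, hconn, hPV, hnear, hfar, hi⟩ := hstep η hη0 hη1
  have hPS : ∀ j, P j ∈ St (-h) h := (hV hPV).1
  have hi' : (∀ j, j ≠ i → Real.exp (-(2 * th q₁ * gg q₁ (W2 Y h q₁ (P i) (P j)))) ≤ η) ∧
      DS h (P i) ^ 2 ≤ η := by
    refine ⟨fun j hj => ?_, ?_⟩
    · by_contra hcon
      exact hi (Or.inl ⟨j, hj, lt_of_not_ge hcon⟩)
    · by_contra hcon
      exact hi (Or.inr (lt_of_not_ge hcon))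
  refine ⟨i, P, V, hV, hconn, hPV, hnear, hfar, ?_, ?_⟩
  · have h1 : DS h (P i) ≤ 1 / ((k : ℝ) + 1) := by
      have h2 : (0 : ℝ) ≤ 1 / ((k : ℝ) + 1) := by positivity
      exact le_of_sq_le_sq (hi'.2.trans hη3) h2
    have h3 := DS_ge H.h_pos (hPS i)
    have hnn : 0 ≤ h - |(P i).im| := by
      have h4 := DS_le H.h_pos (hPS i)
      have h5 := DS_pos H.h_pos (hPS i)
      linarith
    have h6 : 1 ≤ 4 / Real.pi := by
      rw [le_div_iff₀ Real.pi_pos]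
      linarith [Real.pi_lt_four]
    nlinarith
  · intro j hj
    have h1 := (hi'.1 j hj).trans hη2
    rw [Real.exp_le_exp] at h1
    have h2 : g₀ ≤ gg q₁ (W2 Y h q₁ (P i) (P j)) := by
      have h3 : 2 * th q₁ * g₀ ≤ 2 * th q₁ * gg q₁ (W2 Y h q₁ (P i) (P j)) := by linarith
      exact le_of_mul_le_mul_left h3 (by positivity)
    have h4 := NE_ge H (hPS i) (hPS j) (hg₀pos.trans_le h2)
    have h5 : Real.exp g₀ ≤ Real.exp (gg q₁ (W2 Y h q₁ (P i) (P j))) := Real.exp_le_exp.2 h2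
    rw [hg₀, Real.exp_log (by positivity)] at h5
    linarith

/-- **Result (R).** `i ∉ J`: `gg (W2 (P i) (P j)) ≥ log (1/η) / (2 θ)`, so `NE ≥ k` by `NE_ge` for
`η` small; `DS (P i)² ≤ η` gives `h - |Im| ≤ (π/4) √η` by `DS_ge`. So for every `k` there are `i`,
`P`, `V`; `Lev` is monotone in `k` and `ZMod q` is finite, so one `i` works for all `k`. -/
theorem extremal (H : Bdd Y h q₁ q π₀) : ∃ i : ZMod q, ∀ k : ℕ,
    ∃ (P : ZMod q → ℂ) (V : Set (ZMod q → ℂ)), Lev Y h q π₀ i k P V := by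
  by_contra hcon
  push Not at hcon
  choose k hk using hcon
  obtain ⟨i, P, V, L⟩ := lev_exists H (Finset.univ.sup k)
  exact hk i P V (lev_mono (Finset.le_sup (Finset.mem_univ i)) L)

end Pool.Agent.MP_ae5b4e_an_NB4
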