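import Pool.Agent.Lib.MP_ae5b4e_an_NB4.ExtA

/-!
# MP_ae5b4e_an, NB_4: the extremal argument (3.4), (3.5)
-/

noncomputable section

namespace Pool.Agent.MP_ae5b4e_an_NB4

open Complex Set Filter Topology Metric
open Pool.Agent.MP_ae5b4e_an_NBT (St)
open Pool.Agent.MP_ae5b4e_an_NB2 (Sys)

variable {Y : Sys} {h q₁ : ℝ} {q : ℕ} [NeZero q] {π₀ : ℂ}

private theorem ExtJ_sum {ι : Type} (s : Finset ι) (f : ι → ℂ → ℝ) (a d : ι → ℝ)
    (hf : ∀ i, ∃ b, RJ (f i) (a i) b (d i)) :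
    ∃ b, RJ (fun τ => ∑ i ∈ s, f i τ) (∑ i ∈ s, a i) b (∑ i ∈ s, d i) := by
  classical
  induction s using Finset.induction_on with
  | empty =>
    simp only [Finset.sum_empty]
    exact ⟨0, RJ.const 0⟩
  | insert i s hi ih =>
    obtain ⟨b, hb⟩ := ih
    obtain ⟨b', hb'⟩ := hf i
    simp only [Finset.sum_insert hi]
    exact ⟨b' + b, hb'.add hb⟩

private theorem ExtJ_wt_nonneg (l m : ℂ) : 0 ≤ wt Y h q₁ l m :=
  div_nonneg (Real.exp_pos _).le (mul_nonneg (by norm_num) (Real.sqrt_nonneg _))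

/-- The jet of the penalised function has `d > 0`. Constants: `C := q h² + 1 - σ > 0`, `C_h` of
`gg_harnack`, `c₂ := min (exp (-2 θ C_h) / (4 C)) (1/8)`. For `z` in the polydisc with
`Φ z ≥ σ - 1` and `κ_n := |γ_n'|² / DS (z n)²`:
* `n ∈ J` because of `j`: `U2 (z n) (z j) ≥ Φ - q h² ≥ -C` (`U2_ge`), so by `wt_ge`, `gg_harnack`
  `wt (z n) (z j) ≥ exp (-2 θ gg (W2 (P n) (P j))) exp (-2 θ C_h) / (4 C) ≥ c₂ η`;
* `n ∈ J` because of the depth: `|γ_n'|² / 4 = DS (z n)² κ_n / 4 ≥ (9/64) DS (P n)² κ_n ≥ c₂ η κ_n`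
  (`DS_lip`: `DS (z n) ≥ (3/4) DS (P n)`);
* so `d ≥ c₂ η ∑_{n ∈ J} κ_n + ∑ |γ_j'|² / 4` and `|γ_n'|² / DS (P n)² ≤ 2 κ_n`; one `γ_j' = 1`. -/
theorem PsiP_jet (H : Bdd Y h q₁ q π₀) {σ : ℝ} (hσ : σ ≤ q * h ^ 2) : ∃ c₂ > 0, c₂ ≤ 1 ∧
    ∀ (P : ZMod q → ℂ) (η : ℝ), P ∈ Sq h q → 0 < η → ∀ (γ : ℂ → ZMod q → ℂ) (r : ℝ), 0 < r →
      DifferentiableOn ℂ γ (ball 0 r) → γ 0 ∈ Om Y h q → σ - 1 ≤ Phi Y h q₁ q (γ 0) →
      γ 0 ∈ PD h P → (∃ j, ∀ τ ∈ ball (0:ℂ) r, γ τ j = γ 0 j + τ) →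
      ∃ (b : ℂ) (d : ℝ), 0 < d ∧
        RJ (fun τ => PsiP Y h q₁ P η c₂ (γ τ)) (PsiP Y h q₁ P η c₂ (γ 0)) b d := by
  classical
  obtain ⟨Ch, hCh0, hCh⟩ := gg_harnack H
  have hθ : 0 < th q₁ := by
    unfold th
    have := C6_pos H.q_pos
    positivity
  set C : ℝ := q * h ^ 2 + 1 - σ with hC
  have hC0 : 0 < C := by rw [hC]; linarith
  set c₂ : ℝ := min (Real.exp (-(2 * th q₁ * Ch)) / (4 * C)) (1 / 8) with hc₂
  have hc₂0 : 0 < c₂ := lt_min (div_pos (Real.exp_pos _) (by linarith)) (by norm_num)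
  have hc₂1 : c₂ ≤ 1 / 8 := min_le_right _ _
  have hc₂2 : c₂ ≤ Real.exp (-(2 * th q₁ * Ch)) / (4 * C) := min_le_left _ _
  refine ⟨c₂, hc₂0, by linarith, ?_⟩
  intro P η hP hη γ r hr hγ hz hΦ hPD hj
  set z : ZMod q → ℂ := γ 0 with hzdef
  set v : ZMod q → ℝ := fun n => ‖deriv (fun τ => γ τ n) 0‖ ^ 2 with hv
  have hv0 : ∀ n, 0 ≤ v n := fun n => sq_nonneg _
  have hDP : ∀ n, 0 < DS h (P n) := fun n => DS_pos H.h_pos (hP n)
  have hDz : ∀ n, 0 < DS h (z n) := fun n => DS_pos H.h_pos (hz.1 n)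
  have hlow : ∀ n, 3 / 4 * DS h (P n) ≤ DS h (z n) := by
    intro n
    have h1 := DS_lip H.h_pos (z n) (P n)
    have h2 := hPD n
    have h3 := neg_abs_le (DS h (z n) - DS h (P n))
    linarith
  have hupp : ∀ n, DS h (z n) ≤ 5 / 4 * DS h (P n) := by
    intro n
    have h1 := DS_lip H.h_pos (z n) (P n)
    have h2 := hPD n
    have h3 := le_abs_self (DS h (z n) - DS h (P n))
    linarith
  -- analyticity of the coordinates
  have han : ∀ n, AnalyticAt ℂ (fun τ => γ τ n) 0 := by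
    intro n
    have h1 : DifferentiableOn ℂ (fun τ => γ τ n) (ball 0 r) := by
      intro τ hτ
      exact (differentiableWithinAt_pi.1 (hγ τ hτ)) n
    exact h1.analyticAt (ball_mem_nhds 0 hr)
  obtain ⟨b₀, d₀, hJ₀, hd₀⟩ := Phi_jet (q₁ := q₁) H hr hγ hz
  -- the penalty
  have hpen : ∀ n : ZMod q, ∃ b, RJ
      (fun τ => if n ∈ JJ Y h q₁ P η then ‖(γ τ n - P n) / DS h (P n)‖ ^ 2 else 0)
      (if n ∈ JJ Y h q₁ P η then ‖(z n - P n) / DS h (P n)‖ ^ 2 else 0) b
      (if n ∈ JJ Y h q₁ P η then v n / DS h (P n) ^ 2 else 0) := by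
    intro n
    by_cases hn : n ∈ JJ Y h q₁ P η
    · simp only [if_pos hn]
      have h1 : AnalyticAt ℂ (fun τ => (γ τ n - P n) / (DS h (P n) : ℂ)) 0 :=
        ((han n).sub analyticAt_const).div analyticAt_const
          (by exact_mod_cast (hDP n).ne')
      obtain ⟨b, hb⟩ := RJ.norm_sq h1
      refine ⟨b, ?_⟩
      have h2 : deriv (fun τ => (γ τ n - P n) / (DS h (P n) : ℂ)) 0 =
          deriv (fun τ => γ τ n) 0 / (DS h (P n) : ℂ) := by
        have h3 := (((han n).differentiableAt.hasDerivAt).sub_const (P n)).div_const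
          (DS h (P n) : ℂ)
        exact h3.deriv
      have h4 : ‖deriv (fun τ => (γ τ n - P n) / (DS h (P n) : ℂ)) 0‖ ^ 2 =
          v n / DS h (P n) ^ 2 := by
        rw [h2, norm_div, div_pow, Complex.norm_real, Real.norm_eq_abs, sq_abs]
      rw [h4] at hb
      exact hb
    · simp only [if_neg hn]
      exact ⟨0, RJ.const 0⟩
  obtain ⟨b₁, hJ₁⟩ := ExtJ_sum Finset.univ _ _ _ hpen
  have hJ₂ := hJ₀.add (hJ₁.mul_const (-(c₂ / 4 * η)))
  have hpos : 0 < d₀ + (∑ i, if i ∈ JJ Y h q₁ P η then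
      v i / DS h (P i) ^ 2 else 0) * -(c₂ / 4 * η) := by
    set κ : ZMod q → ℝ := fun n => v n / DS h (z n) ^ 2 with hκ
    have hκ0 : ∀ n, 0 ≤ κ n := fun n => div_nonneg (hv0 n) (sq_nonneg _)
    have hvκ : ∀ n, v n = κ n * DS h (z n) ^ 2 := by
      intro n
      rw [hκ]
      change v n = v n / DS h (z n) ^ 2 * DS h (z n) ^ 2
      rw [div_mul_cancel₀]
      exact (pow_pos (hDz n) 2).ne'
    -- penalty terms
    have hpt : ∀ n, v n / DS h (P n) ^ 2 ≤ 2 * κ n := by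
      intro n
      rw [div_le_iff₀ (pow_pos (hDP n) 2), hvκ n]
      have h1 : DS h (z n) ^ 2 ≤ 2 * DS h (P n) ^ 2 := by
        have h2 := pow_le_pow_left₀ (hDz n).le (hupp n) 2
        nlinarith [sq_nonneg (DS h (P n))]
      nlinarith [mul_le_mul_of_nonneg_left h1 (hκ0 n)]
    -- weights
    set A : ZMod q → ℝ := fun n => ∑ j, if n = j then 0 else wt Y h q₁ (z n) (z j) with hA
    have hA0 : ∀ n, 0 ≤ A n := by
      intro n
      refine Finset.sum_nonneg fun j _ => ?_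
      split_ifs
      · exact le_rfl
      · exact ExtJ_wt_nonneg _ _
    have hkey : ∀ n, n ∈ JJ Y h q₁ P η → c₂ * η * κ n ≤ A n * κ n + v n / 4 := by
      intro n hn
      rcases hn with ⟨j, hjn, hj⟩ | hdeep
      · have hU := U2_ge H hz (i := n) (j := j) (Ne.symm hjn)
        have hU' : -C ≤ U2 Y h q₁ (z n) (z j) := by
          rw [hC]
          linarith
        have hw := wt_ge H hC0 (hz.1 n) (hz.1 j) (hz.2 n j (Ne.symm hjn)) hU'
        have hg := hCh (P n) (hP n) (P j) (hP j) (z n) (z j) (hPD n) (hPD j)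
        have h1 : η * Real.exp (-(2 * th q₁ * Ch)) ≤
            Real.exp (-(2 * th q₁ * gg q₁ (W2 Y h q₁ (z n) (z j)))) := by
          have h2 : Real.exp (-(2 * th q₁ * gg q₁ (W2 Y h q₁ (P n) (P j)))) *
              Real.exp (-(2 * th q₁ * Ch)) ≤
              Real.exp (-(2 * th q₁ * gg q₁ (W2 Y h q₁ (z n) (z j)))) := by
            rw [← Real.exp_add]
            apply Real.exp_le_exp.2
            have h3 := mul_le_mul_of_nonneg_left hg (by linarith : (0:ℝ) ≤ 2 * th q₁)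
            linarith
          exact (mul_le_mul_of_nonneg_right hj.le (Real.exp_pos _).le).trans h2
        have h2 : c₂ * η ≤ wt Y h q₁ (z n) (z j) := by
          refine le_trans ?_ hw
          have h3 : c₂ * η ≤ Real.exp (-(2 * th q₁ * Ch)) / (4 * C) * η :=
            mul_le_mul_of_nonneg_right hc₂2 hη.le
          refine h3.trans ?_
          rw [div_mul_eq_mul_div, mul_comm (Real.exp _) η]
          exact div_le_div_of_nonneg_right h1 (by linarith)
        have h3 : wt Y h q₁ (z n) (z j) ≤ A n := by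
          have h4 := Finset.single_le_sum
            (f := fun j => if n = j then 0 else wt Y h q₁ (z n) (z j))
            (fun j _ => by
              change (0:ℝ) ≤ if n = j then 0 else wt Y h q₁ (z n) (z j)
              split_ifs
              · exact le_rfl
              · exact ExtJ_wt_nonneg _ _) (Finset.mem_univ j)
          simp only [if_neg (Ne.symm hjn)] at h4
          exact h4
        have h4 := mul_le_mul_of_nonneg_right (h2.trans h3) (hκ0 n)
        have h5 := hv0 n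
        linarith
      · have h1 : 9 / 16 * DS h (P n) ^ 2 ≤ DS h (z n) ^ 2 := by
          have h2 := pow_le_pow_left₀ (by have := hDP n; positivity) (hlow n) 2
          nlinarith
        have h2 : 9 / 16 * η ≤ DS h (z n) ^ 2 := by
          have h3 : η < DS h (P n) ^ 2 := hdeep
          linarith
        have h3 := mul_le_mul_of_nonneg_left h2 (hκ0 n)
        have h4 := mul_nonneg (hA0 n) (hκ0 n)
        have h5 : c₂ * η * κ n ≤ 1 / 8 * (η * κ n) := by
          rw [mul_assoc]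
          exact mul_le_mul_of_nonneg_right hc₂1 (mul_nonneg hη.le (hκ0 n))
        have h6 : 0 ≤ η * κ n := mul_nonneg hη.le (hκ0 n)
        rw [hvκ n]
        nlinarith
    -- the lower bound of `d₀`
    have hsum : ∑ n, A n * κ n + ∑ n, v n / 2 ≤ d₀ := by
      refine le_trans (add_le_add ?_ le_rfl) hd₀
      refine Finset.sum_le_sum fun n _ => ?_
      rw [hA]
      change (∑ j, if n = j then 0 else wt Y h q₁ (z n) (z j)) * κ n ≤ _
      rw [Finset.sum_mul]
      refine Finset.sum_le_sum fun j _ => ?_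
      by_cases hnj : n = j
      · rw [if_pos hnj, if_pos hnj, zero_mul]
      · rw [if_neg hnj, if_neg hnj]
        refine mul_le_mul_of_nonneg_left ?_ (ExtJ_wt_nonneg _ _)
        exact le_add_of_nonneg_right (hκ0 j)
    -- one velocity is `1`
    obtain ⟨j, hj⟩ := hj
    have hvj : v j = 1 := by
      have h1 : (fun τ => γ τ j) =ᶠ[𝓝 0] fun τ => γ 0 j + τ := by
        filter_upwards [ball_mem_nhds (0:ℂ) hr] with τ hτ
        exact hj τ hτ
      have h2 : deriv (fun τ => γ τ j) 0 = 1 := by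
        rw [h1.deriv_eq]
        exact ((hasDerivAt_id (0:ℂ)).const_add (γ 0 j)).deriv
      rw [hv]
      change ‖deriv (fun τ => γ τ j) 0‖ ^ 2 = 1
      rw [h2, norm_one, one_pow]
    have hterm : ∀ n, (if n ∈ JJ Y h q₁ P η then v n / DS h (P n) ^ 2 else 0) * (c₂ / 4 * η) ≤
        A n * κ n + v n / 4 := by
      intro n
      by_cases hn : n ∈ JJ Y h q₁ P η
      · rw [if_pos hn]
        have h1 := hkey n hn
        have h2 := mul_le_mul_of_nonneg_right (hpt n)
          (by positivity : (0:ℝ) ≤ c₂ / 4 * η)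
        have h3 : 0 ≤ c₂ * η * κ n := mul_nonneg (mul_nonneg hc₂0.le hη.le) (hκ0 n)
        have h4 : 2 * κ n * (c₂ / 4 * η) = c₂ * η * κ n / 2 := by ring
        linarith
      · rw [if_neg hn, zero_mul]
        have h1 := mul_nonneg (hA0 n) (hκ0 n)
        have h2 := hv0 n
        linarith
    have hS := Finset.sum_le_sum fun n (_ : n ∈ (Finset.univ : Finset (ZMod q))) => hterm n
    rw [← Finset.sum_mul, Finset.sum_add_distrib] at hS
    have hvs : (1:ℝ) / 4 ≤ ∑ n, v n / 4 := by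
      have h4 := Finset.single_le_sum (f := fun n => v n / 4)
        (fun n _ => div_nonneg (hv0 n) (by norm_num)) (Finset.mem_univ j)
      simp only [hvj] at h4
      exact h4
    have hv2 : ∑ n, v n / 2 = ∑ n, v n / 4 + ∑ n, v n / 4 := by
      rw [← Finset.sum_add_distrib]
      exact Finset.sum_congr rfl fun n _ => by ring
    rw [hv2] at hsum
    rw [mul_neg]
    linarith
  have e1 : (fun τ => PsiP Y h q₁ P η c₂ (γ τ)) = fun τ => Phi Y h q₁ q (γ τ) +
      (∑ n, if n ∈ JJ Y h q₁ P η then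
        ‖(γ τ n - P n) / DS h (P n)‖ ^ 2 else 0) * (-(c₂ / 4 * η)) := by
    funext τ
    unfold PsiP
    ring
  have e2 : PsiP Y h q₁ P η c₂ z = Phi Y h q₁ q z +
      (∑ n, if n ∈ JJ Y h q₁ P η then
        ‖(z n - P n) / DS h (P n)‖ ^ 2 else 0) * (-(c₂ / 4 * η)) := by
    unfold PsiP
    ring
  refine ⟨b₀ + b₁ * ((-(c₂ / 4 * η) : ℝ) : ℂ), _, hpos, ?_⟩
  rw [e1, e2]
  exact hJ₂

end Pool.Agent.MP_ae5b4e_an_NB4
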