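import Pool.Agent.Lib.MP_ae5b4e_an_NB4.ExtC
import Pool.Agent.Lib.MP_ae5b4e_an_NB4C.NoLev

/-!
# MP_ae5b4e_an, NB_4: the bounded case is impossible
-/

noncomputable section

namespace Pool.Agent.MP_ae5b4e_an_NB4

/-- **NB_4.** There is no system with bounded Schwarzian (`|Q| D ^ 2 ≤ q₁`), periodic up to the
sign, not univalent near the boundary lines, which has a real curve of closed chains of length
`q ≥ 2`. -/
theorem no_bdd {Y : Pool.Agent.MP_ae5b4e_an_NB2.Sys} {h q₁ : ℝ} {q : ℕ} [NeZero q] {π₀ : ℂ}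
    (H : Bdd Y h q₁ q π₀) : False := by
  obtain ⟨i, hi⟩ := extremal H
  exact Pool.Agent.MP_ae5b4e_an_NB4C.no_lev H i hi

end Pool.Agent.MP_ae5b4e_an_NB4
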