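import Pool.Agent.Lib.MP_ae5b4e_an_NB4.JetC
import Pool.Agent.Lib.MP_ae5b4e_an_NB4.AlgN

/-!
# MP_ae5b4e_an, NB_4, module FrameJ: jets of the frames at the centre of the disc

`a 0 = 0`, `α = a' 0`, `u = uu A 0`, `t = uu' A 0`, `Q = A.Q 0`.  Jets of the components:
`uu A (a τ)`: value `u`, `∂ = α t`, `∂̄ = 0`, `∂ ∂̄ = 0` (analytic);
`tu A (a τ) = (1 - a ā) u'(a) + ā u(a)`: value `t`, `∂ = -Q α u`, `∂̄ = ᾱ u`, `∂ ∂̄ = 0`
(`1 - a ā` has the jet `(1, 0, 0, -|α|²)`, `u'(a)` has `(t, -Q u α, 0, 0)`, `ā` has `(0, 0, ᾱ, 0)`,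
`u(a)` has `(u, t α, 0, 0)`; the terms `-|α|² t` and `+|α|² t` cancel).
-/

noncomputable section

namespace Pool.Agent.MP_ae5b4e_an_NB4

open Complex Set Filter Topology Metric
open Pool.Agent.MP_ae5b4e_an_NB2 (Sys)
open scoped ComplexConjugate

variable {q : ℝ} {A B : Sys} {a b : ℂ → ℂ}

private theorem cj_eq {f : ℂ → ℂ} {a b b' d a₂ b₂ b₂' d₂ : ℂ} (h : CJ f a b b' d) (h1 : a = a₂)
    (h2 : b = b₂) (h3 : b' = b₂') (h4 : d = d₂) : CJ f a₂ b₂ b₂' d₂ := by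
  subst h1 h2 h3 h4
  exact h

private theorem rj_eq {f : ℂ → ℝ} {a a₂ : ℝ} {b b₂ : ℂ} {d d₂ : ℝ} (h : RJ f a b d) (h1 : a = a₂)
    (h2 : b = b₂) (h3 : d = d₂) : RJ f a₂ b₂ d₂ := by
  subst h1 h2 h3
  exact h

private theorem mem0 : (0:ℂ) ∈ ball (0:ℂ) 1 := by simp

/-- composition of a holomorphic function with a curve -/
private theorem cj_comp {f : ℂ → ℂ} {f' : ℂ} (hfa : AnalyticAt ℂ f 0) (hf : HasDerivAt f f' 0)
    (ha : AnalyticAt ℂ a 0) (ha0 : a 0 = 0) :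
    CJ (fun τ => f (a τ)) (f 0) (deriv a 0 * f') 0 0 := by
  have h1 : AnalyticAt ℂ (fun τ => f (a τ)) 0 := by
    have : AnalyticAt ℂ f (a 0) := by rw [ha0]; exact hfa
    exact this.comp ha
  have h2 : HasDerivAt (fun τ => f (a τ)) (f' * deriv a 0) 0 := by
    have h3 : HasDerivAt f f' (a 0) := by rw [ha0]; exact hf
    exact h3.comp (0:ℂ) ha.differentiableAt.hasDerivAt
  have h4 := CJ.of_analytic h1
  refine cj_eq h4 ?_ ?_ rfl rfl
  · simp only [ha0]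
  · rw [h2.deriv]; ring

private theorem an_of (hA : QB A q) : AnalyticAt ℂ A.y1 0 ∧ AnalyticAt ℂ A.y1' 0 ∧
    AnalyticAt ℂ A.y2 0 ∧ AnalyticAt ℂ A.y2' 0 := by
  have ho : IsOpen (ball (0:ℂ) 1) := isOpen_ball
  refine ⟨?_, ?_, ?_, ?_⟩
  · exact (DifferentiableOn.analyticOnNhd (fun z hz =>
      (hA.on.d1 z hz).differentiableAt.differentiableWithinAt) ho) 0 mem0
  · exact (DifferentiableOn.analyticOnNhd (fun z hz =>
      (hA.on.d1' z hz).differentiableAt.differentiableWithinAt) ho) 0 mem0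
  · exact (DifferentiableOn.analyticOnNhd (fun z hz =>
      (hA.on.d2 z hz).differentiableAt.differentiableWithinAt) ho) 0 mem0
  · exact (DifferentiableOn.analyticOnNhd (fun z hz =>
      (hA.on.d2' z hz).differentiableAt.differentiableWithinAt) ho) 0 mem0

/-- the jet of the curve -/
private theorem cj_id (ha : AnalyticAt ℂ a 0) (ha0 : a 0 = 0) : CJ a 0 (deriv a 0) 0 0 := by
  have h := CJ.of_analytic ha
  rwa [ha0] at h

/-- the jet of `1 - |a|²` -/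
private theorem cj_one_sub (ha : AnalyticAt ℂ a 0) (ha0 : a 0 = 0) :
    CJ (fun τ => ((1 - ‖a τ‖ ^ 2 : ℝ) : ℂ)) 1 0 0 (-(deriv a 0 * conj (deriv a 0))) := by
  have h1 := cj_id ha ha0
  have h2 := (CJ.const 1).sub (h1.mul h1.cj)
  have h3 : (fun τ => (1:ℂ) - a τ * conj (a τ)) = fun τ => ((1 - ‖a τ‖ ^ 2 : ℝ) : ℂ) := by
    funext τ
    rw [Complex.mul_conj, Complex.normSq_eq_norm_sq]
    push_cast
    ring
  rw [h3] at h2
  refine cj_eq h2 ?_ ?_ ?_ ?_ <;> simp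

/-- the jet of a component of `tu` -/
private theorem cj_tu {f g : ℂ → ℂ} {Q : ℂ} (hf : CJ (fun τ => f (a τ)) (f 0) (deriv a 0 * g 0) 0 0)
    (hg : CJ (fun τ => g (a τ)) (g 0) (deriv a 0 * (-(Q * f 0))) 0 0)
    (ha : AnalyticAt ℂ a 0) (ha0 : a 0 = 0) :
    CJ (fun τ => ((1 - ‖a τ‖ ^ 2 : ℝ) : ℂ) * g (a τ) + conj (a τ) * f (a τ)) (g 0)
      (deriv a 0 * (-(Q * f 0))) (conj (deriv a 0) * f 0) 0 := by
  have h := ((cj_one_sub ha ha0).mul hg).add ((cj_id ha ha0).cj.mul hf)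
  refine cj_eq h ?_ ?_ ?_ ?_
  · simp
  · simp
  · simp
  · simp only [map_zero]; ring

/-- jets of the four determinants (product rule for `wdg`). -/
theorem wdg_jets (hA : QB A q) (hB : QB B q) (ha : AnalyticAt ℂ a 0) (hb : AnalyticAt ℂ b 0)
    (ha0 : a 0 = 0) (hb0 : b 0 = 0) {x11 x12 x21 x22 Q R α β : ℂ}
    (h11 : x11 = wdg (uu A 0) (uu B 0)) (h12 : x12 = wdg (uu A 0) (uu' B 0))
    (h21 : x21 = wdg (uu' A 0) (uu B 0)) (h22 : x22 = wdg (uu' A 0) (uu' B 0))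
    (hQ : Q = A.Q 0) (hR : R = B.Q 0) (hα : α = deriv a 0) (hβ : β = deriv b 0) :
    CJ (fun τ => wdg (uu A (a τ)) (uu B (b τ))) x11 (α * x21 + β * x12) 0 0 ∧
    CJ (fun τ => wdg (tu A (a τ)) (uu B (b τ))) x21 (-(Q * α * x11) + β * x22) (conj α * x11)
      (conj α * β * x12) ∧
    CJ (fun τ => wdg (uu A (a τ)) (tu B (b τ))) x12 (α * x22 - R * β * x11) (conj β * x11)
      (α * conj β * x21) ∧
    CJ (fun τ => wdg (tu A (a τ)) (tu B (b τ))) x22 (-(Q * α * x12) - R * β * x21)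
      (conj α * x12 + conj β * x21) (-(Q * α * conj β * x11) - R * conj α * β * x11) := by
  obtain ⟨nA1, nA1', nA2, nA2'⟩ := an_of hA
  obtain ⟨nB1, nB1', nB2, nB2'⟩ := an_of hB
  have A1 := cj_comp nA1 (hA.on.d1 0 mem0) ha ha0
  have A1' := cj_comp nA1' (hA.on.d1' 0 mem0) ha ha0
  have A2 := cj_comp nA2 (hA.on.d2 0 mem0) ha ha0
  have A2' := cj_comp nA2' (hA.on.d2' 0 mem0) ha ha0
  have B1 := cj_comp nB1 (hB.on.d1 0 mem0) hb hb0
  have B1' := cj_comp nB1' (hB.on.d1' 0 mem0) hb hb0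
  have B2 := cj_comp nB2 (hB.on.d2 0 mem0) hb hb0
  have B2' := cj_comp nB2' (hB.on.d2' 0 mem0) hb hb0
  have TA1 := cj_tu A1 A1' ha ha0
  have TA2 := cj_tu A2 A2' ha ha0
  have TB1 := cj_tu B1 B1' hb hb0
  have TB2 := cj_tu B2 B2' hb hb0
  subst hQ hR hα hβ
  refine ⟨?_, ?_, ?_, ?_⟩
  · refine cj_eq ((A1.mul B2).sub (A2.mul B1)) ?_ ?_ ?_ ?_
    · rw [h11]; simp only [wdg, uu]
    · rw [h21, h12]; simp only [wdg, uu, uu']; ring
    · ring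
    · ring
  · refine cj_eq ((TA1.mul B2).sub (TA2.mul B1)) ?_ ?_ ?_ ?_
    · rw [h21]; simp only [wdg, uu, uu']
    · rw [h11, h22]; simp only [wdg, uu, uu']; ring
    · rw [h11]; simp only [wdg, uu]; ring
    · rw [h12]; simp only [wdg, uu, uu']; ring
  · refine cj_eq ((A1.mul TB2).sub (A2.mul TB1)) ?_ ?_ ?_ ?_
    · rw [h12]; simp only [wdg, uu, uu']
    · rw [h11, h22]; simp only [wdg, uu, uu']; ring
    · rw [h11]; simp only [wdg, uu]; ring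
    · rw [h21]; simp only [wdg, uu, uu']; ring
  · refine cj_eq ((TA1.mul TB2).sub (TA2.mul TB1)) ?_ ?_ ?_ ?_
    · rw [h22]; simp only [wdg, uu']
    · rw [h12, h21]; simp only [wdg, uu, uu']; ring
    · rw [h12, h21]; simp only [wdg, uu, uu']; ring
    · rw [h11]; simp only [wdg, uu]; ring

/-- the real jet of `1 - |a|²` -/
private theorem rj_one_sub (ha : AnalyticAt ℂ a 0) (ha0 : a 0 = 0) :
    RJ (fun τ => 1 - ‖a τ‖ ^ 2) 1 0 (-‖deriv a 0‖ ^ 2) := by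
  have h := cj_one_sub ha ha0
  unfold RJ
  refine cj_eq h ?_ ?_ ?_ ?_
  · simp
  · rfl
  · simp
  · rw [Complex.mul_conj, Complex.normSq_eq_norm_sq]
    push_cast
    ring

/-- the jet of `N` at the centre: `n1`, `n2` of module AlgN.  `N` is the sum of the four squares
(`CJ.norm_sq`) times `1 / ((1 - |a|²) (1 - |b|²))`, whose jet is `(1, 0, |α|² + |β|²)`. -/
theorem NN_jet0 (hA : QB A q) (hB : QB B q) (ha : AnalyticAt ℂ a 0) (hb : AnalyticAt ℂ b 0)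
    (ha0 : a 0 = 0) (hb0 : b 0 = 0) (l : ℝ) {x11 x12 x21 x22 : ℂ}
    (h11 : x11 = wdg (uu A 0) (uu B 0)) (h12 : x12 = wdg (uu A 0) (uu' B 0))
    (h21 : x21 = wdg (uu' A 0) (uu B 0)) (h22 : x22 = wdg (uu' A 0) (uu' B 0)) :
    RJ (fun τ => NN l A B (a τ) (b τ)) (PP l x11 x12 x21 x22)
      (n1 l (A.Q 0) (B.Q 0) (deriv a 0) (deriv b 0) x11 x12 x21 x22)
      (n2 l (A.Q 0) (B.Q 0) (deriv a 0) (deriv b 0) x11 x12 x21 x22) := by
  obtain ⟨j11, j21, j12, j22⟩ := wdg_jets hA hB ha hb ha0 hb0 h11 h12 h21 h22 rfl rfl rfl rfl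
  generalize A.Q 0 = Q at *
  generalize B.Q 0 = R at *
  have hden := (rj_one_sub ha ha0).mul (rj_one_sub hb hb0)
  generalize deriv a 0 = α at *
  generalize deriv b 0 = β at *
  have hinv : RJ (fun τ => 1 / ((1 - ‖a τ‖ ^ 2) * (1 - ‖b τ‖ ^ 2))) 1 0 (‖α‖ ^ 2 + ‖β‖ ^ 2) := by
    have hF : ∀ᶠ x : ℝ in 𝓝 (1 * 1 : ℝ), HasDerivAt (fun x : ℝ => 1 / x) (-(1 / x ^ 2)) x := by
      have : ∀ᶠ x : ℝ in 𝓝 (1 * 1 : ℝ), x ≠ 0 := by
        apply IsOpen.mem_nhds isOpen_ne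
        norm_num
      filter_upwards [this] with x hx
      have := hasDerivAt_inv hx
      simp only [one_div]
      exact this
    have hF' : HasDerivAt (fun x : ℝ => -(1 / x ^ 2)) 2 (1 * 1 : ℝ) := by
      have h := ((hasDerivAt_pow 2 (1 * 1 : ℝ)).inv (by norm_num)).neg
      have e1 : (fun x : ℝ => -(1 / x ^ 2)) = -(fun x : ℝ => x ^ 2)⁻¹ := by
        funext x
        simp
      have e2 : (2:ℝ) = -(-(((2:ℕ):ℝ) * (1 * 1) ^ (2 - 1)) / ((1 * 1) ^ 2) ^ 2) := by norm_num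
      rw [e1, e2]
      exact h
    have h := hden.comp hF hF'
    refine rj_eq h ?_ ?_ ?_
    · norm_num
    · simp
    · simp
  have hnum := ((((CJ.norm_sq j11).add ((CJ.norm_sq j21).mul_const l)).add
    ((CJ.norm_sq j12).mul_const l)).add ((CJ.norm_sq j22).mul_const (l ^ 2)))
  have h := hnum.mul hinv
  have hfun : (fun τ => (‖wdg (uu A (a τ)) (uu B (b τ))‖ ^ 2 +
      ‖wdg (tu A (a τ)) (uu B (b τ))‖ ^ 2 * l + ‖wdg (uu A (a τ)) (tu B (b τ))‖ ^ 2 * l +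
      ‖wdg (tu A (a τ)) (tu B (b τ))‖ ^ 2 * l ^ 2) *
        (1 / ((1 - ‖a τ‖ ^ 2) * (1 - ‖b τ‖ ^ 2)))) =
      fun τ => NN l A B (a τ) (b τ) := by
    funext τ
    unfold NN
    ring
  rw [hfun] at h
  refine rj_eq h ?_ ?_ ?_
  · unfold PP
    ring
  · simp only [n1, nA, map_add, map_mul, map_zero, Complex.conj_conj]
    push_cast
    ring
  · have key : ∀ z : ℂ, ((‖z‖ ^ 2 : ℝ) : ℂ) = z * conj z := by
      intro z
      rw [Complex.mul_conj, Complex.normSq_eq_norm_sq]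
    have key2 : ∀ z : ℂ, ((2 * z.re : ℝ) : ℂ) = z + conj z := by
      intro z
      rw [Complex.add_conj]
    apply Complex.ofReal_injective
    unfold n2 aA cA
    rw [Complex.ofReal_add, Complex.ofReal_add, Complex.ofReal_add, Complex.ofReal_add, key2, key2]
    simp only [Complex.ofReal_add, Complex.ofReal_mul, key, key2, Complex.ofReal_one,
      Complex.ofReal_pow, map_zero, mul_zero, map_add, map_sub, map_mul, map_neg,
      Complex.conj_conj, Complex.conj_ofReal, add_zero, map_one, map_pow]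
    ring

/-- `ww = log |s|² - log (1 - |a|²) - log (1 - |b|²)`, `∂ ∂̄ ww = |α|² + |β|²`. -/
theorem ww_jet0 (hA : QB A q) (hB : QB B q) (ha : AnalyticAt ℂ a 0) (hb : AnalyticAt ℂ b 0)
    (ha0 : a 0 = 0) (hb0 : b 0 = 0) (hs : wdg (uu A 0) (uu B 0) ≠ 0) :
    ∃ c, RJ (fun τ => ww A B (a τ) (b τ)) (ww A B 0 0) c
      (‖deriv a 0‖ ^ 2 + ‖deriv b 0‖ ^ 2) := by
  obtain ⟨nA1, -, nA2, -⟩ := an_of hA
  obtain ⟨nB1, -, nB2, -⟩ := an_of hB
  have cmp : ∀ (f : ℂ → ℂ) (g : ℂ → ℂ), AnalyticAt ℂ f 0 → AnalyticAt ℂ g 0 → g 0 = 0 →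
      AnalyticAt ℂ (fun τ => f (g τ)) 0 := by
    intro f g hf hg hg0
    have : AnalyticAt ℂ f (g 0) := by rw [hg0]; exact hf
    exact this.comp hg
  have hsa : AnalyticAt ℂ (fun τ => wdg (uu A (a τ)) (uu B (b τ))) 0 := by
    simp only [wdg, uu]
    exact ((cmp _ _ nA1 ha ha0).mul (cmp _ _ nB2 hb hb0)).sub
      ((cmp _ _ nA2 ha ha0).mul (cmp _ _ nB1 hb hb0))
  have hs0 : wdg (uu A (a 0)) (uu B (b 0)) ≠ 0 := by rw [ha0, hb0]; exact hs
  obtain ⟨c, hc⟩ := RJ.log_norm hsa hs0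
  have hlog : ∀ {f : ℂ → ℂ}, AnalyticAt ℂ f 0 → f 0 = 0 →
      RJ (fun τ => Real.log (1 - ‖f τ‖ ^ 2)) 0 0 (-‖deriv f 0‖ ^ 2) := by
    intro f hf hf0
    have h1 : ∀ᶠ x : ℝ in 𝓝 (1:ℝ), HasDerivAt Real.log (x⁻¹) x := by
      have : ∀ᶠ x : ℝ in 𝓝 (1:ℝ), x ≠ 0 := IsOpen.mem_nhds isOpen_ne (by norm_num)
      filter_upwards [this] with x hx
      exact Real.hasDerivAt_log hx
    have h2 : HasDerivAt (fun x : ℝ => x⁻¹) (-1) (1:ℝ) := by
      have h := hasDerivAt_inv (show (1:ℝ) ≠ 0 by norm_num)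
      have e : (-1:ℝ) = -((1:ℝ) ^ 2)⁻¹ := by norm_num
      rw [e]
      exact h
    have h3 := (rj_one_sub hf hf0).comp h1 h2
    refine rj_eq h3 ?_ ?_ ?_
    · simp
    · simp
    · simp
  have hA1 := hlog ha ha0
  have hB1 := hlog hb hb0
  have h := ((hc.mul_const 2).sub hA1).sub hB1
  have hev : (fun τ => Real.log ‖wdg (uu A (a τ)) (uu B (b τ))‖ * 2 -
      Real.log (1 - ‖a τ‖ ^ 2) - Real.log (1 - ‖b τ‖ ^ 2)) =ᶠ[𝓝 0]
      fun τ => ww A B (a τ) (b τ) := by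
    have e1 : ∀ᶠ τ in 𝓝 (0:ℂ), wdg (uu A (a τ)) (uu B (b τ)) ≠ 0 :=
      hsa.continuousAt.eventually_ne hs0
    have e2 : ∀ {f : ℂ → ℂ}, AnalyticAt ℂ f 0 → f 0 = 0 → ∀ᶠ τ in 𝓝 (0:ℂ), 0 < 1 - ‖f τ‖ ^ 2 := by
      intro f hf hf0
      have hcont : ContinuousAt (fun τ => 1 - ‖f τ‖ ^ 2) 0 :=
        continuousAt_const.sub (hf.continuousAt.norm.pow 2)
      have : (0:ℝ) < 1 - ‖f 0‖ ^ 2 := by rw [hf0]; norm_num
      exact hcont.eventually_const_lt this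
    filter_upwards [e1, e2 ha ha0, e2 hb hb0] with τ h1 h2 h3
    unfold ww
    rw [Real.log_div (by positivity) (by positivity), Real.log_mul h2.ne' h3.ne', Real.log_pow]
    push_cast
    ring
  refine ⟨_, rj_eq (h.congr hev) ?_ rfl ?_⟩
  · unfold ww
    rw [ha0, hb0]
    simp only [norm_zero, ne_eq, OfNat.ofNat_ne_zero, not_false_eq_true, zero_pow, sub_zero,
      mul_one, div_one]
    rw [Real.log_pow]
    push_cast
    ring
  · ring

/-- Wronskians: `x11 x22 - x21 x12 = 1`. -/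
theorem det_one (hA : QB A q) (hB : QB B q) {x11 x12 x21 x22 : ℂ}
    (h11 : x11 = wdg (uu A 0) (uu B 0)) (h12 : x12 = wdg (uu A 0) (uu' B 0))
    (h21 : x21 = wdg (uu' A 0) (uu B 0)) (h22 : x22 = wdg (uu' A 0) (uu' B 0)) :
    x11 * x22 - x21 * x12 = 1 := by
  have h1 := hA.on.wr 0 mem0
  have h2 := hB.on.wr 0 mem0
  rw [h11, h12, h21, h22]
  simp only [wdg, uu, uu']
  linear_combination (B.y1 0 * B.y2' 0 - B.y1' 0 * B.y2 0) * h1 + h2

end Pool.Agent.MP_ae5b4e_an_NB4
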