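import Pool.Agent.Lib.MP_ae5b4e_an_NB4.AlgN

/-!
# MP_ae5b4e_an, NB_4, module Gg: the functions `gg`, `XX` and the constants
-/

noncomputable section

namespace Pool.Agent.MP_ae5b4e_an_NB4

open Complex Set Filter Topology Metric

variable {q : ℝ}

/-- the derivative of `G0` -/
def G1 (x : ℝ) : ℝ := if x ≤ 0 then 0 else if x ≤ 1 then 3 * x ^ 2 - 2 * x ^ 3 else 1

/-- the second derivative of `G0` -/
def G2 (x : ℝ) : ℝ := if x ≤ 0 then 0 else if x ≤ 1 then 6 * x - 6 * x ^ 2 else 0

/-- the derivatives of `gg` -/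
def g1 (q s : ℝ) : ℝ := G1 ((s - M0 q) / Lc q)
def g2 (q s : ℝ) : ℝ := G2 ((s - M0 q) / Lc q) / Lc q

theorem CW_pos (hq : 0 < q) : 0 < CW q := by
  have h := lamq_pos q
  unfold CW
  positivity

theorem C6_pos (hq : 0 < q) : 0 < C6 q := by
  have h := CW_pos hq
  unfold C6
  positivity

theorem CP_pos (hq : 0 < q) : 0 < CP q := by
  have h := lamq_pos q
  unfold CP
  positivity

/-- `Cmu q = (1 + l + l q)² ≥ 1`. -/
theorem Cmu_ge (hq : 0 < q) : 1 ≤ Cmu q := by
  have h := lamq_pos q
  have hs : 0 < Real.sqrt (lamq q) := Real.sqrt_pos.2 h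
  have hs2 : Real.sqrt (lamq q) * Real.sqrt (lamq q) = lamq q := Real.mul_self_sqrt h.le
  have h1 : Real.sqrt (lamq q) * CT q = 1 + lamq q + lamq q * q := by
    unfold CT
    field_simp
    nlinarith
  unfold Cmu
  rw [h1]
  have h2 : 0 ≤ lamq q * q := by positivity
  nlinarith

theorem C5_pos (hq : 0 < q) : 0 < C5 q := by
  have h := lamq_pos q
  have h1 := CP_pos hq
  have h2 : 0 < Cmu q := lt_of_lt_of_le one_pos (Cmu_ge hq)
  unfold C5
  positivity

private theorem glue_le {f g h : ℝ → ℝ} {x d : ℝ} {c : ℝ} (hc : x = c) (hfg : f c = g c)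
    (h1 : HasDerivAt f d x) (h2 : HasDerivAt g d x)
    (hh1 : ∀ᶠ y in 𝓝 x, y ≤ c → h y = f y) (hh2 : ∀ᶠ y in 𝓝 x, c < y → h y = g y) :
    HasDerivAt h d x := by
  subst hc
  have ha : HasDerivWithinAt h d (Iic x) x := by
    refine (h1.hasDerivWithinAt (s := Iic x)).congr_of_eventuallyEq ?_ ?_
    · filter_upwards [nhdsWithin_le_nhds hh1, self_mem_nhdsWithin] with y hy1 hy2
      exact hy1 hy2
    · exact hh1.self_of_nhds le_rfl
  have hb : HasDerivWithinAt h d (Ici x) x := by
    refine (h2.hasDerivWithinAt (s := Ici x)).congr_of_eventuallyEq ?_ ?_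
    · filter_upwards [nhdsWithin_le_nhds hh1, nhdsWithin_le_nhds hh2, self_mem_nhdsWithin]
        with y hy1 hy2 hy3
      rcases eq_or_lt_of_le (show x ≤ y from hy3) with h | h
      · subst h
        rw [hy1 le_rfl, hfg]
      · exact hy2 h
    · rw [hh1.self_of_nhds le_rfl, hfg]
  have := ha.union hb
  rwa [Iic_union_Ici, hasDerivWithinAt_univ] at this

private theorem poly_deriv (x : ℝ) :
    HasDerivAt (fun x : ℝ => x ^ 3 - x ^ 4 / 2) (3 * x ^ 2 - 2 * x ^ 3) x := by
  have h := ((hasDerivAt_id x).pow 3).sub (((hasDerivAt_id x).pow 4).div_const 2)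
  refine h.congr_deriv ?_
  simp
  ring

private theorem poly_deriv2 (x : ℝ) :
    HasDerivAt (fun x : ℝ => 3 * x ^ 2 - 2 * x ^ 3) (6 * x - 6 * x ^ 2) x := by
  have h := (((hasDerivAt_id x).pow 2).const_mul 3).sub (((hasDerivAt_id x).pow 3).const_mul 2)
  refine h.congr_deriv ?_
  simp
  ring

theorem hasDerivAt_G0 (x : ℝ) : HasDerivAt G0 (G1 x) x := by
  rcases lt_trichotomy x 0 with hx | hx | hx
  · have : G1 x = 0 := by simp [G1, hx.le]
    rw [this]
    refine (hasDerivAt_const x (0:ℝ)).congr_of_eventuallyEq ?_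
    filter_upwards [Iio_mem_nhds hx] with y hy
    have : y ≤ 0 := le_of_lt hy
    simp [G0, this]
  · have : G1 x = 0 := by simp [G1, hx.le]
    rw [this]
    refine glue_le (f := fun _ => 0) (g := fun x => x ^ 3 - x ^ 4 / 2) (c := 0) hx (by norm_num)
      (hasDerivAt_const x (0:ℝ)) ?_ ?_ ?_
    · have := poly_deriv x
      rw [hx] at this ⊢
      simpa using this
    · filter_upwards with y hy
      simp [G0, hy]
    · rw [hx]
      filter_upwards [Iio_mem_nhds (show (0:ℝ) < 1 by norm_num)] with y hy hy0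
      simp [G0, not_le.2 hy0, le_of_lt (show y < 1 from hy)]
  · rcases lt_trichotomy x 1 with hx1 | hx1 | hx1
    · have : G1 x = 3 * x ^ 2 - 2 * x ^ 3 := by simp [G1, not_le.2 hx, hx1.le]
      rw [this]
      refine (poly_deriv x).congr_of_eventuallyEq ?_
      filter_upwards [Ioo_mem_nhds hx hx1] with y hy
      simp [G0, not_le.2 hy.1, hy.2.le]
    · have : G1 x = 1 := by
        rw [hx1]
        norm_num [G1]
      rw [this]
      refine glue_le (f := fun x => x ^ 3 - x ^ 4 / 2) (g := fun x => x - 1 / 2) (c := 1) hx1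
        (by norm_num) ?_ ?_ ?_ ?_
      · have := poly_deriv x
        rw [hx1] at this ⊢
        convert this using 1
        norm_num
      · exact (hasDerivAt_id x).sub_const _
      · filter_upwards [Ioi_mem_nhds hx] with y hy hy1
        simp [G0, not_le.2 (show (0:ℝ) < y from hy), hy1]
      · filter_upwards with y hy
        simp [G0, not_le.2 (lt_trans one_pos hy), not_le.2 hy]
    · have : G1 x = 1 := by simp [G1, not_le.2 hx, not_le.2 hx1]
      rw [this]
      refine ((hasDerivAt_id x).sub_const (1 / 2)).congr_of_eventuallyEq ?_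
      filter_upwards [Ioi_mem_nhds hx1] with y hy
      have hy1 : (1:ℝ) < y := hy
      simp [G0, not_le.2 (lt_trans one_pos hy1), not_le.2 hy1]

theorem hasDerivAt_G1 (x : ℝ) : HasDerivAt G1 (G2 x) x := by
  rcases lt_trichotomy x 0 with hx | hx | hx
  · have : G2 x = 0 := by simp [G2, hx.le]
    rw [this]
    refine (hasDerivAt_const x (0:ℝ)).congr_of_eventuallyEq ?_
    filter_upwards [Iio_mem_nhds hx] with y hy
    have : y ≤ 0 := le_of_lt hy
    simp [G1, this]
  · have : G2 x = 0 := by simp [G2, hx.le]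
    rw [this]
    refine glue_le (f := fun _ => 0) (g := fun x => 3 * x ^ 2 - 2 * x ^ 3) (c := 0) hx
      (by norm_num) (hasDerivAt_const x (0:ℝ)) ?_ ?_ ?_
    · have := poly_deriv2 x
      rw [hx] at this ⊢
      simpa using this
    · filter_upwards with y hy
      simp [G1, hy]
    · rw [hx]
      filter_upwards [Iio_mem_nhds (show (0:ℝ) < 1 by norm_num)] with y hy hy0
      simp [G1, not_le.2 hy0, le_of_lt (show y < 1 from hy)]
  · rcases lt_trichotomy x 1 with hx1 | hx1 | hx1
    · have : G2 x = 6 * x - 6 * x ^ 2 := by simp [G2, not_le.2 hx, hx1.le]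
      rw [this]
      refine (poly_deriv2 x).congr_of_eventuallyEq ?_
      filter_upwards [Ioo_mem_nhds hx hx1] with y hy
      simp [G1, not_le.2 hy.1, hy.2.le]
    · have : G2 x = 0 := by
        rw [hx1]
        norm_num [G2]
      rw [this]
      refine glue_le (f := fun x => 3 * x ^ 2 - 2 * x ^ 3) (g := fun _ => 1) (c := 1) hx1
        (by norm_num) ?_ ?_ ?_ ?_
      · have := poly_deriv2 x
        rw [hx1] at this ⊢
        convert this using 1
        norm_num
      · exact hasDerivAt_const x (1:ℝ)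
      · filter_upwards [Ioi_mem_nhds hx] with y hy hy1
        simp [G1, not_le.2 (show (0:ℝ) < y from hy), hy1]
      · filter_upwards with y hy
        simp [G1, not_le.2 (lt_trans one_pos hy), not_le.2 hy]
    · have : G2 x = 0 := by simp [G2, not_le.2 hx, not_le.2 hx1]
      rw [this]
      refine (hasDerivAt_const x (1:ℝ)).congr_of_eventuallyEq ?_
      filter_upwards [Ioi_mem_nhds hx1] with y hy
      have hy1 : (1:ℝ) < y := hy
      simp [G1, not_le.2 (lt_trans one_pos hy1), not_le.2 hy1]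

private theorem Lc_pos (hq : 0 < q) : 0 < Lc q := by
  have := C6_pos hq
  unfold Lc
  positivity

private theorem M0_pos (hq : 0 < q) : 0 < M0 q := by
  unfold M0
  refine Real.log_pos ?_
  have := Cmu_ge hq
  linarith

private theorem lin_deriv (q s : ℝ) :
    HasDerivAt (fun s : ℝ => (s - M0 q) / Lc q) (1 / Lc q) s :=
  ((hasDerivAt_id s).sub_const (M0 q)).div_const (Lc q)

theorem hasDerivAt_gg (hq : 0 < q) (s : ℝ) : HasDerivAt (gg q) (g1 q s) s := by
  have hL := Lc_pos hq
  have h := ((hasDerivAt_G0 ((s - M0 q) / Lc q)).comp s (lin_deriv q s)).const_mul (Lc q)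
  refine h.congr_deriv ?_
  unfold g1
  field_simp

theorem hasDerivAt_g1 (hq : 0 < q) (s : ℝ) : HasDerivAt (g1 q) (g2 q s) s := by
  have h := ((hasDerivAt_G1 ((s - M0 q) / Lc q)).comp s (lin_deriv q s))
  refine h.congr_deriv ?_
  unfold g2
  ring

private theorem G1_mem (x : ℝ) : G1 x ∈ Icc (0:ℝ) 1 := by
  unfold G1
  split_ifs with h1 h2
  · simp
  · push Not at h1
    constructor
    · nlinarith [sq_nonneg x, mul_nonneg (sq_nonneg x) (show 0 ≤ 1 - x by linarith)]
    · nlinarith [mul_nonneg (sq_nonneg (1 - x)) (show 0 ≤ 1 + 2 * x by linarith)]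
  · simp

private theorem G2_mem (x : ℝ) : G2 x ∈ Icc (0:ℝ) (3 / 2) := by
  unfold G2
  split_ifs with h1 h2
  · norm_num
  · push Not at h1
    constructor
    · nlinarith
    · nlinarith [sq_nonneg (x - 1 / 2)]
  · norm_num

theorem g1_mem (q s : ℝ) : g1 q s ∈ Icc (0:ℝ) 1 := G1_mem _

/-- `G2 ≤ 3 / 2`, `Lc = 6 C6`. -/
theorem g2_mem (hq : 0 < q) (s : ℝ) : g2 q s ∈ Icc (0:ℝ) (1 / (4 * C6 q)) := by
  have h := G2_mem ((s - M0 q) / Lc q)
  have hL := Lc_pos hq
  have h6 := C6_pos hq
  unfold g2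
  constructor
  · exact div_nonneg h.1 hL.le
  · calc G2 ((s - M0 q) / Lc q) / Lc q ≤ (3 / 2) / Lc q := by gcongr; exact h.2
      _ = 1 / (4 * C6 q) := by
        unfold Lc
        field_simp
        norm_num

theorem g1_ne (hq : 0 < q) {s : ℝ} (h : g1 q s ≠ 0) : M0 q < s := by
  by_contra hs
  push Not at hs
  apply h
  have : (s - M0 q) / Lc q ≤ 0 := div_nonpos_of_nonpos_of_nonneg (by linarith) (Lc_pos hq).le
  simp [g1, G1, this]

private theorem G0_nonneg (x : ℝ) : 0 ≤ G0 x := by
  unfold G0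
  split_ifs with h1 h2
  · exact le_rfl
  · push Not at h1
    have : 0 ≤ x ^ 3 * (1 - x / 2) := mul_nonneg (by positivity) (by linarith)
    nlinarith
  · linarith

theorem gg_nonneg (hq : 0 < q) (s : ℝ) : 0 ≤ gg q s :=
  mul_nonneg (Lc_pos hq).le (G0_nonneg _)

/-- `G0` is monotone and 1-Lipschitz -/
theorem gg_lip (hq : 0 < q) (s t : ℝ) (hst : s ≤ t) :
    gg q s ≤ gg q t ∧ gg q t ≤ gg q s + (t - s) := by
  have hd : Differentiable ℝ (gg q) := fun x => (hasDerivAt_gg hq x).differentiableAt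
  constructor
  · refine monotone_of_deriv_nonneg hd (fun x => ?_) hst
    rw [(hasDerivAt_gg hq x).deriv]
    exact (g1_mem q x).1
  · have hm : Monotone (fun x => x - gg q x) := by
      refine monotone_of_deriv_nonneg (differentiable_id.sub hd) (fun x => ?_)
      have := ((hasDerivAt_id x).sub (hasDerivAt_gg hq x)).deriv
      have h2 : deriv (fun x => x - gg q x) x = 1 - g1 q x := this
      rw [h2]
      linarith [(g1_mem q x).2]
    have := hm hst
    simp only at this
    linarith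

/-- `gg q s ≤ s` if `gg q s > 0`, because `M0 q ≥ log 8 > 0` (`Cmu q ≥ 1`) and `G0 x ≤ x`. -/
theorem gg_le (hq : 0 < q) {s : ℝ} (hs : 0 < gg q s) : gg q s ≤ s := by
  have h0 : ∀ s ≤ M0 q, gg q s = 0 := by
    intro s hs
    have : (s - M0 q) / Lc q ≤ 0 := div_nonpos_of_nonpos_of_nonneg (by linarith) (Lc_pos hq).le
    simp [gg, G0, this]
  have h1 : M0 q < s := by
    by_contra h
    push Not at h
    rw [h0 s h] at hs
    exact lt_irrefl _ hs
  have h2 := (gg_lip hq (M0 q) s h1.le).2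
  rw [h0 (M0 q) le_rfl] at h2
  linarith [M0_pos hq]

theorem gg_cont (hq : 0 < q) : Continuous (gg q) :=
  continuous_iff_continuousAt.2 fun x => (hasDerivAt_gg hq x).continuousAt

private theorem G0_ge (x : ℝ) : x - 1 / 2 ≤ G0 x := by
  unfold G0
  split_ifs with h1 h2
  · linarith
  · push Not at h1
    have h3 : 0 ≤ (1 - x) ^ 3 * (1 + x) := mul_nonneg (pow_nonneg (by linarith) 3) (by linarith)
    nlinarith
  · exact le_rfl

/-- `w ≤ W` implies `1 ≤ XX`: `G0 x ≥ x - 1 / 2`. -/
theorem XX_ge (hq : 0 < q) {w W : ℝ} (hwW : w ≤ W) : 1 ≤ XX q w W := by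
  have hL := Lc_pos hq
  have h := G0_ge ((W - M0 q) / Lc q)
  have h1 : W - M0 q - Lc q / 2 ≤ gg q W := by
    unfold gg
    calc W - M0 q - Lc q / 2 = Lc q * ((W - M0 q) / Lc q - 1 / 2) := by field_simp
      _ ≤ _ := by gcongr
  unfold XX
  linarith

end Pool.Agent.MP_ae5b4e_an_NB4
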