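import Pool.Agent.Lib.MP_ae5b4e_an_NB4.Win
import Pool.Agent.Lib.MP_ae5b4e_an_NB4.AlgN

/-!
# MP_ae5b4e_an, NB_4, module Harn: Harnack inequality for `NN`
-/

noncomputable section

namespace Pool.Agent.MP_ae5b4e_an_NB4

open Complex Set Filter Topology Metric
open Pool.Agent.MP_ae5b4e_an_NB2 (Sys)
open scoped ComplexConjugate

variable {q : ℝ}

private theorem gron {K r : ℝ} (hK : 1 ≤ K) (hr : r < 1) {Q f g : ℂ → ℂ}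
    (hf : ∀ z ∈ ball (0:ℂ) 1, HasDerivAt f (g z) z)
    (hg : ∀ z ∈ ball (0:ℂ) 1, HasDerivAt g (-(Q z * f z)) z)
    (hQ : ∀ z : ℂ, ‖z‖ ≤ r → ‖Q z‖ ≤ K) (h0 : ‖f 0‖ ≤ 1) (h0' : ‖g 0‖ ≤ 1)
    {z : ℂ} (hz : ‖z‖ ≤ r) : ‖f z‖ ≤ Real.exp K ∧ ‖g z‖ ≤ Real.exp K := by
  have hz1 : ‖z‖ ≤ 1 := hz.trans hr.le
  have hin : ∀ x : ℝ, x ∈ Icc (0:ℝ) 1 → ‖(x:ℂ) * z‖ ≤ r := by
    intro x hx
    rw [norm_mul, Complex.norm_real, Real.norm_of_nonneg hx.1]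
    calc x * ‖z‖ ≤ 1 * ‖z‖ := by gcongr; exact hx.2
      _ ≤ r := by rw [one_mul]; exact hz
  have hball : ∀ x : ℝ, x ∈ Icc (0:ℝ) 1 → (x:ℂ) * z ∈ ball (0:ℂ) 1 := by
    intro x hx
    rw [mem_ball_zero_iff]
    exact lt_of_le_of_lt (hin x hx) hr
  have hlin : ∀ x : ℝ, HasDerivAt (fun x : ℝ => (x:ℂ) * z) z x := by
    intro x
    simpa using (Complex.ofRealCLM.hasDerivAt (x := x)).mul_const z
  have hd : ∀ x : ℝ, x ∈ Icc (0:ℝ) 1 →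
      HasDerivAt (fun x : ℝ => (f ((x:ℂ) * z), g ((x:ℂ) * z)))
        (g ((x:ℂ) * z) * z, -(Q ((x:ℂ) * z) * f ((x:ℂ) * z)) * z) x := by
    intro x hx
    have h1 := (hf _ (hball x hx)).comp x (hlin x)
    have h2 := (hg _ (hball x hx)).comp x (hlin x)
    exact h1.prodMk h2
  have h := norm_le_gronwallBound_of_norm_deriv_right_le
    (f := fun x : ℝ => (f ((x:ℂ) * z), g ((x:ℂ) * z)))
    (f' := fun x : ℝ => (g ((x:ℂ) * z) * z, -(Q ((x:ℂ) * z) * f ((x:ℂ) * z)) * z))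
    (δ := 1) (K := K) (ε := 0) (a := 0) (b := 1)
    (fun x hx => (hd x hx).continuousAt.continuousWithinAt)
    (fun x hx => (hd x ⟨hx.1, hx.2.le⟩).hasDerivWithinAt) ?_ ?_ 1 ⟨zero_le_one, le_rfl⟩
  · rw [gronwallBound_ε0] at h
    simp only [Complex.ofReal_one, one_mul, sub_zero, mul_one] at h
    exact ⟨(norm_fst_le _).trans h, (norm_snd_le _).trans h⟩
  · simp only [Complex.ofReal_zero, zero_mul]
    exact max_le h0 h0'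
  · intro x hx
    have hx' : x ∈ Icc (0:ℝ) 1 := ⟨hx.1, hx.2.le⟩
    have hK0 : 0 ≤ K := by linarith
    have n1 : ‖f ((x:ℂ) * z)‖ ≤ ‖(f ((x:ℂ) * z), g ((x:ℂ) * z))‖ :=
      norm_fst_le (f ((x:ℂ) * z), g ((x:ℂ) * z))
    have n2 : ‖g ((x:ℂ) * z)‖ ≤ ‖(f ((x:ℂ) * z), g ((x:ℂ) * z))‖ :=
      norm_snd_le (f ((x:ℂ) * z), g ((x:ℂ) * z))
    set N := ‖(f ((x:ℂ) * z), g ((x:ℂ) * z))‖
    have hN : 0 ≤ N := (norm_nonneg _).trans n1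
    rw [add_zero]
    refine max_le ?_ ?_
    · simp only
      rw [norm_mul]
      calc ‖g ((x:ℂ) * z)‖ * ‖z‖ ≤ N * 1 := by gcongr
        _ = 1 * N := by ring
        _ ≤ K * N := by gcongr
    · simp only
      rw [norm_mul, norm_neg, norm_mul]
      calc ‖Q ((x:ℂ) * z)‖ * ‖f ((x:ℂ) * z)‖ * ‖z‖ ≤ K * N * 1 := by
            gcongr
            exact hQ _ (hin x hx')
        _ = K * N := by ring

/-- Gronwall along the segment `[0, z]`, `|z| ≤ r`: `|Q| ≤ q / (1 - r²)²` there, so the solutions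
with initial values `(1, 0)`, `(0, 1)` are bounded by `C(q, r)`: `uu Y z = m₁ uu Y 0 + m₂ uu' Y 0`,
`tu Y z = m₃ uu Y 0 + m₄ uu' Y 0` with bounded coefficients.
(`m₁ = Y.c z 0`, `m₂ = Y.s z 0`; apply `norm_le_gronwallBound_of_norm_deriv_right_le` to
`x ↦ (Y.c (x z) 0, Y.cd (x z) 0)`, `x ∈ [0, 1]`.) -/
theorem frame_bound (hq : 0 < q) {r : ℝ} (hr0 : 0 ≤ r) (hr : r < 1) : ∃ C ≥ 1, ∀ Y : Sys, QB Y q →
    ∀ z : ℂ, ‖z‖ ≤ r → ∃ m₁ m₂ m₃ m₄ : ℂ, ‖m₁‖ ≤ C ∧ ‖m₂‖ ≤ C ∧ ‖m₃‖ ≤ C ∧ ‖m₄‖ ≤ C ∧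
      uu Y z = m₁ • uu Y 0 + m₂ • uu' Y 0 ∧ tu Y z = m₃ • uu Y 0 + m₄ • uu' Y 0 := by
  have hr2 : 0 < 1 - r ^ 2 := by nlinarith
  set K : ℝ := max 1 (q / (1 - r ^ 2) ^ 2) with hKdef
  have hK1 : 1 ≤ K := le_max_left _ _
  have hE : 1 ≤ Real.exp K := Real.one_le_exp (by linarith)
  refine ⟨2 * Real.exp K, by linarith, fun Y hY z hz => ?_⟩
  have h0 : (0:ℂ) ∈ ball (0:ℂ) 1 := by simp
  have hz1 : ‖z‖ ≤ 1 := hz.trans hr.le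
  have hzb : z ∈ ball (0:ℂ) 1 := by
    rw [mem_ball_zero_iff]
    linarith
  have hQ : ∀ z : ℂ, ‖z‖ ≤ r → ‖Y.Q z‖ ≤ K := by
    intro z hz
    have hb := hY.bd z (by rw [mem_ball_zero_iff]; linarith)
    refine le_trans ?_ (le_max_right _ _)
    rw [le_div_iff₀ (by positivity)]
    refine le_trans ?_ hb
    have : 1 - r ^ 2 ≤ 1 - ‖z‖ ^ 2 := by
      have : ‖z‖ ^ 2 ≤ r ^ 2 := by gcongr
      linarith
    gcongr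
  have hw0 := hY.on.wr 0 h0
  -- the two solutions
  have Hc := gron (Q := Y.Q) (f := fun z => Y.y2' 0 * Y.y1 z - Y.y1' 0 * Y.y2 z)
    (g := fun z => Y.y2' 0 * Y.y1' z - Y.y1' 0 * Y.y2' z) hK1 hr
    (fun z hz => ((hY.on.d1 z hz).const_mul _).sub ((hY.on.d2 z hz).const_mul _))
    (fun z hz => (((hY.on.d1' z hz).const_mul _).sub ((hY.on.d2' z hz).const_mul _)).congr_deriv
      (by ring)) hQ (by
        have : Y.y2' 0 * Y.y1 0 - Y.y1' 0 * Y.y2 0 = 1 := by rw [← hw0]; ring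
        simp [this]) (by
        have : Y.y2' 0 * Y.y1' 0 - Y.y1' 0 * Y.y2' 0 = 0 := by ring
        simp [this]) hz
  have Hs := gron (Q := Y.Q) (f := fun z => Y.y1 0 * Y.y2 z - Y.y2 0 * Y.y1 z)
    (g := fun z => Y.y1 0 * Y.y2' z - Y.y2 0 * Y.y1' z) hK1 hr
    (fun z hz => ((hY.on.d2 z hz).const_mul _).sub ((hY.on.d1 z hz).const_mul _))
    (fun z hz => (((hY.on.d2' z hz).const_mul _).sub ((hY.on.d1' z hz).const_mul _)).congr_deriv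
      (by ring)) hQ (by
        have : Y.y1 0 * Y.y2 0 - Y.y2 0 * Y.y1 0 = 0 := by ring
        simp [this]) (by
        have : Y.y1 0 * Y.y2' 0 - Y.y2 0 * Y.y1' 0 = 1 := by rw [← hw0]; ring
        simp [this]) hz
  set c := Y.y2' 0 * Y.y1 z - Y.y1' 0 * Y.y2 z with hc
  set c' := Y.y2' 0 * Y.y1' z - Y.y1' 0 * Y.y2' z with hc'
  set s := Y.y1 0 * Y.y2 z - Y.y2 0 * Y.y1 z with hs
  set s' := Y.y1 0 * Y.y2' z - Y.y2 0 * Y.y1' z with hs'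
  have comb : ∀ u v : ℂ, ‖u‖ ≤ Real.exp K → ‖v‖ ≤ Real.exp K →
      ‖((1 - ‖z‖ ^ 2 : ℝ) : ℂ) * u + conj z * v‖ ≤ 2 * Real.exp K := by
    intro u v hu hv
    refine (norm_add_le _ _).trans ?_
    rw [norm_mul, norm_mul, Complex.norm_real, Complex.norm_conj]
    have h1 : ‖(1 - ‖z‖ ^ 2 : ℝ)‖ ≤ 1 := by
      have : ‖z‖ ^ 2 ≤ 1 := by nlinarith [norm_nonneg z]
      rw [Real.norm_of_nonneg (by linarith)]
      nlinarith [sq_nonneg ‖z‖]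
    calc ‖(1 - ‖z‖ ^ 2 : ℝ)‖ * ‖u‖ + ‖z‖ * ‖v‖ ≤ 1 * Real.exp K + 1 * Real.exp K := by gcongr
      _ = _ := by ring
  have e1 : Y.y1 z = c * Y.y1 0 + s * Y.y1' 0 := by
    rw [hc, hs]
    linear_combination (-Y.y1 z) * hw0
  have e2 : Y.y2 z = c * Y.y2 0 + s * Y.y2' 0 := by
    rw [hc, hs]
    linear_combination (-Y.y2 z) * hw0
  have e3 : Y.y1' z = c' * Y.y1 0 + s' * Y.y1' 0 := by
    rw [hc', hs']
    linear_combination (-Y.y1' z) * hw0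
  have e4 : Y.y2' z = c' * Y.y2 0 + s' * Y.y2' 0 := by
    rw [hc', hs']
    linear_combination (-Y.y2' z) * hw0
  refine ⟨c, s, ((1 - ‖z‖ ^ 2 : ℝ) : ℂ) * c' + conj z * c, ((1 - ‖z‖ ^ 2 : ℝ) : ℂ) * s' + conj z * s,
    by linarith [Hc.1], by linarith [Hs.1], comb _ _ Hc.2 Hc.1, comb _ _ Hs.2 Hs.1, ?_, ?_⟩
  · ext
    · simpa [uu, uu'] using e1
    · simpa [uu, uu'] using e2
  · ext
    · simp only [tu, uu, uu', Prod.fst_add, Prod.smul_fst, smul_eq_mul]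
      rw [e1, e3]
      ring
    · simp only [tu, uu, uu', Prod.snd_add, Prod.smul_snd, smul_eq_mul]
      rw [e2, e4]
      ring

private theorem four_sq {C₁ : ℝ} (hC : 0 ≤ C₁) {a b c d A B C D : ℂ} (ha : ‖a‖ ≤ C₁) (hb : ‖b‖ ≤ C₁)
    (hc : ‖c‖ ≤ C₁) (hd : ‖d‖ ≤ C₁) :
    ‖a * c * A + a * d * B + b * c * C + b * d * D‖ ^ 2 ≤
      4 * C₁ ^ 4 * (‖A‖ ^ 2 + ‖B‖ ^ 2 + ‖C‖ ^ 2 + ‖D‖ ^ 2) := by
  have h1 : ‖a * c * A + a * d * B + b * c * C + b * d * D‖ ≤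
      C₁ ^ 2 * (‖A‖ + ‖B‖ + ‖C‖ + ‖D‖) := by
    calc ‖a * c * A + a * d * B + b * c * C + b * d * D‖
        ≤ ‖a * c * A‖ + ‖a * d * B‖ + ‖b * c * C‖ + ‖b * d * D‖ := by
          refine (norm_add_le _ _).trans ?_
          gcongr
          refine (norm_add_le _ _).trans ?_
          gcongr
          exact norm_add_le _ _
      _ ≤ C₁ * C₁ * ‖A‖ + C₁ * C₁ * ‖B‖ + C₁ * C₁ * ‖C‖ + C₁ * C₁ * ‖D‖ := by
          simp only [norm_mul]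
          gcongr
      _ = _ := by ring
  have h2 : (‖A‖ + ‖B‖ + ‖C‖ + ‖D‖) ^ 2 ≤ 4 * (‖A‖ ^ 2 + ‖B‖ ^ 2 + ‖C‖ ^ 2 + ‖D‖ ^ 2) := by
    nlinarith [sq_nonneg (‖A‖ - ‖B‖), sq_nonneg (‖A‖ - ‖C‖), sq_nonneg (‖A‖ - ‖D‖),
      sq_nonneg (‖B‖ - ‖C‖), sq_nonneg (‖B‖ - ‖D‖), sq_nonneg (‖C‖ - ‖D‖)]
  calc ‖a * c * A + a * d * B + b * c * C + b * d * D‖ ^ 2
      ≤ (C₁ ^ 2 * (‖A‖ + ‖B‖ + ‖C‖ + ‖D‖)) ^ 2 := by gcongr
    _ = C₁ ^ 4 * (‖A‖ + ‖B‖ + ‖C‖ + ‖D‖) ^ 2 := by ring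
    _ ≤ C₁ ^ 4 * (4 * (‖A‖ ^ 2 + ‖B‖ ^ 2 + ‖C‖ ^ 2 + ‖D‖ ^ 2)) := by gcongr
    _ = _ := by ring

private theorem wdg_comb (a b c d : ℂ) (u v x y : ℂ × ℂ) :
    wdg (a • u + b • v) (c • x + d • y) =
      a * c * wdg u x + a * d * wdg u y + b * c * wdg v x + b * d * wdg v y := by
  simp only [wdg, Prod.fst_add, Prod.snd_add, Prod.smul_fst, Prod.smul_snd, smul_eq_mul]
  ring

/-- Harnack inequality.  By `NN_win`, `exists_mob` and `qb_win` we may assume `z' = w' = 0`.  Then the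
four determinants at `(z, w)` are sums of four terms, each the product of two of the coefficients of
`frame_bound` with one of the four determinants at `(0, 0)` (`tu Y 0 = uu' Y 0`). -/
theorem nn_harnack (hq : 0 < q) {r : ℝ} (hr0 : 0 ≤ r) (hr : r < 1) : ∃ C ≥ 1, ∀ A B : Sys, QB A q →
    QB B q → ∀ z ∈ ball (0:ℂ) 1, ∀ w ∈ ball (0:ℂ) 1, ∀ z' ∈ ball (0:ℂ) 1, ∀ w' ∈ ball (0:ℂ) 1,
    ‖(z - z') / (1 - conj z' * z)‖ ≤ r → ‖(w - w') / (1 - conj w' * w)‖ ≤ r →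
    NN (lamq q) A B z w ≤ C * NN (lamq q) A B z' w' := by
  obtain ⟨C₁, hC₁, hF⟩ := frame_bound hq hr0 hr
  have hr2 : 0 < 1 - r ^ 2 := by nlinarith
  have hr3 : 1 - r ^ 2 ≤ 1 := by nlinarith [sq_nonneg r]
  have hl := lamq_pos q
  have hl1 : lamq q ≤ 1 := by
    unfold lamq
    rw [div_le_one (by positivity)]
    nlinarith [sq_nonneg q]
  set l := lamq q with hldef
  refine ⟨16 * C₁ ^ 4 / ((1 - r ^ 2) ^ 2 * l ^ 2), ?_, ?_⟩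
  · rw [ge_iff_le, le_div_iff₀ (by positivity)]
    have h1 : (1 - r ^ 2) ^ 2 ≤ 1 := pow_le_one₀ hr2.le hr3
    have h2 : l ^ 2 ≤ 1 := pow_le_one₀ hl.le hl1
    have h3 : 1 ≤ C₁ ^ 4 := one_le_pow₀ hC₁
    have h4 : (1 - r ^ 2) ^ 2 * l ^ 2 ≤ 1 := mul_le_one₀ h1 (by positivity) h2
    linarith
  intro A B hA hB z hz w hw z' hz' w' hw' h1 h2
  obtain ⟨ζ, hζ, hζz⟩ := exists_mob hz hz' h1
  obtain ⟨ω, hω, hωw⟩ := exists_mob hw hw' h2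
  have h0 : (0:ℂ) ∈ ball (0:ℂ) 1 := by simp
  have hζ1 : ζ ∈ ball (0:ℂ) 1 := by
    rw [mem_ball_zero_iff]
    linarith
  have hω1 : ω ∈ ball (0:ℂ) 1 := by
    rw [mem_ball_zero_iff]
    linarith
  have e1 := NN_win (A := A) (B := B) l hz' hw' hζ1 hω1
  have e2 := NN_win (A := A) (B := B) l hz' hw' h0 h0
  rw [hζz, hωw] at e1
  have m0 : ∀ c : ℂ, mob c 0 = c := by
    intro c
    simp [mob]
  rw [m0, m0] at e2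
  rw [← e1, ← e2]
  have hA' := qb_win hA hz'
  have hB' := qb_win hB hw'
  obtain ⟨m₁, m₂, m₃, m₄, a1, a2, a3, a4, au, at'⟩ := hF _ hA' ζ hζ
  obtain ⟨n₁, n₂, n₃, n₄, b1, b2, b3, b4, bu, bt⟩ := hF _ hB' ω hω
  have t0 : ∀ Y : Sys, tu Y 0 = uu' Y 0 := by
    intro Y
    simp [tu, uu']
  set A' := win A z'
  set B' := win B w'
  unfold NN
  rw [au, at', bu, bt, t0, t0]
  simp only [wdg_comb]
  set X₁ := wdg (uu A' 0) (uu B' 0)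
  set X₂ := wdg (uu A' 0) (uu' B' 0)
  set X₃ := wdg (uu' A' 0) (uu B' 0)
  set X₄ := wdg (uu' A' 0) (uu' B' 0)
  have hC0 : 0 ≤ C₁ := by linarith
  have k1 := four_sq (A := X₁) (B := X₂) (C := X₃) (D := X₄) hC0 a1 a2 b1 b2
  have k2 := four_sq (A := X₁) (B := X₂) (C := X₃) (D := X₄) hC0 a3 a4 b1 b2
  have k3 := four_sq (A := X₁) (B := X₂) (C := X₃) (D := X₄) hC0 a1 a2 b3 b4
  have k4 := four_sq (A := X₁) (B := X₂) (C := X₃) (D := X₄) hC0 a3 a4 b3 b4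
  set S := ‖X₁‖ ^ 2 + ‖X₂‖ ^ 2 + ‖X₃‖ ^ 2 + ‖X₄‖ ^ 2 with hS
  have hS0 : 0 ≤ S := by positivity
  set T := ‖X₁‖ ^ 2 + l * ‖X₃‖ ^ 2 + l * ‖X₂‖ ^ 2 + l ^ 2 * ‖X₄‖ ^ 2 with hT
  have hST : l ^ 2 * S ≤ T := by
    have g1 : l ^ 2 ≤ 1 := pow_le_one₀ hl.le hl1
    have g2 : l ^ 2 ≤ l := by nlinarith
    have q1 := mul_le_mul_of_nonneg_right g1 (sq_nonneg ‖X₁‖)
    have q2 := mul_le_mul_of_nonneg_right g2 (sq_nonneg ‖X₂‖)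
    have q3 := mul_le_mul_of_nonneg_right g2 (sq_nonneg ‖X₃‖)
    rw [hS, hT]
    linarith
  have hden : (1 - r ^ 2) ^ 2 ≤ (1 - ‖ζ‖ ^ 2) * (1 - ‖ω‖ ^ 2) := by
    have g1 : ‖ζ‖ ^ 2 ≤ r ^ 2 := by gcongr
    have g2 : ‖ω‖ ^ 2 ≤ r ^ 2 := by gcongr
    rw [sq (1 - r ^ 2)]
    apply mul_le_mul <;> linarith
  have hnum : ∀ p1 p2 p3 p4 : ℝ, p1 ≤ 4 * C₁ ^ 4 * S → p2 ≤ 4 * C₁ ^ 4 * S → p3 ≤ 4 * C₁ ^ 4 * S →
      p4 ≤ 4 * C₁ ^ 4 * S → p1 + l * p2 + l * p3 + l ^ 2 * p4 ≤ 16 * C₁ ^ 4 * S := by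
    intro p1 p2 p3 p4 g1 g2 g3 g4
    have g0 : 0 ≤ 4 * C₁ ^ 4 * S := by positivity
    have hl2 : l ^ 2 ≤ 1 := pow_le_one₀ hl.le hl1
    have f2 : l * p2 ≤ 4 * C₁ ^ 4 * S := by
      calc l * p2 ≤ l * (4 * C₁ ^ 4 * S) := by gcongr
        _ ≤ 1 * (4 * C₁ ^ 4 * S) := by gcongr
        _ = _ := one_mul _
    have f3 : l * p3 ≤ 4 * C₁ ^ 4 * S := by
      calc l * p3 ≤ l * (4 * C₁ ^ 4 * S) := by gcongr
        _ ≤ 1 * (4 * C₁ ^ 4 * S) := by gcongr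
        _ = _ := one_mul _
    have f4 : l ^ 2 * p4 ≤ 4 * C₁ ^ 4 * S := by
      calc l ^ 2 * p4 ≤ l ^ 2 * (4 * C₁ ^ 4 * S) := by gcongr
        _ ≤ 1 * (4 * C₁ ^ 4 * S) := by gcongr
        _ = _ := one_mul _
    linarith
  have hN := hnum _ _ _ _ k1 k2 k3 k4
  have hz0 : (1 - ‖(0:ℂ)‖ ^ 2) * (1 - ‖(0:ℂ)‖ ^ 2) = 1 := by simp
  rw [hz0, div_one]
  calc _ ≤ 16 * C₁ ^ 4 * S / ((1 - ‖ζ‖ ^ 2) * (1 - ‖ω‖ ^ 2)) := by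
        have : 0 < (1 - ‖ζ‖ ^ 2) * (1 - ‖ω‖ ^ 2) := lt_of_lt_of_le (by positivity) hden
        gcongr
    _ ≤ 16 * C₁ ^ 4 * S / (1 - r ^ 2) ^ 2 := by gcongr
    _ ≤ 16 * C₁ ^ 4 * (T / l ^ 2) / (1 - r ^ 2) ^ 2 := by
      gcongr
      rw [le_div_iff₀ (by positivity)]
      linarith
    _ = _ := by
      rw [hT]
      field_simp

end Pool.Agent.MP_ae5b4e_an_NB4
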