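import Pool.Agent.Lib.MP_ae5b4e_an_NB4.Defs

/-!
# MP_ae5b4e_an, NB_4, module JetA: complex jets of order two

`CJ f a b b' d` means `f τ = a + b τ + b' τ̄ + e τ² + e' τ̄² + d τ τ̄ + o(|τ|²)` for some `e, e'`.
All proofs: write out the quadratic remainder; products of two terms of total order `≥ 3` are
`O(|τ|³) = o(|τ|²)`.
-/

noncomputable section

namespace Pool.Agent.MP_ae5b4e_an_NB4

open Complex Set Filter Topology Metric Asymptotics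
open scoped ComplexConjugate

variable {f g : ℂ → ℂ} {a b b' d a₂ b₂ b₂' d₂ : ℂ}

private lemma jet_lin (b b' : ℂ) :
    (fun τ : ℂ => b * τ + b' * conj τ) =o[𝓝 0] (fun _ : ℂ => (1 : ℝ)) := by
  rw [isLittleO_one_iff]
  have hc : Continuous (fun τ : ℂ => b * τ + b' * conj τ) := by
    have := Complex.continuous_conj
    fun_prop
  have h := hc.tendsto 0
  simpa using h

private lemma jet_quad (e e' d : ℂ) :
    (fun τ : ℂ => e * τ ^ 2 + e' * conj τ ^ 2 + d * (τ * conj τ)) =O[𝓝 0]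
      (fun τ : ℂ => ‖τ‖ ^ 2) := by
  refine IsBigO.of_bound (‖e‖ + ‖e'‖ + ‖d‖) (Eventually.of_forall fun τ => ?_)
  have h1 : ‖e * τ ^ 2‖ = ‖e‖ * ‖τ‖ ^ 2 := by rw [norm_mul, norm_pow]
  have h2 : ‖e' * conj τ ^ 2‖ = ‖e'‖ * ‖τ‖ ^ 2 := by
    rw [norm_mul, norm_pow, RCLike.norm_conj]
  have h3 : ‖d * (τ * conj τ)‖ = ‖d‖ * ‖τ‖ ^ 2 := by
    rw [norm_mul, norm_mul, RCLike.norm_conj]; ring
  have h4 : ‖(‖τ‖ ^ 2 : ℝ)‖ = ‖τ‖ ^ 2 := by
    rw [Real.norm_of_nonneg (by positivity)]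
  calc ‖e * τ ^ 2 + e' * conj τ ^ 2 + d * (τ * conj τ)‖
      ≤ ‖e * τ ^ 2‖ + ‖e' * conj τ ^ 2‖ + ‖d * (τ * conj τ)‖ := norm_add₃_le
    _ = (‖e‖ + ‖e'‖ + ‖d‖) * ‖(‖τ‖ ^ 2 : ℝ)‖ := by rw [h1, h2, h3, h4]; ring

private lemma jet_sq_one : (fun τ : ℂ => ‖τ‖ ^ 2) =o[𝓝 0] (fun _ : ℂ => (1 : ℝ)) := by
  rw [isLittleO_one_iff]
  have hc : Continuous (fun τ : ℂ => ‖τ‖ ^ 2) := by fun_prop
  have h := hc.tendsto 0
  simpa using h

private lemma jet_poly_one (a b b' e e' d : ℂ) :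
    (fun τ : ℂ => a + b * τ + b' * conj τ + e * τ ^ 2 + e' * conj τ ^ 2 + d * (τ * conj τ))
      =O[𝓝 0] (fun _ : ℂ => (1 : ℝ)) := by
  have hc : Continuous (fun τ : ℂ => a + b * τ + b' * conj τ + e * τ ^ 2 + e' * conj τ ^ 2 +
      d * (τ * conj τ)) := by
    have := Complex.continuous_conj
    fun_prop
  exact (hc.tendsto 0).isBigO_one ℝ

private lemma oO {u v : ℂ → ℂ} (hu : u =o[𝓝 0] (fun _ : ℂ => (1 : ℝ)))
    (hv : v =O[𝓝 0] (fun τ : ℂ => ‖τ‖ ^ 2)) :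
    (fun τ => u τ * v τ) =o[𝓝 0] (fun τ : ℂ => ‖τ‖ ^ 2) := by
  have h := hu.mul_isBigO hv
  simpa using h

private lemma Oo {u v : ℂ → ℂ} (hu : u =O[𝓝 0] (fun _ : ℂ => (1 : ℝ)))
    (hv : v =o[𝓝 0] (fun τ : ℂ => ‖τ‖ ^ 2)) :
    (fun τ => u τ * v τ) =o[𝓝 0] (fun τ : ℂ => ‖τ‖ ^ 2) := by
  have h := hu.mul_isLittleO hv
  simpa using h

theorem CJ.congr (hf : CJ f a b b' d) (h : f =ᶠ[𝓝 0] g) : CJ g a b b' d := by
  obtain ⟨e, e', he⟩ := hf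
  refine ⟨e, e', he.congr' ?_ (EventuallyEq.refl _ _)⟩
  filter_upwards [h] with τ hτ
  rw [hτ]

/-- the remainder is `0` at `τ = 0` -/
theorem CJ.zero (hf : CJ f a b b' d) : f 0 = a := by
  obtain ⟨e, e', he⟩ := hf
  have h1 := (he.bound (c := 1) one_pos).self_of_nhds
  simp only [map_zero, mul_zero, add_zero, norm_zero] at h1
  have h2 : ‖f 0 - a‖ ≤ 0 := by simpa using h1
  have h3 : f 0 - a = 0 := by simpa using h2
  exact sub_eq_zero.1 h3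

theorem CJ.const (a : ℂ) : CJ (fun _ => a) a 0 0 0 := by
  refine ⟨0, 0, ?_⟩
  have : (fun τ : ℂ => a - (a + 0 * τ + 0 * conj τ + 0 * τ ^ 2 + 0 * conj τ ^ 2 +
      0 * (τ * conj τ))) = fun _ => (0 : ℂ) := by
    funext τ; ring
  rw [this]
  exact isLittleO_zero _ _

theorem CJ.add (hf : CJ f a b b' d) (hg : CJ g a₂ b₂ b₂' d₂) :
    CJ (fun τ => f τ + g τ) (a + a₂) (b + b₂) (b' + b₂') (d + d₂) := by
  obtain ⟨e, e', he⟩ := hf
  obtain ⟨e₂, e₂', he₂⟩ := hg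
  refine ⟨e + e₂, e' + e₂', (he.add he₂).congr_left fun τ => ?_⟩
  ring

theorem CJ.neg (hf : CJ f a b b' d) : CJ (fun τ => -f τ) (-a) (-b) (-b') (-d) := by
  obtain ⟨e, e', he⟩ := hf
  refine ⟨-e, -e', he.neg_left.congr_left fun τ => ?_⟩
  ring

theorem CJ.sub (hf : CJ f a b b' d) (hg : CJ g a₂ b₂ b₂' d₂) :
    CJ (fun τ => f τ - g τ) (a - a₂) (b - b₂) (b' - b₂') (d - d₂) := by
  have h := CJ.add hf (CJ.neg hg)
  simpa only [sub_eq_add_neg] using h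

theorem CJ.mul (hf : CJ f a b b' d) (hg : CJ g a₂ b₂ b₂' d₂) :
    CJ (fun τ => f τ * g τ) (a * a₂) (a * b₂ + b * a₂) (a * b₂' + b' * a₂)
      (a * d₂ + d * a₂ + (b * b₂' + b' * b₂)) := by
  obtain ⟨e, e', he⟩ := hf
  obtain ⟨e₂, e₂', he₂⟩ := hg
  refine ⟨a * e₂ + e * a₂ + b * b₂, a * e₂' + e' * a₂ + b' * b₂', ?_⟩
  have hL := jet_lin b b'
  have hL2 := jet_lin b₂ b₂'
  have hQ := jet_quad e e' d
  have hQ2 := jet_quad e₂ e₂' d₂
  have hQ1 : (fun τ : ℂ => e * τ ^ 2 + e' * conj τ ^ 2 + d * (τ * conj τ)) =o[𝓝 0]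
      (fun _ : ℂ => (1 : ℝ)) := hQ.trans_isLittleO jet_sq_one
  have hP := jet_poly_one a b b' e e' d
  have hP2 := jet_poly_one a₂ b₂ b₂' e₂ e₂' d₂
  have hR1 : (fun τ : ℂ => f τ - (a + b * τ + b' * conj τ + e * τ ^ 2 + e' * conj τ ^ 2 +
    d * (τ * conj τ))) =O[𝓝 0] (fun _ : ℂ => (1 : ℝ)) := (he.trans jet_sq_one).isBigO
  have t1 := oO hL hQ2
  have t2 := oO hL2 hQ
  have t3 := oO hQ1 hQ2
  have t4 := Oo hP he₂
  have t5 := Oo hP2 he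
  have t6 := Oo hR1 he₂
  refine (((((t1.add t2).add t3).add t4).add t5).add t6).congr_left fun τ => ?_
  ring

theorem CJ.cj (hf : CJ f a b b' d) :
    CJ (fun τ => conj (f τ)) (conj a) (conj b') (conj b) (conj d) := by
  obtain ⟨e, e', he⟩ := hf
  refine ⟨conj e', conj e, ?_⟩
  rw [← isLittleO_norm_left] at he ⊢
  refine he.congr_left fun τ => ?_
  rw [← RCLike.norm_conj]
  congr 1
  simp only [map_sub, map_add, map_mul, map_pow, Complex.conj_conj]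
  ring

/-- Taylor polynomial of order two of an analytic function -/
theorem CJ.of_analytic (hf : AnalyticAt ℂ f 0) : CJ f (f 0) (deriv f 0) 0 0 := by
  obtain ⟨p, hp⟩ := hf
  refine ⟨p.coeff 2, 0, ?_⟩
  have h1 := hp.isBigO_sub_partialSum_pow 3
  have h2 : (fun y : ℂ => ‖y‖ ^ 3) =o[𝓝 0] (fun y : ℂ => ‖y‖ ^ 2) := by
    have h3 : (fun y : ℂ => ‖y‖) =o[𝓝 0] (fun _ : ℂ => (1 : ℝ)) := by
      rw [isLittleO_one_iff]
      have hc : Continuous (fun τ : ℂ => ‖τ‖) := continuous_norm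
      have h := hc.tendsto 0
      simpa using h
    have h4 := h3.mul_isBigO (isBigO_refl (fun y : ℂ => ‖y‖ ^ 2) (𝓝 0))
    refine h4.congr (fun y => ?_) (fun y => ?_)
    · ring
    · ring
  refine (h1.trans_isLittleO h2).congr_left fun τ => ?_
  have h5 : p.partialSum 3 τ = f 0 + deriv f 0 * τ + p.coeff 2 * τ ^ 2 := by
    rw [FormalMultilinearSeries.partialSum]
    simp only [Finset.sum_range_succ, Finset.sum_range_zero,
      FormalMultilinearSeries.apply_eq_pow_smul_coeff, smul_eq_mul]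
    have h6 : p.coeff 0 = f 0 := hp.coeff_zero _
    have h7 : p.coeff 1 = deriv f 0 := by
      rw [hp.deriv]
      rfl
    rw [h6, h7]
    ring
  rw [h5, zero_add]
  ring

end Pool.Agent.MP_ae5b4e_an_NB4
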