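import Pool.Agent.Lib.MP_ae5b4e_an_NB4.JetA

/-!
# MP_ae5b4e_an, NB_4, module JetB: real jets

`RJ f a b d` is `CJ (fun τ => (f τ : ℂ)) a b (conj b) d`.  Everything follows from the rules of
module JetA (the coefficients of real functions are `a` real, `b, conj b`, `d` real).
-/

noncomputable section

namespace Pool.Agent.MP_ae5b4e_an_NB4

open Complex Set Filter Topology Metric Asymptotics
open scoped ComplexConjugate

variable {f g : ℂ → ℝ} {a a' : ℝ} {b b' : ℂ} {d d' : ℝ}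

private theorem JetB_mk {F : ℂ → ℂ} {f : ℂ → ℝ} {a₀ d₀ b₁ b₂ b : ℂ} {a d : ℝ}
    (h : CJ F a₀ b₁ b₂ d₀) (hF : ∀ τ, F τ = (f τ : ℂ)) (ha : a₀ = a) (hb : b₁ = b)
    (hb' : b₂ = conj b) (hd : d₀ = d) : RJ f a b d := by
  have h1 : F = fun τ => (f τ : ℂ) := funext hF
  subst h1 ha hb hb' hd
  exact h

theorem RJ.congr (hf : RJ f a b d) (hfg : f =ᶠ[𝓝 0] g) : RJ g a b d := by
  exact CJ.congr hf (hfg.fun_comp ((↑) : ℝ → ℂ))

theorem RJ.zero (hf : RJ f a b d) : f 0 = a := by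
  have h := CJ.zero hf
  exact_mod_cast h

theorem RJ.const (a : ℝ) : RJ (fun _ => a) a 0 0 := by
  exact JetB_mk (CJ.const (a : ℂ)) (fun _ => rfl) rfl rfl (by simp) (by simp)

theorem RJ.add (hf : RJ f a b d) (hg : RJ g a' b' d') :
    RJ (fun τ => f τ + g τ) (a + a') (b + b') (d + d') := by
  refine JetB_mk (CJ.add hf hg) (fun τ => ?_) ?_ rfl ?_ ?_
  · push_cast
    rfl
  · push_cast
    rfl
  · rw [map_add]
  · push_cast
    rfl

theorem RJ.neg (hf : RJ f a b d) : RJ (fun τ => -f τ) (-a) (-b) (-d) := by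
  refine JetB_mk (CJ.neg hf) (fun τ => ?_) ?_ rfl ?_ ?_
  · push_cast
    rfl
  · push_cast
    rfl
  · rw [map_neg]
  · push_cast
    rfl

theorem RJ.sub (hf : RJ f a b d) (hg : RJ g a' b' d') :
    RJ (fun τ => f τ - g τ) (a - a') (b - b') (d - d') := by
  refine JetB_mk (CJ.sub hf hg) (fun τ => ?_) ?_ rfl ?_ ?_
  · push_cast
    rfl
  · push_cast
    rfl
  · rw [map_sub]
  · push_cast
    rfl

theorem RJ.mul_const (hf : RJ f a b d) (c : ℝ) :
    RJ (fun τ => f τ * c) (a * c) (b * c) (d * c) := by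
  refine JetB_mk (CJ.mul hf (CJ.const (c : ℂ))) (fun τ => ?_) ?_ ?_ ?_ ?_
  · push_cast
    rfl
  · push_cast
    rfl
  · ring
  · rw [map_mul, Complex.conj_ofReal]
    ring
  · push_cast
    ring

theorem RJ.mul (hf : RJ f a b d) (hg : RJ g a' b' d') :
    RJ (fun τ => f τ * g τ) (a * a') (a * b' + b * a')
      (a * d' + d * a' + 2 * (b * conj b').re) := by
  refine JetB_mk (CJ.mul hf hg) (fun τ => ?_) ?_ rfl ?_ ?_
  · push_cast
    rfl
  · push_cast
    rfl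
  · rw [map_add, map_mul, map_mul, Complex.conj_ofReal, Complex.conj_ofReal]
  · have h := Complex.add_conj (b * conj b')
    rw [map_mul, Complex.conj_conj] at h
    rw [h]
    push_cast
    ring

/-- `|f|² = f conj f` -/
theorem CJ.norm_sq {f : ℂ → ℂ} {a b b' d : ℂ} (hf : CJ f a b b' d) :
    RJ (fun τ => ‖f τ‖ ^ 2) (‖a‖ ^ 2) (b * conj a + a * conj b')
      (2 * (d * conj a).re + ‖b‖ ^ 2 + ‖b'‖ ^ 2) := by
  refine JetB_mk (CJ.mul hf hf.cj) (fun τ => ?_) ?_ ?_ ?_ ?_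
  · rw [Complex.mul_conj']
    push_cast
    rfl
  · rw [Complex.mul_conj']
    push_cast
    rfl
  · ring
  · rw [map_add, map_mul, map_mul, Complex.conj_conj, Complex.conj_conj]
    ring
  · have h := Complex.add_conj (d * conj a)
    rw [map_mul, Complex.conj_conj] at h
    have h1 := Complex.mul_conj' b
    have h2 := Complex.mul_conj' b'
    push_cast at h ⊢
    rw [← h, ← h1, ← h2]
    ring

/-- `∂ ∂̄ |f|² = |f'|²` -/
theorem RJ.norm_sq {f : ℂ → ℂ} (hf : AnalyticAt ℂ f 0) :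
    ∃ b, RJ (fun τ => ‖f τ‖ ^ 2) (‖f 0‖ ^ 2) b (‖deriv f 0‖ ^ 2) := by
  refine ⟨_, JetB_mk (CJ.norm_sq (CJ.of_analytic hf)) (fun τ => rfl) rfl rfl rfl ?_⟩
  simp

/-- `∂ ∂̄ (Im f)² = |f'|² / 2`; `Im f = (f - conj f) / (2 i)` -/
theorem RJ.im_sq {f : ℂ → ℂ} (hf : AnalyticAt ℂ f 0) :
    ∃ b, RJ (fun τ => (f τ).im ^ 2) ((f 0).im ^ 2) b (‖deriv f 0‖ ^ 2 / 2) := by
  have h0 := CJ.of_analytic hf
  have hn : ∀ z : ℂ, ‖z - conj z‖ ^ 2 * (1 / 4) = z.im ^ 2 := by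
    intro z
    rw [Complex.sub_conj, norm_mul, Complex.norm_I, mul_one, Complex.norm_real,
      Real.norm_eq_abs, sq_abs]
    ring
  refine ⟨_, JetB_mk (RJ.mul_const (CJ.norm_sq (CJ.sub h0 h0.cj)) (1 / 4)) (fun τ => ?_) ?_
    rfl rfl ?_⟩
  · exact congrArg _ (hn (f τ))
  · exact congrArg _ (hn (f 0))
  · refine congrArg _ ?_
    simp only [map_zero, sub_zero, zero_sub, zero_mul, Complex.zero_re, mul_zero, norm_neg,
      Complex.norm_conj, zero_add]
    ring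

end Pool.Agent.MP_ae5b4e_an_NB4
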