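import Pool.Agent.Lib.MP_ae5b4e_an_NB4.JetB

/-!
# MP_ae5b4e_an, NB_4, module JetC: composition with functions of one real variable; no maximum
-/

noncomputable section

namespace Pool.Agent.MP_ae5b4e_an_NB4

open Complex Set Filter Topology Metric Asymptotics
open scoped ComplexConjugate

private theorem JetC_bigO {f : ℂ → ℂ} {a b b' d : ℂ} (hf : CJ f a b b' d) :
    (fun τ => f τ - a) =O[𝓝 0] fun τ : ℂ => ‖τ‖ := by
  obtain ⟨e, e', h⟩ := hf
  have h1 : ∀ᶠ τ : ℂ in 𝓝 0, ‖τ‖ ≤ 1 := by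
    filter_upwards [Metric.ball_mem_nhds (0 : ℂ) one_pos] with τ hτ
    rw [mem_ball_zero_iff] at hτ
    exact hτ.le
  have h2 : (fun τ : ℂ => ‖τ‖ ^ 2) =O[𝓝 0] fun τ : ℂ => ‖τ‖ := by
    refine IsBigO.of_bound 1 ?_
    filter_upwards [h1] with τ hτ
    rw [Real.norm_of_nonneg (by positivity), Real.norm_of_nonneg (norm_nonneg _), one_mul]
    nlinarith [norm_nonneg τ]
  have h3 : (fun τ : ℂ => b * τ + b' * conj τ + e * τ ^ 2 + e' * conj τ ^ 2 +
      d * (τ * conj τ)) =O[𝓝 0] fun τ : ℂ => ‖τ‖ := by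
    refine IsBigO.of_bound (‖b‖ + ‖b'‖ + ‖e‖ + ‖e'‖ + ‖d‖) ?_
    filter_upwards [h1] with τ hτ
    rw [Real.norm_of_nonneg (norm_nonneg _)]
    have hn := norm_nonneg τ
    have hsq : ‖τ‖ ^ 2 ≤ ‖τ‖ := by nlinarith
    calc ‖b * τ + b' * conj τ + e * τ ^ 2 + e' * conj τ ^ 2 + d * (τ * conj τ)‖
        ≤ ‖b * τ‖ + ‖b' * conj τ‖ + ‖e * τ ^ 2‖ + ‖e' * conj τ ^ 2‖ + ‖d * (τ * conj τ)‖ := by
          refine (norm_add_le _ _).trans (add_le_add ?_ le_rfl)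
          refine (norm_add_le _ _).trans (add_le_add ?_ le_rfl)
          refine (norm_add_le _ _).trans (add_le_add ?_ le_rfl)
          exact norm_add_le _ _
      _ = ‖b‖ * ‖τ‖ + ‖b'‖ * ‖τ‖ + ‖e‖ * ‖τ‖ ^ 2 + ‖e'‖ * ‖τ‖ ^ 2 + ‖d‖ * ‖τ‖ ^ 2 := by
          simp only [norm_mul, norm_pow, RCLike.norm_conj]
          ring
      _ ≤ ‖b‖ * ‖τ‖ + ‖b'‖ * ‖τ‖ + ‖e‖ * ‖τ‖ + ‖e'‖ * ‖τ‖ + ‖d‖ * ‖τ‖ := by
          gcongr
      _ = (‖b‖ + ‖b'‖ + ‖e‖ + ‖e'‖ + ‖d‖) * ‖τ‖ := by ring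
  have h4 := (h.isBigO.trans h2).add h3
  refine h4.congr_left fun τ => ?_
  ring

private theorem JetC_real_bigO {f : ℂ → ℝ} {a : ℝ} {b : ℂ} {d : ℝ} (hf : RJ f a b d) :
    (fun τ => f τ - a) =O[𝓝 0] fun τ : ℂ => ‖τ‖ := by
  have h := (JetC_bigO hf).norm_left
  refine IsBigO.of_norm_left (h.congr_left fun τ => ?_)
  rw [← ofReal_sub, Complex.norm_real]

private theorem JetC_tendsto {f : ℂ → ℝ} {a : ℝ} {b : ℂ} {d : ℝ} (hf : RJ f a b d) :
    Tendsto f (𝓝 0) (𝓝 a) := by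
  have h1 : Tendsto (fun τ : ℂ => ‖τ‖) (𝓝 0) (𝓝 0) := by
    have := (continuous_norm (E := ℂ)).tendsto 0
    rwa [norm_zero] at this
  have h2 := (JetC_real_bigO hf).trans_tendsto h1
  have h3 := h2.add_const a
  simpa using h3

private theorem JetC_add_o {f g : ℂ → ℝ} {a : ℝ} {b : ℂ} {d : ℝ} (hf : RJ f a b d)
    (h : (fun τ => g τ - f τ) =o[𝓝 0] fun τ : ℂ => ‖τ‖ ^ 2) : RJ g a b d := by
  obtain ⟨e, e', h1⟩ := hf
  refine ⟨e, e', ?_⟩
  have h2 : (fun τ => ((g τ - f τ : ℝ) : ℂ)) =o[𝓝 0] fun τ : ℂ => ‖τ‖ ^ 2 := by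
    refine IsLittleO.of_norm_left (h.norm_left.congr_left fun τ => ?_)
    rw [Complex.norm_real]
  refine (h1.add h2).congr_left fun τ => ?_
  push_cast
  ring

/-- Taylor formula with Peano remainder: `F x = F a + F' a (x - a) + F'' / 2 (x - a)² +
o((x - a)²)`.  Proof: `G x := F x - F a - F' a (x - a) - F'' / 2 (x - a)²` has
`G' x = F' x - F' a - F'' (x - a) = o(x - a)` near `a`; mean value inequality on the segment. -/
theorem peano_two {F F' : ℝ → ℝ} {F'' a : ℝ} (h1 : ∀ᶠ x in 𝓝 a, HasDerivAt F (F' x) x)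
    (h2 : HasDerivAt F' F'' a) :
    (fun x => F x - (F a + F' a * (x - a) + F'' / 2 * (x - a) ^ 2)) =o[𝓝 a]
      fun x => (x - a) ^ 2 := by
  rw [isLittleO_iff]
  intro c hc
  have h3 := (isLittleO_iff.mp h2.isLittleO) hc
  obtain ⟨δ, hδ, hball⟩ := Metric.eventually_nhds_iff_ball.mp (h1.and h3)
  filter_upwards [Metric.ball_mem_nhds a hδ] with x hx
  set G : ℝ → ℝ := fun x => F x - (F a + F' a * (x - a) + F'' / 2 * (x - a) ^ 2) with hG
  have hsub : closedBall a |x - a| ⊆ ball a δ := by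
    intro y hy
    rw [mem_closedBall, Real.dist_eq] at hy
    rw [mem_ball, Real.dist_eq] at hx ⊢
    exact lt_of_le_of_lt hy hx
  have hder : ∀ y ∈ closedBall a |x - a|,
      HasDerivWithinAt G (F' y - F' a - (y - a) * F'') (closedBall a |x - a|) y := by
    intro y hy
    have h4 := (hball y (hsub hy)).1
    have h5 : HasDerivAt (fun x : ℝ => x - a) 1 y := (hasDerivAt_id y).sub_const a
    have h6 : HasDerivAt (fun x : ℝ => F a + F' a * (x - a) + F'' / 2 * (x - a) ^ 2)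
        (F' a + (y - a) * F'') y := by
      have h7 := ((h5.const_mul (F' a)).const_add (F a)).add ((h5.pow 2).const_mul (F'' / 2))
      refine h7.congr_deriv ?_
      norm_num
      ring
    refine ((h4.sub h6).congr_deriv ?_).hasDerivWithinAt
    ring
  have hbd : ∀ y ∈ closedBall a |x - a|, ‖F' y - F' a - (y - a) * F''‖ ≤ c * |x - a| := by
    intro y hy
    have h4 := (hball y (hsub hy)).2
    rw [smul_eq_mul] at h4
    refine h4.trans ?_
    rw [mem_closedBall, Real.dist_eq] at hy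
    exact mul_le_mul_of_nonneg_left hy hc.le
  have h8 := Convex.norm_image_sub_le_of_norm_hasDerivWithin_le hder hbd
    (convex_closedBall a |x - a|) (mem_closedBall_self (abs_nonneg _))
    (show x ∈ closedBall a |x - a| by rw [mem_closedBall, Real.dist_eq])
  have h9 : G a = 0 := by
    rw [hG]
    simp
  rw [h9, sub_zero] at h8
  refine h8.trans (le_of_eq ?_)
  rw [norm_pow, Real.norm_eq_abs]
  ring

/-- composition: `f - a = O(|τ|)`, so the Peano remainder is `o(|τ|²)`; `(f - a)²` has the jet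
`(0, 0, 2 |b|²)` (product rule). -/
theorem RJ.comp {f : ℂ → ℝ} {a : ℝ} {b : ℂ} {d : ℝ} (hf : RJ f a b d) {F F' : ℝ → ℝ} {F'' : ℝ}
    (h1 : ∀ᶠ x in 𝓝 a, HasDerivAt F (F' x) x) (h2 : HasDerivAt F' F'' a) :
    RJ (fun τ => F (f τ)) (F a) (F' a * b) (F' a * d + F'' * ‖b‖ ^ 2) := by
  have hg : RJ (fun τ => f τ - a) (a - a) (b - 0) (d - 0) := hf.sub (RJ.const a)
  rw [sub_self, sub_zero, sub_zero] at hg
  have hg2 := hg.mul hg
  have hP := ((RJ.const (F a)).add (hg.mul_const (F' a))).add (hg2.mul_const (F'' / 2))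
  have hP2 : RJ (fun τ => F a + (f τ - a) * F' a + (f τ - a) * (f τ - a) * (F'' / 2))
      (F a) (F' a * b) (F' a * d + F'' * ‖b‖ ^ 2) := by
    convert hP using 1
    · ring
    · push_cast
      ring
    · rw [mul_conj, ofReal_re, normSq_eq_norm_sq]
      ring
  refine JetC_add_o hP2 ?_
  have h3 := (peano_two h1 h2).comp_tendsto (JetC_tendsto hf)
  have h4 : (fun τ : ℂ => (f τ - a) ^ 2) =O[𝓝 0] fun τ : ℂ => ‖τ‖ ^ 2 :=
    (JetC_real_bigO hf).pow 2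
  refine (h3.trans_isBigO h4).congr_left fun τ => ?_
  simp only [Function.comp_apply]
  ring

/-- `log |f|` is harmonic: `log |f| = (1/2) log |f|²`, composition of `CJ.norm_sq` with
`F x = log x / 2`. -/
theorem RJ.log_norm {f : ℂ → ℂ} (hf : AnalyticAt ℂ f 0) (h0 : f 0 ≠ 0) :
    ∃ b, RJ (fun τ => Real.log ‖f τ‖) (Real.log ‖f 0‖) b 0 := by
  have hn : 0 < ‖f 0‖ := norm_pos_iff.mpr h0
  have h1 := (CJ.of_analytic hf).norm_sq
  have ha : (0 : ℝ) < ‖f 0‖ ^ 2 := by positivity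
  have h2 : ∀ᶠ x in 𝓝 (‖f 0‖ ^ 2), HasDerivAt (fun x : ℝ => Real.log x / 2) (x⁻¹ / 2) x := by
    filter_upwards [lt_mem_nhds ha] with x hx
    exact (Real.hasDerivAt_log hx.ne').div_const 2
  have h3 : HasDerivAt (fun x : ℝ => x⁻¹ / 2) (-((‖f 0‖ ^ 2) ^ 2)⁻¹ / 2) (‖f 0‖ ^ 2) :=
    (hasDerivAt_inv ha.ne').div_const 2
  have h4 := h1.comp h2 h3
  refine ⟨(((‖f 0‖ ^ 2)⁻¹ / 2 : ℝ) : ℂ) * (deriv f 0 * conj (f 0) + f 0 * conj 0), ?_⟩
  convert h4 using 1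
  · funext τ
    rw [Real.log_pow]
    push_cast
    ring
  · rw [Real.log_pow]
    push_cast
    ring
  · simp only [zero_mul, zero_re, mul_zero, map_zero, add_zero, norm_zero, norm_mul,
      RCLike.norm_conj]
    field_simp
    ring

/-- mean over the four points `τ, iτ, -τ, -iτ`: the linear terms and the terms `e τ²`, `e' τ̄²`
cancel, `f τ + f (iτ) + f (-τ) + f (-iτ) = 4 a + 4 d |τ|² + o(|τ|²)`. -/
theorem RJ.no_max {f : ℂ → ℝ} {a : ℝ} {b : ℂ} {d : ℝ} (hf : RJ f a b d) (hd : 0 < d) :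
    ¬ ∀ᶠ τ in 𝓝 0, f τ ≤ f 0 := by
  intro hmax
  have ha := hf.zero
  obtain ⟨e, e', h⟩ := hf
  have h1 := (isLittleO_iff.mp h) (half_pos hd)
  obtain ⟨δ, hδ, hball⟩ := Metric.eventually_nhds_iff_ball.mp (hmax.and h1)
  set t : ℝ := δ / 2 with ht
  have ht0 : 0 < t := half_pos hδ
  have htδ : t < δ := half_lt_self hδ
  have hnt : ‖(t : ℂ)‖ = t := by rw [Complex.norm_real, Real.norm_of_nonneg ht0.le]
  have key : ∀ w : ℂ, ‖w‖ = 1 → f (w * t) ≤ a ∧
      ‖(f (w * t) : ℂ) - (a + b * (w * t) + conj b * conj (w * t) + e * (w * t) ^ 2 +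
        e' * conj (w * t) ^ 2 + d * ((w * t) * conj (w * t)))‖ ≤ d / 2 * t ^ 2 := by
    intro w hw
    have h2 : w * (t : ℂ) ∈ ball (0 : ℂ) δ := by
      rw [mem_ball_zero_iff, norm_mul, hw, hnt, one_mul]
      exact htδ
    have h3 := hball _ h2
    refine ⟨ha ▸ h3.1, ?_⟩
    have h4 := h3.2
    rwa [norm_pow, norm_norm, norm_mul, hw, hnt, one_mul] at h4
  obtain ⟨a1, b1⟩ := key 1 norm_one
  obtain ⟨a2, b2⟩ := key I norm_I
  obtain ⟨a3, b3⟩ := key (-1) (by rw [norm_neg, norm_one])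
  obtain ⟨a4, b4⟩ := key (-I) (by rw [norm_neg, norm_I])
  have hsum : (((f (1 * t) + f (I * t) + f (-1 * t) + f (-I * t) - 4 * a -
      4 * d * t ^ 2 : ℝ)) : ℂ) =
      (((f (1 * t) : ℂ) - (a + b * (1 * t) + conj b * conj (1 * t : ℂ) + e * (1 * t) ^ 2 +
        e' * conj (1 * t : ℂ) ^ 2 + d * ((1 * t) * conj (1 * t : ℂ)))) +
      ((f (I * t) : ℂ) - (a + b * (I * t) + conj b * conj (I * t) + e * (I * t) ^ 2 +
        e' * conj (I * t) ^ 2 + d * ((I * t) * conj (I * t))))) +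
      (((f (-1 * t) : ℂ) - (a + b * (-1 * t) + conj b * conj (-1 * t : ℂ) + e * (-1 * t) ^ 2 +
        e' * conj (-1 * t : ℂ) ^ 2 + d * ((-1 * t) * conj (-1 * t : ℂ)))) +
      ((f (-I * t) : ℂ) - (a + b * (-I * t) + conj b * conj (-I * t) + e * (-I * t) ^ 2 +
        e' * conj (-I * t) ^ 2 + d * ((-I * t) * conj (-I * t))))) := by
    simp only [map_mul, map_neg, map_one, conj_I, conj_ofReal]
    push_cast
    have hI := I_sq
    linear_combination (2 * e * (t : ℂ) ^ 2 + 2 * e' * (t : ℂ) ^ 2 - 2 * d * (t : ℂ) ^ 2) * hI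
  have h5 : |f (1 * t) + f (I * t) + f (-1 * t) + f (-I * t) - 4 * a - 4 * d * t ^ 2| ≤
      (d / 2 * t ^ 2 + d / 2 * t ^ 2) + (d / 2 * t ^ 2 + d / 2 * t ^ 2) := by
    rw [← Real.norm_eq_abs, ← Complex.norm_real, hsum]
    refine (norm_add_le _ _).trans (add_le_add ?_ ?_)
    · exact (norm_add_le _ _).trans (add_le_add b1 b2)
    · exact (norm_add_le _ _).trans (add_le_add b3 b4)
  have h6 := (abs_le.mp h5).1
  have h7 : 0 < d * t ^ 2 := by positivity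
  linarith

end Pool.Agent.MP_ae5b4e_an_NB4
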