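import Pool.Agent.Lib.MP_ae5b4e_an_NB4.Defs

/-!
# MP_ae5b4e_an, NB_4: the node functions on the space of chains
-/

noncomputable section

namespace Pool.Agent.MP_ae5b4e_an_NB4

open Complex Set Filter Topology Metric
open Pool.Agent.MP_ae5b4e_an_NBT (St)
open Pool.Agent.MP_ae5b4e_an_NB2 (Sys)
open scoped ComplexConjugate

variable {Y : Sys} {h : ℝ} {q : ℕ} [NeZero q] {z : ZMod q → ℂ} {π₀ : ℂ}

theorem isOpen_Sq : IsOpen (Sq h q) := by
  have h1 : Sq h q = ⋂ j : ZMod q, {z : ZMod q → ℂ | z j ∈ St (-h) h} := by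
    ext z
    simp [Sq]
  rw [h1]
  exact isOpen_iInter_of_finite fun j =>
    (Pool.Agent.MP_ae5b4e_an_NBT.isOpen_St (-h) h).preimage (continuous_apply j)

theorem lab_mem (hz : z ∈ Sq h q) (n : ℤ) : lab q z n ∈ St (-h) h := by
  have h1 := hz (n : ZMod q)
  have h2 : (lab q z n).im = (z (n : ZMod q)).im := by
    simp [lab]
  refine ⟨?_, ?_⟩
  · rw [h2]
    exact h1.1
  · rw [h2]
    exact h1.2

theorem lab_add (z : ZMod q → ℂ) (n : ℤ) : lab q z (n + q) = lab q z n + 1 := by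
  have hq : (q : ℤ) ≠ 0 := by exact_mod_cast NeZero.ne q
  have h1 : (n + q) / (q : ℤ) = n / q + 1 := by
    rw [Int.add_ediv_of_dvd_right (dvd_refl _), Int.ediv_self hq]
  unfold lab
  rw [h1]
  push_cast
  simp only [CharP.cast_eq_zero, add_zero]
  ring

/-- `j.val` is the representative in `[0, q)` -/
theorem lab_val (z : ZMod q → ℂ) (j : ZMod q) : lab q z (j.val : ℤ) = z j := by
  have h1 : ((j.val : ℤ) : ZMod q) = j := by
    simp
  have h2 : (j.val : ℤ) / (q : ℤ) = 0 := by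
    apply Int.ediv_eq_zero_of_lt
    · positivity
    · exact_mod_cast ZMod.val_lt j
  unfold lab
  rw [h1, h2]
  simp

private theorem NdA_lab_an (n : ℤ) (z : ZMod q → ℂ) :
    AnalyticAt ℂ (fun z : ZMod q → ℂ => lab q z n) z := by
  unfold lab
  exact ((ContinuousLinearMap.proj (R := ℂ) (φ := fun _ : ZMod q => ℂ)
    (n : ZMod q)).analyticAt z).add analyticAt_const

theorem lab_diff (n : ℤ) : Differentiable ℂ fun z : ZMod q → ℂ => lab q z n :=
  fun z => (NdA_lab_an n z).differentiableAt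

private theorem NdA_comp {f : ℂ → ℂ} (hf : DifferentiableOn ℂ f (St (-h) h))
    (hz : z ∈ Sq h q) (n : ℤ) : AnalyticAt ℂ (fun z : ZMod q → ℂ => f (lab q z n)) z := by
  have h1 : AnalyticAt ℂ f (lab q z n) := hf.analyticAt
    ((Pool.Agent.MP_ae5b4e_an_NBT.isOpen_St (-h) h).mem_nhds (lab_mem hz n))
  exact AnalyticAt.fun_comp h1 (NdA_lab_an n z)

private theorem NdA_c (hY : Y.On (St (-h) h)) (hz : z ∈ Sq h q) (m n : ℤ) :
    AnalyticAt ℂ (fun z : ZMod q → ℂ => Y.c (lab q z m) (lab q z n)) z := by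
  have h1 : DifferentiableOn ℂ Y.y1 (St (-h) h) := fun w hw =>
    (hY.d1 w hw).differentiableAt.differentiableWithinAt
  have h2 : DifferentiableOn ℂ Y.y2 (St (-h) h) := fun w hw =>
    (hY.d2 w hw).differentiableAt.differentiableWithinAt
  have h3 : DifferentiableOn ℂ Y.y1' (St (-h) h) := fun w hw =>
    (hY.d1' w hw).differentiableAt.differentiableWithinAt
  have h4 : DifferentiableOn ℂ Y.y2' (St (-h) h) := fun w hw =>
    (hY.d2' w hw).differentiableAt.differentiableWithinAt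
  unfold Sys.c
  exact ((NdA_comp h4 hz n).mul (NdA_comp h1 hz m)).sub
    ((NdA_comp h3 hz n).mul (NdA_comp h2 hz m))

private theorem NdA_s (hY : Y.On (St (-h) h)) (hz : z ∈ Sq h q) (m n : ℤ) :
    AnalyticAt ℂ (fun z : ZMod q → ℂ => Y.s (lab q z m) (lab q z n)) z := by
  have h1 : DifferentiableOn ℂ Y.y1 (St (-h) h) := fun w hw =>
    (hY.d1 w hw).differentiableAt.differentiableWithinAt
  have h2 : DifferentiableOn ℂ Y.y2 (St (-h) h) := fun w hw =>
    (hY.d2 w hw).differentiableAt.differentiableWithinAt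
  unfold Sys.s
  exact ((NdA_comp h1 hz n).mul (NdA_comp h2 hz m)).sub
    ((NdA_comp h2 hz n).mul (NdA_comp h1 hz m))

private theorem NdA_nd (hY : Y.On (St (-h) h)) (n : ℤ) :
    AnalyticOnNhd ℂ (fun z : ZMod q → ℂ => nd Y q z n) (Sq h q) := by
  intro z hz
  unfold nd
  exact ((NdA_c hY hz _ _).mul (NdA_s hY hz _ _)).add ((NdA_c hY hz _ _).mul (NdA_s hY hz _ _))

theorem nd_diff (hY : Y.On (St (-h) h)) (n : ℤ) :
    DifferentiableOn ℂ (fun z : ZMod q → ℂ => nd Y q z n) (Sq h q) :=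
  (NdA_nd hY n).differentiableOn

/-- continuously differentiable: the functions `y1, y1', y2, y2'` are analytic on the strip -/
theorem nd_contDiff (hY : Y.On (St (-h) h)) (n : ℤ) :
    ContDiffOn ℂ 2 (fun z : ZMod q → ℂ => nd Y q z n) (Sq h q) :=
  (NdA_nd hY n).contDiffOn isOpen_Sq.uniqueDiffOn

theorem prd_diff (hY : Y.On (St (-h) h)) :
    DifferentiableOn ℂ (fun z : ZMod q → ℂ => prd Y q z) (Sq h q) := by
  unfold prd
  intro z hz
  have h1 : AnalyticAt ℂ (fun z : ZMod q → ℂ =>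
      ∏ n ∈ Finset.range q, (Y.s (lab q z ((n : ℤ) + 1)) (lab q z n)) ^ 2) z :=
    Finset.analyticAt_fun_prod _ fun n _ => (NdA_s hY hz _ _).pow 2
  exact h1.differentiableAt.differentiableWithinAt

private theorem NdA_jm (hY : Y.On (St (-h) h)) (hz : z ∈ Sq h q) (i j : ZMod q) :
    AnalyticAt ℂ (fun z : ZMod q → ℂ => Jm Y q z i j) z := by
  unfold Jm
  have h1 := (NdA_nd hY (i.val : ℤ) z hz).fderiv
  exact ((ContinuousLinearMap.apply ℂ ℂ (Pi.single j 1 : ZMod q → ℂ)).analyticAt _).fun_comp h1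

private theorem NdA_rm (hY : Y.On (St (-h) h)) (hz : z ∈ Sq h q) (i j : ZMod q) :
    AnalyticAt ℂ (fun z : ZMod q → ℂ => Rm Y q z i j) z := by
  unfold Rm
  simp only [Matrix.adjugate_apply, Matrix.det_apply']
  refine Finset.analyticAt_fun_sum _ fun σ _ => ?_
  refine analyticAt_const.mul (Finset.analyticAt_fun_prod _ fun k _ => ?_)
  by_cases hk : σ k = j
  · simp only [hk, Matrix.updateRow_self]
    exact analyticAt_const
  · simp only [Matrix.updateRow_ne hk]
    exact NdA_jm hY hz _ _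

/-- the regular matrix is continuous on `Sq` -/
theorem Rm_cont (hY : Y.On (St (-h) h)) : ContinuousOn (fun z => Rm Y q z) (Sq h q) := by
  refine continuousOn_pi.2 fun i => continuousOn_pi.2 fun j => ?_
  exact fun z hz => (NdA_rm hY hz i j).continuousAt.continuousWithinAt

/-- the entries of the regular matrix are analytic along holomorphic curves -/
theorem Rm_curve (hY : Y.On (St (-h) h)) {γ : ℂ → ZMod q → ℂ} {r : ℝ} (hr : 0 < r)
    (hγ : DifferentiableOn ℂ γ (ball 0 r)) (h0 : γ 0 ∈ Sq h q) (i j : ZMod q) :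
    AnalyticAt ℂ (fun τ => Rm Y q (γ τ) i j) 0 := by
  have h1 : AnalyticAt ℂ γ 0 := hγ.analyticAt (ball_mem_nhds 0 hr)
  exact (NdA_rm hY h0 i j).fun_comp h1

end Pool.Agent.MP_ae5b4e_an_NB4
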