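import Pool.Agent.Lib.MP_ae5b4e_an_NB4.PairJ
import Pool.Agent.Lib.MP_ae5b4e_an_NB4.Harn

/-!
# MP_ae5b4e_an, NB_4: the theorems of part A (pair functions) which part B uses

`nn_lower`, `ww_le`, `pair_jet` (module PairJ), `nn_harnack` (Harn), `gg_nonneg`, `gg_lip`, `gg_le`,
`gg_cont`, `XX_ge`, `C5_pos`, `C6_pos` (Gg), `RJ.add`, `RJ.const`, `RJ.mul_const`, `RJ.im_sq`,
`RJ.norm_sq`, `RJ.congr` (JetB), `RJ.comp`, `RJ.log_norm`, `RJ.no_max` (JetC).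
-/
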