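import Pool.Agent.Lib.MP_ae5b4e_an_NB4.Defs

/-!
# MP_ae5b4e_an, NB_4, module Win: windows (change of coordinate by an automorphism of the disc)
-/

noncomputable section

namespace Pool.Agent.MP_ae5b4e_an_NB4

open Complex Set Filter Topology Metric
open Pool.Agent.MP_ae5b4e_an_NB2 (Sys)
open scoped ComplexConjugate

variable {q : ℝ} {A B : Sys} {a b z w : ℂ}

private theorem den_ne (ha : a ∈ ball (0:ℂ) 1) (hz : z ∈ ball (0:ℂ) 1) : 1 + conj a * z ≠ 0 := by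
  rw [mem_ball_zero_iff] at ha hz
  intro h
  have h1 : ‖conj a * z‖ < 1 := by
    rw [norm_mul, Complex.norm_conj]
    calc ‖a‖ * ‖z‖ ≤ ‖a‖ * 1 := by gcongr
      _ < 1 := by linarith
  have h2 : conj a * z = -1 := by linear_combination h
  rw [h2] at h1
  simp at h1

private theorem den_ne' (ha : a ∈ ball (0:ℂ) 1) (hz : z ∈ ball (0:ℂ) 1) : 1 + a * conj z ≠ 0 := by
  intro h
  apply den_ne ha hz
  have := congrArg conj h
  simpa using this

private theorem sq_pos (ha : a ∈ ball (0:ℂ) 1) : 0 < 1 - ‖a‖ ^ 2 := by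
  rw [mem_ball_zero_iff] at ha
  nlinarith [norm_nonneg a]

private theorem sq_cast (z : ℂ) : ((1 - ‖z‖ ^ 2 : ℝ) : ℂ) = 1 - z * conj z := by
  rw [Complex.mul_conj, Complex.normSq_eq_norm_sq]
  push_cast
  rfl

private theorem sqrt_sq (ha : a ∈ ball (0:ℂ) 1) :
    (Real.sqrt (1 - ‖a‖ ^ 2) : ℂ) * (Real.sqrt (1 - ‖a‖ ^ 2) : ℂ) = 1 - a * conj a := by
  rw [← sq_cast, ← Complex.ofReal_mul, Real.mul_self_sqrt (sq_pos ha).le]

private theorem sqrt_ne (ha : a ∈ ball (0:ℂ) 1) : (Real.sqrt (1 - ‖a‖ ^ 2) : ℂ) ≠ 0 := by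
  rw [Complex.ofReal_ne_zero]
  exact (Real.sqrt_pos.2 (sq_pos ha)).ne'

/-- `1 - |mob a z|² = (1 - |a|²) (1 - |z|²) / |1 + conj a z|²`. -/
theorem one_sub_mob (ha : a ∈ ball (0:ℂ) 1) (hz : z ∈ ball (0:ℂ) 1) :
    1 - ‖mob a z‖ ^ 2 = (1 - ‖a‖ ^ 2) * (1 - ‖z‖ ^ 2) / ‖1 + conj a * z‖ ^ 2 := by
  have h := den_ne ha hz
  have h2 := den_ne' ha hz
  have h3 : ‖1 + conj a * z‖ ^ 2 ≠ 0 := by
    have := norm_pos_iff.2 h
    positivity
  rw [eq_div_iff h3]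
  apply Complex.ofReal_injective
  have e1 : ((‖1 + conj a * z‖ ^ 2 : ℝ) : ℂ) = (1 + conj a * z) * (1 + a * conj z) := by
    rw [← Complex.normSq_eq_norm_sq, ← Complex.mul_conj]
    simp
  have e2 : ((1 - ‖mob a z‖ ^ 2 : ℝ) : ℂ) = 1 - (z + a) / (1 + conj a * z) *
      ((conj z + conj a) / (1 + a * conj z)) := by
    rw [sq_cast]
    unfold mob
    simp
  rw [Complex.ofReal_mul, e1, e2, Complex.ofReal_mul, sq_cast, sq_cast]
  obtain ⟨d, hd⟩ : ∃ d, d = 1 + conj a * z := ⟨_, rfl⟩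
  obtain ⟨d', hd'⟩ : ∃ d, d = 1 + a * conj z := ⟨_, rfl⟩
  rw [← hd] at h ⊢
  rw [← hd'] at h2 ⊢
  field_simp
  rw [hd, hd']
  ring

theorem mob_mem (ha : a ∈ ball (0:ℂ) 1) (hz : z ∈ ball (0:ℂ) 1) : mob a z ∈ ball (0:ℂ) 1 := by
  have h := one_sub_mob ha hz
  have h1 : 0 < (1 - ‖a‖ ^ 2) * (1 - ‖z‖ ^ 2) / ‖1 + conj a * z‖ ^ 2 := by
    have := norm_pos_iff.2 (den_ne ha hz)
    have := sq_pos ha
    have := sq_pos hz
    positivity
  rw [← h] at h1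
  rw [mem_ball_zero_iff]
  by_contra h2
  push Not at h2
  nlinarith

private theorem mob_deriv (ha : a ∈ ball (0:ℂ) 1) (hz : z ∈ ball (0:ℂ) 1) :
    HasDerivAt (mob a) (((1 - ‖a‖ ^ 2 : ℝ) : ℂ) / (1 + conj a * z) ^ 2) z := by
  have h := den_ne ha hz
  have h1 := ((hasDerivAt_id z).add_const a).div
    (((hasDerivAt_id z).const_mul (conj a)).const_add 1) h
  refine h1.congr_deriv ?_
  rw [sq_cast]
  simp
  field_simp
  ring

/-- the window is a system on the disc with the same bound: `mob a` has the derivative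
`(1 - |a|²) / (1 + conj a z)²` -/
theorem qb_win (hA : QB A q) (ha : a ∈ ball (0:ℂ) 1) : QB (win A a) q := by
  have hs := sqrt_ne ha
  have hss := sqrt_sq ha
  set s : ℂ := (Real.sqrt (1 - ‖a‖ ^ 2) : ℂ) with hsdef
  have hlin : ∀ z : ℂ, HasDerivAt (fun z : ℂ => 1 + conj a * z) (conj a) z := fun z => by
    simpa using ((hasDerivAt_id z).const_mul (conj a)).const_add 1
  have D1 : ∀ (y y' : ℂ → ℂ) (z : ℂ), z ∈ ball (0:ℂ) 1 → HasDerivAt y (y' (mob a z)) (mob a z) →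
      HasDerivAt (fun z => (1 + conj a * z) / s * y (mob a z))
        (conj a / s * y (mob a z) + s / (1 + conj a * z) * y' (mob a z)) z := by
    intro y y' z hz hy
    have hd := den_ne ha hz
    have h := ((hlin z).div_const s).mul (hy.comp z (mob_deriv ha hz))
    refine h.congr_deriv ?_
    rw [sq_cast, ← hss]
    simp only [Function.comp]
    field_simp
  have D2 : ∀ (y y' Q : ℂ → ℂ) (z : ℂ), z ∈ ball (0:ℂ) 1 →
      HasDerivAt y (y' (mob a z)) (mob a z) →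
      HasDerivAt y' (-(Q (mob a z) * y (mob a z))) (mob a z) →
      HasDerivAt (fun z => conj a / s * y (mob a z) + s / (1 + conj a * z) * y' (mob a z))
        (-(Q (mob a z) * (((1 - ‖a‖ ^ 2 : ℝ) : ℂ) / (1 + conj a * z) ^ 2) ^ 2 *
          ((1 + conj a * z) / s * y (mob a z)))) z := by
    intro y y' Q z hz hy hy'
    have hd := den_ne ha hz
    have h1 := (hy.comp z (mob_deriv ha hz)).const_mul (conj a / s)
    have h2 := ((hasDerivAt_const z s).div (hlin z) hd).mul (hy'.comp z (mob_deriv ha hz))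
    have h := h1.add h2
    refine h.congr_deriv ?_
    rw [sq_cast, ← hss]
    simp only [Function.comp, Pi.div_apply]
    field_simp
    ring
  refine ⟨⟨fun z hz => ?_, fun z hz => ?_, fun z hz => ?_, fun z hz => ?_, fun z hz => ?_⟩,
    fun z hz => ?_, fun z hz => ?_⟩
  · exact D1 A.y1 A.y1' z hz (hA.on.d1 _ (mob_mem ha hz))
  · exact D2 A.y1 A.y1' A.Q z hz (hA.on.d1 _ (mob_mem ha hz)) (hA.on.d1' _ (mob_mem ha hz))
  · exact D1 A.y2 A.y2' z hz (hA.on.d2 _ (mob_mem ha hz))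
  · exact D2 A.y2 A.y2' A.Q z hz (hA.on.d2 _ (mob_mem ha hz)) (hA.on.d2' _ (mob_mem ha hz))
  · have hd := den_ne ha hz
    have hw := hA.on.wr _ (mob_mem ha hz)
    simp only [win, ← hsdef]
    refine Eq.trans ?_ hw
    field_simp
    ring
  · have hd := den_ne ha hz
    have hm : AnalyticAt ℂ (mob a) z := by
      unfold mob
      exact (analyticAt_id.add analyticAt_const).div
        (analyticAt_const.add (analyticAt_const.mul analyticAt_id)) hd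
    have h1 : AnalyticAt ℂ (fun z => A.Q (mob a z)) z := (hA.an _ (mob_mem ha hz)).comp hm
    have h2 : AnalyticAt ℂ (fun z => (((1 - ‖a‖ ^ 2 : ℝ) : ℂ) / (1 + conj a * z) ^ 2) ^ 2) z := by
      refine (analyticAt_const.div ((analyticAt_const.add
        (analyticAt_const.mul analyticAt_id)).pow 2) ?_).pow 2
      exact pow_ne_zero 2 hd
    exact h1.mul h2
  · have hb := hA.bd _ (mob_mem ha hz)
    rw [one_sub_mob ha hz] at hb
    have h1 := sq_pos ha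
    have h2 := norm_pos_iff.2 (den_ne ha hz)
    refine le_trans (le_of_eq ?_) hb
    simp only [win, norm_mul, norm_pow, norm_div, Complex.norm_real, Real.norm_of_nonneg h1.le]
    field_simp

/-- `uu (win A a) z = ((1 + conj a z) / s) uu A (mob a z)`,
`tu (win A a) z = ((1 + a conj z) / s) tu A (mob a z)`, `s = √(1 - |a|²)`. -/
theorem uu_win (ha : a ∈ ball (0:ℂ) 1) (hz : z ∈ ball (0:ℂ) 1) :
    uu (win A a) z =
      ((1 + conj a * z) / (Real.sqrt (1 - ‖a‖ ^ 2) : ℂ)) • uu A (mob a z) ∧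
    tu (win A a) z =
      ((1 + a * conj z) / (Real.sqrt (1 - ‖a‖ ^ 2) : ℂ)) • tu A (mob a z) := by
  have hs := sqrt_ne ha
  have hss := sqrt_sq ha
  have hd := den_ne ha hz
  have hd' := den_ne' ha hz
  refine ⟨rfl, ?_⟩
  have hm : conj (mob a z) = (conj z + conj a) / (1 + a * conj z) := by
    unfold mob
    simp
  have hmm : ((1 - ‖mob a z‖ ^ 2 : ℝ) : ℂ) =
      (Real.sqrt (1 - ‖a‖ ^ 2) : ℂ) * (Real.sqrt (1 - ‖a‖ ^ 2) : ℂ) * (1 - z * conj z) /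
        ((1 + conj a * z) * (1 + a * conj z)) := by
    rw [hss, sq_cast, hm]
    unfold mob
    obtain ⟨d, e⟩ : ∃ d, d = 1 + conj a * z := ⟨_, rfl⟩
    obtain ⟨d', e'⟩ : ∃ d, d = 1 + a * conj z := ⟨_, rfl⟩
    rw [← e] at hd ⊢
    rw [← e'] at hd' ⊢
    field_simp
    rw [e, e']
    ring
  have key : ∀ y y' : ℂ, (1 - z * conj z) * (conj a / (Real.sqrt (1 - ‖a‖ ^ 2) : ℂ) * y +
      (Real.sqrt (1 - ‖a‖ ^ 2) : ℂ) / (1 + conj a * z) * y') +
      conj z * ((1 + conj a * z) / (Real.sqrt (1 - ‖a‖ ^ 2) : ℂ) * y) =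
      (1 + a * conj z) / (Real.sqrt (1 - ‖a‖ ^ 2) : ℂ) * (((Real.sqrt (1 - ‖a‖ ^ 2) : ℂ) *
        (Real.sqrt (1 - ‖a‖ ^ 2) : ℂ) * (1 - z * conj z) /
        ((1 + conj a * z) * (1 + a * conj z))) * y' +
        (conj z + conj a) / (1 + a * conj z) * y) := by
    intro y y'
    obtain ⟨d, e⟩ : ∃ d, d = 1 + conj a * z := ⟨_, rfl⟩
    obtain ⟨d', e'⟩ : ∃ d, d = 1 + a * conj z := ⟨_, rfl⟩
    rw [← e] at hd ⊢
    rw [← e'] at hd' ⊢
    field_simp
    rw [e]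
    ring
  unfold tu
  rw [hmm, hm, sq_cast]
  ext
  · exact key _ _
  · exact key _ _

private theorem wdg_smul (c d : ℂ) (x y : ℂ × ℂ) : wdg (c • x) (d • y) = c * d * wdg x y := by
  simp only [wdg, Prod.smul_fst, Prod.smul_snd, smul_eq_mul]
  ring

private theorem norm_den' : ‖1 + a * conj z‖ = ‖1 + conj a * z‖ := by
  rw [← Complex.norm_conj]
  simp

private theorem fac_norm (ha : a ∈ ball (0:ℂ) 1) :
    ‖(1 + conj a * z) / (Real.sqrt (1 - ‖a‖ ^ 2) : ℂ)‖ ^ 2 = ‖1 + conj a * z‖ ^ 2 / (1 - ‖a‖ ^ 2) ∧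
    ‖(1 + a * conj z) / (Real.sqrt (1 - ‖a‖ ^ 2) : ℂ)‖ ^ 2 =
      ‖1 + conj a * z‖ ^ 2 / (1 - ‖a‖ ^ 2) := by
  rw [norm_div, norm_div, norm_den', Complex.norm_real, Real.norm_of_nonneg (Real.sqrt_nonneg _),
    div_pow, Real.sq_sqrt (sq_pos ha).le]
  exact ⟨rfl, rfl⟩

theorem NN_win (l : ℝ) (ha : a ∈ ball (0:ℂ) 1) (hb : b ∈ ball (0:ℂ) 1) (hz : z ∈ ball (0:ℂ) 1)
    (hw : w ∈ ball (0:ℂ) 1) :
    NN l (win A a) (win B b) z w =
      NN l A B (mob a z) (mob b w) := by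
  obtain ⟨h1, h2⟩ := uu_win (A := A) ha hz
  obtain ⟨h3, h4⟩ := uu_win (A := B) hb hw
  obtain ⟨f1, f2⟩ := fac_norm (z := z) ha
  obtain ⟨f3, f4⟩ := fac_norm (z := w) hb
  unfold NN
  rw [h1, h2, h3, h4, wdg_smul, wdg_smul, wdg_smul, wdg_smul, one_sub_mob ha hz, one_sub_mob hb hw]
  simp only [norm_mul, mul_pow, f1, f2, f3, f4]
  have := norm_pos_iff.2 (den_ne ha hz)
  have := norm_pos_iff.2 (den_ne hb hw)
  have := sq_pos ha
  have := sq_pos hb
  have := sq_pos hz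
  have := sq_pos hw
  field_simp

theorem ww_win (ha : a ∈ ball (0:ℂ) 1) (hb : b ∈ ball (0:ℂ) 1) (hz : z ∈ ball (0:ℂ) 1)
    (hw : w ∈ ball (0:ℂ) 1) :
    ww (win A a) (win B b) z w =
      ww A B (mob a z) (mob b w) := by
  obtain ⟨h1, h2⟩ := uu_win (A := A) ha hz
  obtain ⟨h3, h4⟩ := uu_win (A := B) hb hw
  obtain ⟨f1, f2⟩ := fac_norm (z := z) ha
  obtain ⟨f3, f4⟩ := fac_norm (z := w) hb
  unfold ww
  rw [h1, h3, wdg_smul, one_sub_mob ha hz, one_sub_mob hb hw]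
  simp only [norm_mul, mul_pow, f1, f3]
  have := norm_pos_iff.2 (den_ne ha hz)
  have := norm_pos_iff.2 (den_ne hb hw)
  have := sq_pos ha
  have := sq_pos hb
  have := sq_pos hz
  have := sq_pos hw
  congr 1
  field_simp

private theorem mob_mob {c : ℂ} (hc : c ∈ ball (0:ℂ) 1) (hz : z ∈ ball (0:ℂ) 1) :
    mob c (mob (-c) z) = z := by
  have hc' : -c ∈ ball (0:ℂ) 1 := by simpa using hc
  have h1 := den_ne hc' hz
  have h2 : 1 - c * conj c ≠ 0 := by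
    rw [← sqrt_sq hc]
    exact mul_ne_zero (sqrt_ne hc) (sqrt_ne hc)
  have h3 : mob (-c) z = (z - c) / (1 - conj c * z) := by
    unfold mob
    simp [sub_eq_add_neg]
  have h4 : 1 - conj c * z ≠ 0 := by
    intro h
    apply h1
    rw [map_neg]
    linear_combination h
  have h5 : 1 + conj c * ((z - c) / (1 - conj c * z)) = (1 - c * conj c) / (1 - conj c * z) := by
    field_simp
    ring
  rw [h3]
  unfold mob
  rw [h5, div_div_eq_mul_div, div_eq_iff h2]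
  obtain ⟨d, e⟩ : ∃ d, d = 1 - conj c * z := ⟨_, rfl⟩
  rw [← e] at h4 ⊢
  field_simp
  rw [e]
  ring

/-- a holomorphic curve in the window at its value at `0`: `a₁ τ = mob (-(a 0)) (a τ)` -/
theorem curve_win {a : ℂ → ℂ} (ha : AnalyticAt ℂ a 0) (ha1 : a 0 ∈ ball (0:ℂ) 1) :
    ∃ a₁ : ℂ → ℂ, AnalyticAt ℂ a₁ 0 ∧ a₁ 0 = 0 ∧
      ‖deriv a₁ 0‖ = ‖deriv a 0‖ / (1 - ‖a 0‖ ^ 2) ∧
      ∀ᶠ τ in 𝓝 0, a₁ τ ∈ ball (0:ℂ) 1 ∧ mob (a 0) (a₁ τ) = a τ := by
  have hn : -(a 0) ∈ ball (0:ℂ) 1 := by simpa using ha1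
  have hd := den_ne hn ha1
  have hm : AnalyticAt ℂ (mob (-(a 0))) (a 0) := by
    unfold mob
    exact (analyticAt_id.add analyticAt_const).div
      (analyticAt_const.add (analyticAt_const.mul analyticAt_id)) hd
  refine ⟨fun τ => mob (-(a 0)) (a τ), hm.comp ha, ?_, ?_, ?_⟩
  · simp [mob]
  · have h1 := (mob_deriv hn ha1).comp 0 ha.differentiableAt.hasDerivAt
    have h2 : deriv (fun τ => mob (-(a 0)) (a τ)) 0 = _ := h1.deriv
    have h3 : 1 + conj (-(a 0)) * a 0 = ((1 - ‖a 0‖ ^ 2 : ℝ) : ℂ) := by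
      rw [sq_cast, map_neg]
      ring
    have h4 := sq_pos ha1
    rw [h2, h3, norm_neg, norm_mul, norm_div, norm_pow, Complex.norm_real,
      Real.norm_of_nonneg h4.le]
    field_simp
  · have h1 : ∀ᶠ τ in 𝓝 0, a τ ∈ ball (0:ℂ) 1 :=
      ha.continuousAt.eventually (isOpen_ball.mem_nhds ha1)
    filter_upwards [h1] with τ hτ
    exact ⟨mob_mem hn hτ, mob_mob ha1 hτ⟩

/-- every point of pseudohyperbolic distance `≤ r` from `z'` is `mob z' ζ` with `|ζ| ≤ r` -/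
theorem exists_mob {r : ℝ} (hz : z ∈ ball (0:ℂ) 1) {z' : ℂ} (hz' : z' ∈ ball (0:ℂ) 1)
    (h : ‖(z - z') / (1 - conj z' * z)‖ ≤ r) : ∃ ζ : ℂ, ‖ζ‖ ≤ r ∧ mob z' ζ = z := by
  refine ⟨mob (-z') z, ?_, mob_mob hz' hz⟩
  have h3 : mob (-z') z = (z - z') / (1 - conj z' * z) := by
    unfold mob
    simp [sub_eq_add_neg]
  rw [h3]
  exact h

end Pool.Agent.MP_ae5b4e_an_NB4
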