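import Pool.Agent.Lib.MP_ae5b4e_an_NB4.AlgM
import Pool.Agent.Lib.MP_ae5b4e_an_NB4.FrameJ
import Pool.Agent.Lib.MP_ae5b4e_an_NB4.Win
import Pool.Agent.Lib.MP_ae5b4e_an_NB4.Gg

/-!
# MP_ae5b4e_an, NB_4, module PairJ: the bounded pair function along holomorphic curves
-/

noncomputable section

namespace Pool.Agent.MP_ae5b4e_an_NB4

open Complex Set Filter Topology Metric
open Pool.Agent.MP_ae5b4e_an_NB2 (Sys)
open scoped ComplexConjugate

variable {q : ℝ} {A B : Sys} {a b : ℂ → ℂ}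

/-- the real inequality behind (2.2) -/
private theorem u_ineq {κ dW nW g₁ g₂ C₅ C₆ th bb s X dG nG nX cr : ℝ} (hκ : 0 ≤ κ)
    (hC₅ : 0 < C₅) (hC₆ : 0 < C₆) (hth : th = 1 / (32 * C₆)) (hbb : bb = 32 * C₅ / th)
    (hs : 1 ≤ s) (hX : X = s ^ 2) (h0 : 0 ≤ g₁) (h1 : g₁ ≤ 1) (h2 : 0 ≤ g₂)
    (h3 : g₂ ≤ 1 / (4 * C₆)) (hn0 : 0 ≤ nW) (hn : nW ^ 2 ≤ C₆ * κ) (hd : dW ≤ C₅ * κ)
    (hd' : g₁ * (κ / 8) ≤ g₁ * dW) (hdG : dG = g₁ * dW + g₂ * nW ^ 2) (hnG : nG = g₁ * nW)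
    (hcr : -(nG * nX) ≤ cr) :
    κ / (4 * s) ≤ (κ - dG) / (2 * s) + nX ^ 2 / (4 * X * s) +
      (bb + s) * (th * dG - th ^ 2 * nG ^ 2) + th * cr / s := by
  have hs0 : 0 < s := by linarith
  have hth0 : 0 < th := by rw [hth]; positivity
  have hbb0 : 0 < bb := by rw [hbb]; positivity
  have hthC : th * C₆ = 1 / 32 := by rw [hth]; field_simp
  have hbth : bb * th = 32 * C₅ := by rw [hbb]; field_simp
  -- the cross term
  have hnG0 : 0 ≤ nG := by rw [hnG]; positivity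
  have e1 : -(nX ^ 2 / (4 * X * s) + th ^ 2 * nG ^ 2 * s) ≤ th * cr / s := by
    have e2 : -(th * (nG * nX) / s) ≤ th * cr / s := by
      rw [← neg_div]
      apply div_le_div_of_nonneg_right _ hs0.le
      nlinarith
    have e3 : th * (nG * nX) / s ≤ nX ^ 2 / (4 * X * s) + th ^ 2 * nG ^ 2 * s := by
      have e4 : nX ^ 2 / (4 * X * s) + th ^ 2 * nG ^ 2 * s - th * (nG * nX) / s =
          (nX / (2 * s) - th * nG * s) ^ 2 / s := by
        rw [hX]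
        field_simp
        ring
      have e5 : 0 ≤ (nX / (2 * s) - th * nG * s) ^ 2 / s := by positivity
      linarith
    linarith
  -- the main terms
  have hnG2 : nG ^ 2 ≤ g₁ * (C₆ * κ) := by
    rw [hnG, mul_pow]
    have : g₁ ^ 2 ≤ g₁ := by nlinarith
    calc g₁ ^ 2 * nW ^ 2 ≤ g₁ * nW ^ 2 := by gcongr
      _ ≤ g₁ * (C₆ * κ) := by gcongr
  have hT : g₁ * κ / 16 ≤ dG - 2 * th * nG ^ 2 := by
    have e6 : 2 * th * nG ^ 2 ≤ g₁ * κ / 16 := by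
      calc 2 * th * nG ^ 2 ≤ 2 * th * (g₁ * (C₆ * κ)) := by gcongr
        _ = 2 * (th * C₆) * (g₁ * κ) := by ring
        _ = g₁ * κ / 16 := by rw [hthC]; ring
    have e7 : 0 ≤ g₂ * nW ^ 2 := by positivity
    rw [hdG]
    linarith
  have hdG' : dG ≤ g₁ * C₅ * κ + κ / 4 := by
    rw [hdG]
    have e8 : g₂ * nW ^ 2 ≤ κ / 4 := by
      calc g₂ * nW ^ 2 ≤ 1 / (4 * C₆) * (C₆ * κ) := by gcongr
        _ = κ / 4 := by field_simp
    have e9 : g₁ * dW ≤ g₁ * (C₅ * κ) := by gcongr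
    linarith
  have e10 : (bb + s) * (th * (dG - 2 * th * nG ^ 2)) ≤
      (bb + s) * (th * dG - th ^ 2 * nG ^ 2) - th ^ 2 * nG ^ 2 * s := by
    have : 0 ≤ bb * (th ^ 2 * nG ^ 2) := by positivity
    nlinarith
  have e11 : κ / (4 * s) ≤ (κ - dG) / (2 * s) + (bb + s) * (th * (dG - 2 * th * nG ^ 2)) := by
    have hT0 : 0 ≤ dG - 2 * th * nG ^ 2 := le_trans (by positivity) hT
    rcases le_total (g₁ * C₅) (1 / 4) with hc | hc
    · have e12 : dG ≤ κ / 2 := by nlinarith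
      have e13 : κ / (4 * s) ≤ (κ - dG) / (2 * s) := by
        rw [div_le_div_iff₀ (by positivity) (by positivity)]
        nlinarith
      have e14 : 0 ≤ (bb + s) * (th * (dG - 2 * th * nG ^ 2)) := by positivity
      linarith
    · have e15 : -(g₁ * C₅ * κ / 2) ≤ (κ - dG) / (2 * s) := by
        rw [le_div_iff₀ (by positivity)]
        have e16 : 0 ≤ g₁ * C₅ * κ := by positivity
        nlinarith
      have e17 : 2 * C₅ * g₁ * κ ≤ (bb + s) * (th * (dG - 2 * th * nG ^ 2)) := by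
        calc 2 * C₅ * g₁ * κ = bb * th * (g₁ * κ / 16) := by rw [hbth]; ring
          _ ≤ bb * th * (dG - 2 * th * nG ^ 2) := by gcongr
          _ ≤ (bb + s) * (th * (dG - 2 * th * nG ^ 2)) := by
            have : 0 ≤ s * (th * (dG - 2 * th * nG ^ 2)) := by positivity
            nlinarith
      have e18 : κ / (4 * s) ≤ κ / 4 := by
        apply div_le_div_of_nonneg_left hκ (by norm_num)
        linarith
      nlinarith
  linarith

/-- jets of `w` and `W` give the jet of `UU` -/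
theorem UU_jet (hq : 0 < q) {w W : ℂ → ℝ} {w₀ W₀ dW κ : ℝ} {bw bW : ℂ} (hw : RJ w w₀ bw κ)
    (hW : RJ W W₀ bW dW) (hwW : w₀ ≤ W₀) (hn : ‖bW‖ ^ 2 ≤ C6 q * κ)
    (hd : dW ≤ C5 q * κ) (hd' : M0 q ≤ W₀ → κ / 8 ≤ dW) (hκ : 0 ≤ κ) :
    ∃ (β : ℂ) (d : ℝ), RJ (fun τ => UU q (w τ) (W τ)) (UU q w₀ W₀) β d ∧
      Real.exp (-(th q * gg q W₀)) / (4 * Real.sqrt (XX q w₀ W₀)) * κ ≤ d := by
  have hX1 : 1 ≤ XX q w₀ W₀ := XX_ge hq hwW
  set X := XX q w₀ W₀ with hX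
  have hX0 : 0 < X := by linarith
  set s := Real.sqrt X with hs
  have hs1 : 1 ≤ s := Real.one_le_sqrt.2 hX1
  have hs0 : 0 < s := by linarith
  have hs2 : s ^ 2 = X := Real.sq_sqrt hX0.le
  -- the jet of `gg q W`
  have jG : RJ (fun τ => gg q (W τ)) (gg q W₀) (g1 q W₀ * bW)
      (g1 q W₀ * dW + g2 q W₀ * ‖bW‖ ^ 2) :=
    RJ.comp hW (F' := g1 q) (Eventually.of_forall fun x => hasDerivAt_gg hq x) (hasDerivAt_g1 hq W₀)
  set bG : ℂ := g1 q W₀ * bW with hbG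
  set dG : ℝ := g1 q W₀ * dW + g2 q W₀ * ‖bW‖ ^ 2 with hdG
  -- the jet of `XX`
  have jX : RJ (fun τ => XX q (w τ) (W τ)) X (bG - bw) (dG - κ) := by
    have h1 := (jG.add (RJ.const (M0 q + Lc q + 1))).sub hw
    have e : gg q W₀ + (M0 q + Lc q + 1) - w₀ = X := by
      rw [hX]
      unfold XX
      ring
    rw [e, add_zero, add_zero] at h1
    refine h1.congr (Eventually.of_forall fun τ => ?_)
    show gg q (W τ) + (M0 q + Lc q + 1) - w τ = XX q (w τ) (W τ)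
    unfold XX
    ring
  set bX : ℂ := bG - bw with hbX
  -- the square root
  have jS : RJ (fun τ => Real.sqrt (XX q (w τ) (W τ))) s ((1 / (2 * s) : ℝ) * bX)
      (1 / (2 * s) * (dG - κ) + -(1 / (4 * X * s)) * ‖bX‖ ^ 2) := by
    refine RJ.comp jX (F' := fun x => 1 / (2 * Real.sqrt x)) ?_ ?_
    · filter_upwards [lt_mem_nhds hX0] with x hx
      exact Real.hasDerivAt_sqrt hx.ne'
    · have h1 := (Real.hasDerivAt_sqrt hX0.ne').const_mul 2
      have h2 := h1.inv (by rw [← hs]; positivity)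
      have e : -(2 * (1 / (2 * Real.sqrt X))) / (2 * Real.sqrt X) ^ 2 = -(1 / (4 * X * s)) := by
        rw [← hs, ← hs2]
        field_simp
        ring
      rw [e] at h2
      refine h2.congr_of_eventuallyEq (Eventually.of_forall fun x => ?_)
      show 1 / (2 * Real.sqrt x) = ((fun y => 2 * Real.sqrt y) x)⁻¹
      rw [one_div]
  -- the exponential
  set E := Real.exp (-(th q * gg q W₀)) with hE
  have hE0 : 0 < E := Real.exp_pos _
  have jE : RJ (fun τ => Real.exp (-(th q * gg q (W τ)))) E ((-(th q) * E : ℝ) * bG)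
      (-(th q) * E * dG + th q ^ 2 * E * ‖bG‖ ^ 2) := by
    have hder : ∀ x : ℝ, HasDerivAt (fun x => Real.exp (-(th q * x)))
        (-(th q) * Real.exp (-(th q * x))) x := by
      intro x
      have h1 : HasDerivAt (fun x : ℝ => -(th q * x)) (-(th q)) x := by
        have h2 := ((hasDerivAt_id x).const_mul (th q)).neg
        rw [mul_one] at h2
        exact h2
      simpa [mul_comm] using h1.exp
    refine RJ.comp jG (F := fun x => Real.exp (-(th q * x)))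
      (F' := fun x => -(th q) * Real.exp (-(th q * x))) (Eventually.of_forall hder) ?_
    have h1 := (hder (gg q W₀)).const_mul (-(th q))
    have e : -(th q) * (-(th q) * Real.exp (-(th q * gg q W₀))) = th q ^ 2 * E := by
      rw [hE]
      ring
    rwa [e] at h1
  have jU := (jE.mul ((RJ.const (bb q)).add jS)).neg
  rw [zero_add, zero_add] at jU
  refine ⟨_, _, jU, ?_⟩
  -- the inequality
  have hcr : -(‖bG‖ * ‖bX‖) ≤ (bG * conj bX).re := by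
    have h1 : |(bG * conj bX).re| ≤ ‖bG * conj bX‖ := Complex.abs_re_le_norm _
    rw [norm_mul, Complex.norm_conj] at h1
    exact (abs_le.1 h1).1
  have hg1 := g1_mem q W₀
  have hg2 := g2_mem hq W₀
  have hnG : ‖bG‖ = g1 q W₀ * ‖bW‖ := by
    rw [hbG, norm_mul, Complex.norm_real, Real.norm_of_nonneg hg1.1]
  have hd'' : g1 q W₀ * (κ / 8) ≤ g1 q W₀ * dW := by
    by_cases h : g1 q W₀ = 0
    · simp [h]
    · exact mul_le_mul_of_nonneg_left (hd' (g1_ne hq h).le) hg1.1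
  have key := u_ineq (th := th q) (bb := bb q) hκ (C5_pos hq) (C6_pos hq) rfl rfl hs1 hs2.symm
    hg1.1 hg1.2 hg2.1 hg2.2 (norm_nonneg bW) hn hd hd'' hdG hnG hcr
  have e1 : E / (4 * s) * κ = E * (κ / (4 * s)) := by ring
  rw [e1]
  have e2 : (((-(th q) * E : ℝ) : ℂ) * bG * conj (((1 / (2 * s) : ℝ) : ℂ) * bX)).re =
      -(th q) * E * (1 / (2 * s)) * (bG * conj bX).re := by
    have : ((-(th q) * E : ℝ) : ℂ) * bG * conj (((1 / (2 * s) : ℝ) : ℂ) * bX) =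
        ((-(th q) * E * (1 / (2 * s)) : ℝ) : ℂ) * (bG * conj bX) := by
      rw [map_mul, Complex.conj_ofReal]
      push_cast
      ring
    rw [this, Complex.re_ofReal_mul]
  have e3 : -(E * (1 / (2 * s) * (dG - κ) + -(1 / (4 * X * s)) * ‖bX‖ ^ 2) +
      (-(th q) * E * dG + th q ^ 2 * E * ‖bG‖ ^ 2) * (bb q + s) +
      2 * (((-(th q) * E : ℝ) : ℂ) * bG * conj (((1 / (2 * s) : ℝ) : ℂ) * bX)).re) =
      E * ((κ - dG) / (2 * s) + ‖bX‖ ^ 2 / (4 * X * s) +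
      (bb q + s) * (th q * dG - th q ^ 2 * ‖bG‖ ^ 2) + th q * (bG * conj bX).re / s) := by
    rw [e2]
    field_simp
    ring
  calc E * (κ / (4 * s)) ≤ E * ((κ - dG) / (2 * s) + ‖bX‖ ^ 2 / (4 * X * s) +
      (bb q + s) * (th q * dG - th q ^ 2 * ‖bG‖ ^ 2) + th q * (bG * conj bX).re / s) := by
        gcongr
    _ = _ := e3.symm

/-- the norm squared in terms of the four determinants -/
theorem NN_pos (hA : QB A q) (hB : QB B q) :
    0 < NN (lamq q) A B 0 0 ∧ 2 * lamq q ≤ NN (lamq q) A B 0 0 := by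
  have h1 : NN (lamq q) A B 0 0 = PP (lamq q) (wdg (uu A 0) (uu B 0)) (wdg (uu A 0) (uu' B 0))
      (wdg (uu' A 0) (uu B 0)) (wdg (uu' A 0) (uu' B 0)) := by
    have e1 : ∀ Y : Sys, tu Y 0 = uu' Y 0 := by
      intro Y
      unfold tu uu'
      simp
    unfold NN PP
    rw [e1, e1]
    simp
  have h2 : 2 * lamq q ≤ NN (lamq q) A B 0 0 := by
    rw [h1]
    exact PP_ge (det_one hA hB rfl rfl rfl rfl)
  exact ⟨by have := lamq_pos q; linarith, h2⟩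

/-- (1.2): the determinant of the relative frame is one. -/
theorem nn_lower (_hq : 0 < q) (hA : QB A q) (hB : QB B q) {z w : ℂ} (hz : z ∈ ball (0:ℂ) 1)
    (hw : w ∈ ball (0:ℂ) 1) : 2 * lamq q ≤ NN (lamq q) A B z w := by
  have h0 : (0:ℂ) ∈ ball (0:ℂ) 1 := mem_ball_self one_pos
  have h1 := NN_win (A := A) (B := B) (lamq q) hz hw h0 h0
  have h2 : ∀ c : ℂ, mob c 0 = c := fun c => by simp [mob]
  rw [h2, h2] at h1
  rw [← h1]
  exact (NN_pos (qb_win hA hz) (qb_win hB hw)).2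

/-- `ww ≤ log NN` where `ww` is the logarithm of a positive number -/
theorem ww_le (_hq : 0 < q) {z w : ℂ} (hz : z ∈ ball (0:ℂ) 1) (hw : w ∈ ball (0:ℂ) 1)
    (hs : wdg (uu A z) (uu B w) ≠ 0) : ww A B z w ≤ Real.log (NN (lamq q) A B z w) := by
  have hz1 : 0 < 1 - ‖z‖ ^ 2 := by
    have := mem_ball_zero_iff.1 hz
    have h0 := norm_nonneg z
    nlinarith
  have hw1 : 0 < 1 - ‖w‖ ^ 2 := by
    have := mem_ball_zero_iff.1 hw
    have h0 := norm_nonneg w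
    nlinarith
  have hl := lamq_pos q
  unfold ww NN
  refine Real.log_le_log (by positivity) ?_
  apply div_le_div_of_nonneg_right _ (by positivity)
  have h1 : 0 ≤ lamq q * ‖wdg (tu A z) (uu B w)‖ ^ 2 := by positivity
  have h2 : 0 ≤ lamq q * ‖wdg (uu A z) (tu B w)‖ ^ 2 := by positivity
  have h3 : 0 ≤ lamq q ^ 2 * ‖wdg (tu A z) (tu B w)‖ ^ 2 := by positivity
  linarith

/-- (2.2) along holomorphic curves. -/
theorem pair_jet (hq : 0 < q) (hA : QB A q) (hB : QB B q) {a b : ℂ → ℂ}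
    (ha : AnalyticAt ℂ a 0) (hb : AnalyticAt ℂ b 0) (ha1 : a 0 ∈ ball (0:ℂ) 1)
    (hb1 : b 0 ∈ ball (0:ℂ) 1) (hs : wdg (uu A (a 0)) (uu B (b 0)) ≠ 0) :
    ∃ (β : ℂ) (d : ℝ), RJ (fun τ => UU q (ww A B (a τ) (b τ))
        (Real.log (NN (lamq q) A B (a τ) (b τ))))
      (UU q (ww A B (a 0) (b 0)) (Real.log (NN (lamq q) A B (a 0) (b 0)))) β d ∧
      Real.exp (-(th q * gg q (Real.log (NN (lamq q) A B (a 0) (b 0))))) /
        (4 * Real.sqrt (XX q (ww A B (a 0) (b 0)) (Real.log (NN (lamq q) A B (a 0) (b 0))))) *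
        (‖deriv a 0‖ ^ 2 / (1 - ‖a 0‖ ^ 2) ^ 2 + ‖deriv b 0‖ ^ 2 / (1 - ‖b 0‖ ^ 2) ^ 2) ≤ d := by
  obtain ⟨a₁, ha₁, ha0, hda, hea⟩ := curve_win ha ha1
  obtain ⟨b₁, hb₁, hb0, hdb, heb⟩ := curve_win hb hb1
  have h0 : (0:ℂ) ∈ ball (0:ℂ) 1 := mem_ball_self one_pos
  have hm : ∀ c : ℂ, mob c 0 = c := fun c => by simp [mob]
  set A₁ := win A (a 0) with hA₁
  set B₁ := win B (b 0) with hB₁
  have hQA : QB A₁ q := qb_win hA ha1
  have hQB : QB B₁ q := qb_win hB hb1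
  -- transport to the centre
  have eN : ∀ᶠ τ in 𝓝 (0:ℂ), NN (lamq q) A₁ B₁ (a₁ τ) (b₁ τ) = NN (lamq q) A B (a τ) (b τ) := by
    filter_upwards [hea, heb] with τ h1 h2
    rw [hA₁, hB₁, NN_win (lamq q) ha1 hb1 h1.1 h2.1, h1.2, h2.2]
  have ew : ∀ᶠ τ in 𝓝 (0:ℂ), ww A₁ B₁ (a₁ τ) (b₁ τ) = ww A B (a τ) (b τ) := by
    filter_upwards [hea, heb] with τ h1 h2
    rw [hA₁, hB₁, ww_win ha1 hb1 h1.1 h2.1, h1.2, h2.2]
  have eN0 : NN (lamq q) A₁ B₁ 0 0 = NN (lamq q) A B (a 0) (b 0) := by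
    have := eN.self_of_nhds
    rwa [ha0, hb0] at this
  have ew0 : ww A₁ B₁ 0 0 = ww A B (a 0) (b 0) := by
    have := ew.self_of_nhds
    rwa [ha0, hb0] at this
  -- the determinant of the first vectors is not zero
  have hs₁ : wdg (uu A₁ 0) (uu B₁ 0) ≠ 0 := by
    have h1 := (uu_win (A := A) ha1 h0).1
    have h2 := (uu_win (A := B) hb1 h0).1
    rw [hm] at h1 h2
    have hsq : ∀ c : ℂ, c ∈ ball (0:ℂ) 1 → (Real.sqrt (1 - ‖c‖ ^ 2) : ℂ) ≠ 0 := by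
      intro c hc
      have hc1 := mem_ball_zero_iff.1 hc
      have hc2 := norm_nonneg c
      exact_mod_cast (Real.sqrt_pos.2 (by nlinarith)).ne'
    rw [hA₁, hB₁, h1, h2, mul_zero, mul_zero, add_zero]
    have e : wdg ((1 / (Real.sqrt (1 - ‖a 0‖ ^ 2) : ℂ)) • uu A (a 0))
        ((1 / (Real.sqrt (1 - ‖b 0‖ ^ 2) : ℂ)) • uu B (b 0)) =
        1 / (Real.sqrt (1 - ‖a 0‖ ^ 2) : ℂ) * (1 / (Real.sqrt (1 - ‖b 0‖ ^ 2) : ℂ)) *
          wdg (uu A (a 0)) (uu B (b 0)) := by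
      simp only [wdg, Prod.smul_fst, Prod.smul_snd, smul_eq_mul]
      ring
    rw [e]
    exact mul_ne_zero (mul_ne_zero (one_div_ne_zero (hsq _ ha1)) (one_div_ne_zero (hsq _ hb1))) hs
  -- the jets
  obtain ⟨cw, jw⟩ := ww_jet0 hQA hQB ha₁ hb₁ ha0 hb0 hs₁
  set x11 := wdg (uu A₁ 0) (uu B₁ 0) with hx11
  set x12 := wdg (uu A₁ 0) (uu' B₁ 0) with hx12
  set x21 := wdg (uu' A₁ 0) (uu B₁ 0) with hx21
  set x22 := wdg (uu' A₁ 0) (uu' B₁ 0) with hx22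
  have hdet := det_one hQA hQB hx11 hx12 hx21 hx22
  have jN := NN_jet0 hQA hQB ha₁ hb₁ ha0 hb0 (lamq q) hx11 hx12 hx21 hx22
  have hPN : NN (lamq q) A₁ B₁ 0 0 = PP (lamq q) x11 x12 x21 x22 := by
    have := jN.zero
    rwa [ha0, hb0] at this
  set P := PP (lamq q) x11 x12 x21 x22 with hP
  have hP0 : 0 < P := by rw [← hPN]; exact (NN_pos hQA hQB).1
  have hQ0 : ‖A₁.Q 0‖ ≤ q := by simpa using hQA.bd 0 h0
  have hR0 : ‖B₁.Q 0‖ ≤ q := by simpa using hQB.bd 0 h0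
  set α := deriv a₁ 0 with hα
  set β := deriv b₁ 0 with hβ
  have jL : RJ (fun τ => Real.log (NN (lamq q) A₁ B₁ (a₁ τ) (b₁ τ))) (Real.log P)
      ((P⁻¹ : ℝ) * n1 (lamq q) (A₁.Q 0) (B₁.Q 0) α β x11 x12 x21 x22)
      (P⁻¹ * n2 (lamq q) (A₁.Q 0) (B₁.Q 0) α β x11 x12 x21 x22 +
        -(P ^ 2)⁻¹ * ‖n1 (lamq q) (A₁.Q 0) (B₁.Q 0) α β x11 x12 x21 x22‖ ^ 2) := by
    refine RJ.comp jN (F' := fun x => x⁻¹) ?_ ?_
    · filter_upwards [lt_mem_nhds hP0] with x hx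
      exact Real.hasDerivAt_log hx.ne'
    · exact hasDerivAt_inv hP0.ne'
  set bW : ℂ := (P⁻¹ : ℝ) * n1 (lamq q) (A₁.Q 0) (B₁.Q 0) α β x11 x12 x21 x22 with hbW
  set dW : ℝ := P⁻¹ * n2 (lamq q) (A₁.Q 0) (B₁.Q 0) α β x11 x12 x21 x22 +
        -(P ^ 2)⁻¹ * ‖n1 (lamq q) (A₁.Q 0) (B₁.Q 0) α β x11 x12 x21 x22‖ ^ 2 with hdW
  have edW : dW = n2 (lamq q) (A₁.Q 0) (B₁.Q 0) α β x11 x12 x21 x22 / P -
      ‖n1 (lamq q) (A₁.Q 0) (B₁.Q 0) α β x11 x12 x21 x22‖ ^ 2 / P ^ 2 := by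
    rw [hdW, div_eq_mul_inv, div_eq_mul_inv]
    ring
  have enW : ‖bW‖ ^ 2 = ‖n1 (lamq q) (A₁.Q 0) (B₁.Q 0) α β x11 x12 x21 x22‖ ^ 2 / P ^ 2 := by
    rw [hbW, norm_mul, Complex.norm_real, Real.norm_of_nonneg (by positivity)]
    field_simp
  have hwW : ww A₁ B₁ 0 0 ≤ Real.log P := by
    have := ww_le (A := A₁) (B := B₁) hq h0 h0 hs₁
    rwa [hPN] at this
  obtain ⟨c, d, jU, hd⟩ := UU_jet hq jw jL hwW
    (by rw [enW]; exact n1_le hq hQ0 hR0 hdet)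
    (by rw [edW]; exact levi_le hq hQ0 hR0 hdet)
    (fun h => by rw [edW]; exact levi_ge hq hQ0 hR0 hdet h)
    (by positivity)
  rw [← hPN, eN0, ew0] at jU hd
  refine ⟨c, d, jU.congr ?_, ?_⟩
  · filter_upwards [eN, ew] with τ h1 h2
    rw [h1, h2]
  · rwa [hda, hdb, div_pow, div_pow] at hd

end Pool.Agent.MP_ae5b4e_an_NB4
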