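import Pool.Agent.Lib.MP_ae5b4e_an_NB4.PairIfc
import Pool.Agent.Lib.MP_ae5b4e_an_NB4.DSC
import Pool.Agent.Lib.MP_ae5b4e_an_NB4.Comp

/-!
# MP_ae5b4e_an, NB_4: the function `Φ` (3.1)
-/

noncomputable section

namespace Pool.Agent.MP_ae5b4e_an_NB4

open Complex Set Filter Topology Metric
open Pool.Agent.MP_ae5b4e_an_NBT (St)
open Pool.Agent.MP_ae5b4e_an_NB2 (Sys)

variable {Y : Sys} {h q₁ : ℝ} {q : ℕ} [NeZero q] {z : ZMod q → ℂ} {π₀ : ℂ} {l m : ℂ}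

/-- `log N` for two labels -/
def W2 (Y : Sys) (h q₁ : ℝ) (l m : ℂ) : ℝ :=
  Real.log (NN (lamq q₁) (dsys Y h) (dsys Y h) (psi h l) (psi h m))

/-- `w` for two labels -/
def w2 (Y : Sys) (h : ℝ) (l m : ℂ) : ℝ := ww (dsys Y h) (dsys Y h) (psi h l) (psi h m)

/-- the pair function of two labels -/
def U2 (Y : Sys) (h q₁ : ℝ) (l m : ℂ) : ℝ := UU q₁ (w2 Y h l m) (W2 Y h q₁ l m)

/-- the weight -/
def wt (Y : Sys) (h q₁ : ℝ) (l m : ℂ) : ℝ :=
  Real.exp (-(th q₁ * gg q₁ (W2 Y h q₁ l m))) /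
    (4 * Real.sqrt (XX q₁ (w2 Y h l m) (W2 Y h q₁ l m)))

def Phi (Y : Sys) (h q₁ : ℝ) (q : ℕ) [NeZero q] (z : ZMod q → ℂ) : ℝ :=
  (∑ i, ∑ j, if i = j then 0 else U2 Y h q₁ (z i) (z j)) + ∑ j, (z j).im ^ 2

private theorem UU_neg (hq : 0 < q₁) (a b : ℝ) : UU q₁ a b < 0 := by
  have h5 := C5_pos hq
  have h6 := C6_pos hq
  have hth : 0 < th q₁ := by
    unfold th
    positivity
  have hbb : 0 < bb q₁ := by
    unfold bb
    positivity
  have h7 := Real.sqrt_nonneg (XX q₁ a b)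
  unfold UU
  rw [neg_lt_zero]
  exact mul_pos (Real.exp_pos _) (by linarith)

private theorem le_single {α : Type} (s : Finset α) {f : α → ℝ} {i : α} (hi : i ∈ s)
    (hf : ∀ k, f k ≤ 0) : ∑ k ∈ s, f k ≤ f i := by
  classical
  rw [← Finset.add_sum_erase s f hi]
  have := Finset.sum_nonpos (s := s.erase i) (f := f) fun k _ => hf k
  linarith

private theorem pair_nonpos (H : Bdd Y h q₁ q π₀) (i j : ZMod q) :
    (if i = j then 0 else U2 Y h q₁ (z i) (z j)) ≤ 0 := by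
  split_ifs
  · exact le_rfl
  · exact (UU_neg H.q_pos _ _).le

private theorem sum_im_le (hz : z ∈ Om Y h q) : ∑ j, (z j).im ^ 2 ≤ q * h ^ 2 := by
  have h1 : ∀ j ∈ (Finset.univ : Finset (ZMod q)), (z j).im ^ 2 ≤ h ^ 2 := by
    intro j _
    have h2 := hz.1 j
    exact sq_le_sq' h2.1.le h2.2.le
  have h3 := Finset.sum_le_card_nsmul _ _ _ h1
  rwa [Finset.card_univ, ZMod.card, nsmul_eq_mul] at h3

/-- `XX ≥ 1` -/
theorem U2_neg (H : Bdd Y h q₁ q π₀) (hl : l ∈ St (-h) h) (hm : m ∈ St (-h) h)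
    (hs : Y.s l m ≠ 0) : U2 Y h q₁ l m < 0 := by
  exact UU_neg H.q_pos _ _

theorem Phi_le (H : Bdd Y h q₁ q π₀) (hz : z ∈ Om Y h q) : Phi Y h q₁ q z ≤ q * h ^ 2 := by
  have h1 : ∑ i, ∑ j, (if i = j then 0 else U2 Y h q₁ (z i) (z j)) ≤ 0 :=
    Finset.sum_nonpos fun i _ => Finset.sum_nonpos fun j _ => pair_nonpos H i j
  have h2 := sum_im_le hz
  unfold Phi
  linarith

/-- every single pair term is `≥ Φ - q h²` -/
theorem U2_ge (H : Bdd Y h q₁ q π₀) (hz : z ∈ Om Y h q) {i j : ZMod q} (hij : i ≠ j) :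
    Phi Y h q₁ q z - q * h ^ 2 ≤ U2 Y h q₁ (z i) (z j) := by
  have h2 := sum_im_le hz
  have h3 : ∑ i, ∑ j, (if i = j then 0 else U2 Y h q₁ (z i) (z j)) ≤
      U2 Y h q₁ (z i) (z j) := by
    calc ∑ i, ∑ j, (if i = j then 0 else U2 Y h q₁ (z i) (z j))
        ≤ ∑ j, (if i = j then 0 else U2 Y h q₁ (z i) (z j)) := by
          refine le_single (Finset.univ : Finset (ZMod q)) (Finset.mem_univ i) fun k => ?_
          exact Finset.sum_nonpos fun j _ => pair_nonpos H k j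
      _ ≤ (if i = j then 0 else U2 Y h q₁ (z i) (z j)) := by
          refine le_single (Finset.univ : Finset (ZMod q)) (Finset.mem_univ j) fun k => ?_
          exact pair_nonpos H i k
      _ = U2 Y h q₁ (z i) (z j) := if_neg hij
  unfold Phi
  linarith

end Pool.Agent.MP_ae5b4e_an_NB4
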