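import Pool.Agent.Lib.MP_ae5b4e_an_NB4.Defs

/-!
# MP_ae5b4e_an, NB_4: the chart of the strip
-/

noncomputable section

namespace Pool.Agent.MP_ae5b4e_an_NB4

open Complex Set Filter Topology Metric
open Pool.Agent.MP_ae5b4e_an_NBT (St)
open Pool.Agent.MP_ae5b4e_an_NB2 (Sys)
open scoped ComplexConjugate

variable {h : ℝ} {l z : ℂ}

namespace StripA

theorem cosh_re_im (x : ℂ) : Complex.cosh x =
    ((Real.cosh x.re * Real.cos x.im : ℝ) : ℂ) +
      ((Real.sinh x.re * Real.sin x.im : ℝ) : ℂ) * I := by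
  conv_lhs => rw [← re_add_im x, Complex.cosh_add, Complex.cosh_mul_I, Complex.sinh_mul_I]
  push_cast
  ring

theorem sinh_re_im (x : ℂ) : Complex.sinh x =
    ((Real.sinh x.re * Real.cos x.im : ℝ) : ℂ) +
      ((Real.cosh x.re * Real.sin x.im : ℝ) : ℂ) * I := by
  conv_lhs => rw [← re_add_im x, Complex.sinh_add, Complex.cosh_mul_I, Complex.sinh_mul_I]
  push_cast
  ring

theorem norm_sq_form (a b : ℝ) : ‖((a : ℂ) + (b : ℂ) * I)‖ ^ 2 = a ^ 2 + b ^ 2 := by
  rw [← Complex.normSq_eq_norm_sq, Complex.normSq_apply]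
  simp
  ring

theorem norm_diff (x : ℂ) :
    ‖Complex.cosh x‖ ^ 2 - ‖Complex.sinh x‖ ^ 2 = Real.cos (2 * x.im) := by
  rw [cosh_re_im, sinh_re_im, norm_sq_form, norm_sq_form, Real.cos_two_mul]
  have h1 := Real.cosh_sq_sub_sinh_sq x.re
  have h2 := Real.sin_sq_add_cos_sq x.im
  have h3 : Real.sin x.im ^ 2 = 1 - Real.cos x.im ^ 2 := by linarith
  have h4 : Real.cosh x.re ^ 2 = 1 + Real.sinh x.re ^ 2 := by linarith
  rw [mul_pow, mul_pow, mul_pow, mul_pow, h3, h4]
  ring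

theorem cosh_ne {x : ℂ} (hx : 0 < Real.cos (2 * x.im)) : Complex.cosh x ≠ 0 := by
  intro h0
  have h1 := norm_diff x
  rw [h0, norm_zero] at h1
  nlinarith [sq_nonneg ‖Complex.sinh x‖]

theorem tanh_eq {x : ℂ} (hx : Complex.cosh x ≠ 0) :
    Complex.tanh x * (Complex.exp (2 * x) + 1) = Complex.exp (2 * x) - 1 := by
  have e1 : Complex.exp (2 * x) = Complex.exp x * Complex.exp x := by
    rw [two_mul, Complex.exp_add]
  have e2 : Complex.exp x * Complex.exp (-x) = 1 := by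
    rw [← Complex.exp_add, add_neg_cancel, Complex.exp_zero]
  have e3 : Complex.exp (2 * x) + 1 = 2 * Complex.exp x * Complex.cosh x := by
    rw [Complex.cosh, e1]
    linear_combination -e2
  have e4 : Complex.exp (2 * x) - 1 = 2 * Complex.exp x * Complex.sinh x := by
    rw [Complex.sinh, e1]
    linear_combination e2
  rw [e3, e4, Complex.tanh_eq_sinh_div_cosh]
  field_simp

theorem exp_add_one_ne {x : ℂ} (hx : Complex.cosh x ≠ 0) : Complex.exp (2 * x) + 1 ≠ 0 := by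
  have e1 : Complex.exp (2 * x) = Complex.exp x * Complex.exp x := by
    rw [two_mul, Complex.exp_add]
  have e2 : Complex.exp x * Complex.exp (-x) = 1 := by
    rw [← Complex.exp_add, add_neg_cancel, Complex.exp_zero]
  have e3 : Complex.exp (2 * x) + 1 = 2 * Complex.exp x * Complex.cosh x := by
    rw [Complex.cosh, e1]
    linear_combination -e2
  rw [e3]
  exact mul_ne_zero (mul_ne_zero two_ne_zero (Complex.exp_ne_zero _)) hx

/-- the argument of `tanh` -/
def xx (h : ℝ) (l : ℂ) : ℂ := Real.pi / (4 * h) * l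

theorem xx_eq (h : ℝ) (l : ℂ) : xx h l = ((Real.pi / (4 * h) : ℝ) : ℂ) * l := by
  unfold xx
  push_cast
  rfl

theorem xx_im (h : ℝ) (l : ℂ) : 2 * (xx h l).im = Real.pi * l.im / (2 * h) := by
  rw [xx_eq, Complex.im_ofReal_mul]
  by_cases h0 : h = 0
  · simp [h0]
  · field_simp
    ring

theorem im_bd (hh : 0 < h) (hl : l ∈ St (-h) h) : |2 * (xx h l).im| < Real.pi / 2 := by
  rw [xx_im]
  obtain ⟨h1, h2⟩ := hl
  have hp := Real.pi_pos
  rw [abs_lt]
  constructor
  · rw [lt_div_iff₀ (by positivity)]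
    nlinarith
  · rw [div_lt_iff₀ (by positivity)]
    nlinarith

theorem cos_pos' (hh : 0 < h) (hl : l ∈ St (-h) h) : 0 < Real.cos (2 * (xx h l).im) := by
  have h1 := im_bd hh hl
  rw [abs_lt] at h1
  exact Real.cos_pos_of_mem_Ioo ⟨by linarith [h1.1], h1.2⟩

theorem psi_eq (h : ℝ) (l : ℂ) : psi h l = Complex.tanh (xx h l) := rfl

theorem one_sub_ne (hz : z ∈ ball (0:ℂ) 1) : 1 - z ≠ 0 := by
  intro h0
  rw [mem_ball_zero_iff] at hz
  have h1 : z = 1 := (sub_eq_zero.1 h0).symm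
  rw [h1, norm_one] at hz
  exact lt_irrefl _ hz

theorem w_re (hz : z ∈ ball (0:ℂ) 1) : 0 < ((1 + z) / (1 - z)).re := by
  have h1 := one_sub_ne hz
  rw [mem_ball_zero_iff] at hz
  have h2 : 0 < Complex.normSq (1 - z) := Complex.normSq_pos.2 h1
  have h3 : ‖z‖ ^ 2 = z.re * z.re + z.im * z.im := by
    rw [← Complex.normSq_eq_norm_sq, Complex.normSq_apply]
  have h4 : ‖z‖ ^ 2 < 1 := by
    have := norm_nonneg z
    nlinarith
  rw [Complex.div_re, ← add_div]
  apply div_pos _ h2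
  simp only [Complex.add_re, Complex.one_re, Complex.sub_re, Complex.add_im, Complex.one_im,
    Complex.sub_im]
  nlinarith

theorem two_log (hh : 0 < h) (w : ℂ) :
    2 * xx h (2 * h / Real.pi * w) = w := by
  unfold xx
  have h1 : (h : ℂ) ≠ 0 := by exact_mod_cast hh.ne'
  have h2 : (Real.pi : ℂ) ≠ 0 := by exact_mod_cast Real.pi_ne_zero
  field_simp
  ring

end StripA

open StripA

/-- `tanh` maps `|Im| < π/4` to the unit disc: `|e^{2x} - 1| < |e^{2x} + 1|` iff `cos (2 Im x) > 0`.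
`Complex.tanh x = (exp (2x) - 1) / (exp (2x) + 1)`. -/
theorem psi_mem (hh : 0 < h) (hl : l ∈ St (-h) h) : psi h l ∈ ball (0:ℂ) 1 := by
  have h1 := cos_pos' hh hl
  have h2 := norm_diff (xx h l)
  have h3 := cosh_ne h1
  rw [mem_ball_zero_iff, psi_eq, Complex.tanh_eq_sinh_div_cosh, norm_div,
    div_lt_one (norm_pos_iff.2 h3)]
  apply lt_of_pow_lt_pow_left₀ 2 (norm_nonneg _)
  linarith

/-- `(1 + z) / (1 - z)` has positive real part for `|z| < 1`, so its argument is in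
`(-π/2, π/2)`. -/
theorem phi_mem (hh : 0 < h) (hz : z ∈ ball (0:ℂ) 1) : phi h z ∈ St (-h) h := by
  have h1 := Complex.abs_arg_lt_pi_div_two_iff.2 (Or.inl (w_re hz))
  rw [abs_lt] at h1
  have h2 : (phi h z).im = 2 * h / Real.pi * Complex.arg ((1 + z) / (1 - z)) := by
    unfold phi
    have e : (2 * (h : ℂ) / (Real.pi : ℂ)) = ((2 * h / Real.pi : ℝ) : ℂ) := by push_cast; rfl
    rw [e, Complex.im_ofReal_mul, Complex.log_im]
  have hp := Real.pi_pos
  have hk : 0 < 2 * h / Real.pi := by positivity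
  have hk2 : 2 * h / Real.pi * (Real.pi / 2) = h := by field_simp
  constructor
  · rw [h2]
    nlinarith
  · rw [h2]
    nlinarith

/-- `tanh (log w / 2) = (w - 1) / (w + 1)` with `w = (1 + z) / (1 - z)`. -/
theorem psi_phi (hh : 0 < h) (hz : z ∈ ball (0:ℂ) 1) : psi h (phi h z) = z := by
  have h1 := one_sub_ne hz
  have h3 := cosh_ne (cos_pos' hh (phi_mem hh hz))
  have hw : (1 + z) / (1 - z) ≠ 0 := by
    intro h0
    have := w_re hz
    rw [h0] at this
    simp at this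
  have h4 := tanh_eq h3
  have h5 : 2 * xx h (phi h z) = Complex.log ((1 + z) / (1 - z)) := two_log hh _
  rw [h5, Complex.exp_log hw] at h4
  rw [psi_eq]
  have h6 : (1 + z) / (1 - z) + 1 = 2 / (1 - z) := by
    field_simp
    ring
  have h7 : (1 + z) / (1 - z) - 1 = 2 * z / (1 - z) := by
    field_simp
    ring
  rw [h6, h7, ← mul_div_assoc, div_left_inj' h1] at h4
  have h8 : (2 : ℂ) ≠ 0 := two_ne_zero
  apply mul_right_cancel₀ h8
  rw [h4, mul_comm]

/-- `(1 + tanh x) / (1 - tanh x) = exp (2 x)` and `log (exp (2 x)) = 2 x` for `|Im 2x| < π`. -/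
theorem phi_psi (hh : 0 < h) (hl : l ∈ St (-h) h) : phi h (psi h l) = l := by
  have h3 := cosh_ne (cos_pos' hh hl)
  have h4 := tanh_eq h3
  have h5 := exp_add_one_ne h3
  have h6 := one_sub_ne (psi_mem hh hl)
  have h7 : (1 + psi h l) / (1 - psi h l) = Complex.exp (2 * xx h l) := by
    rw [div_eq_iff h6, psi_eq]
    linear_combination h4
  have h8 := im_bd hh hl
  rw [abs_lt] at h8
  have hp := Real.pi_pos
  have h9 : (2 * xx h l).im = 2 * (xx h l).im := by
    rw [Complex.mul_im]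
    simp
  unfold phi
  rw [h7, Complex.log_exp (by rw [h9]; linarith [h8.1]) (by rw [h9]; linarith [h8.2])]
  unfold xx
  have e1 : (h : ℂ) ≠ 0 := by exact_mod_cast hh.ne'
  have e2 : (Real.pi : ℂ) ≠ 0 := by exact_mod_cast Real.pi_ne_zero
  field_simp
  ring

/-- `tanh' = 1 - tanh²` (where `cosh ≠ 0`, which holds since `|Im| < π / 4`). -/
theorem psi_deriv (hh : 0 < h) (hl : l ∈ St (-h) h) :
    HasDerivAt (psi h) ((Real.pi / (4 * h) : ℝ) * (1 - psi h l ^ 2)) l := by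
  have h3 := cosh_ne (cos_pos' hh hl)
  have h1 : HasDerivAt (xx h) ((Real.pi / (4 * h) : ℝ) : ℂ) l := by
    have := (hasDerivAt_id l).const_mul ((Real.pi / (4 * h) : ℝ) : ℂ)
    rw [mul_one] at this
    refine this.congr_of_eventuallyEq (Eventually.of_forall fun y => ?_)
    exact xx_eq h y
  have h2 := (h1.csinh).div h1.ccosh h3
  have h4 : psi h = fun y => Complex.sinh (xx h y) / Complex.cosh (xx h y) := by
    funext y
    rw [psi_eq, Complex.tanh_eq_sinh_div_cosh]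
  rw [h4]
  refine h2.congr_deriv ?_
  have h5 := Complex.cosh_sq_sub_sinh_sq (xx h l)
  rw [div_pow]
  field_simp

/-- derivative of `(2h/π) log ((1+z)/(1-z))` -/
theorem phi_deriv (hh : 0 < h) (hz : z ∈ ball (0:ℂ) 1) :
    HasDerivAt (phi h) (4 * h / Real.pi / (1 - z ^ 2)) z := by
  have h1 := one_sub_ne hz
  have hz' : -z ∈ ball (0:ℂ) 1 := by
    rw [mem_ball_zero_iff, norm_neg]
    exact mem_ball_zero_iff.1 hz
  have h2 := one_sub_ne hz'
  rw [sub_neg_eq_add] at h2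
  have h3 : HasDerivAt (fun y : ℂ => 1 + y) 1 z := (hasDerivAt_id z).const_add 1
  have h4 : HasDerivAt (fun y : ℂ => 1 - y) (-1) z := (hasDerivAt_id z).const_sub 1
  have h5 := (h3.div h4 h1).clog (Complex.mem_slitPlane_iff.2 (Or.inl (w_re hz)))
  have h6 := h5.const_mul (2 * (h : ℂ) / Real.pi)
  have h7 : (1 : ℂ) - z ^ 2 = (1 + z) * (1 - z) := by ring
  refine h6.congr_deriv ?_
  rw [h7]
  have e1 : (h : ℂ) ≠ 0 := by exact_mod_cast hh.ne'
  have e2 : (Real.pi : ℂ) ≠ 0 := by exact_mod_cast Real.pi_ne_zero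
  simp only [Pi.div_apply]
  field_simp
  ring

/-- `1 - |tanh x|² = cos (2 Im x) / |cosh x|²`, `1 - tanh² = 1 / cosh²`: the conformal density of
the strip is `D(l) = (4h/π) cos (π Im l / 2h)`. -/
theorem psi_conf (hh : 0 < h) (hl : l ∈ St (-h) h) :
    1 - ‖psi h l‖ ^ 2 = ‖((Real.pi / (4 * h) : ℝ) : ℂ) * (1 - psi h l ^ 2)‖ *
      (4 * h / Real.pi * Real.cos (Real.pi * l.im / (2 * h))) := by
  have h3 := cosh_ne (cos_pos' hh hl)
  have h4 := norm_diff (xx h l)
  have h5 := Complex.cosh_sq_sub_sinh_sq (xx h l)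
  have hn : 0 < ‖Complex.cosh (xx h l)‖ := norm_pos_iff.2 h3
  have e1 : 1 - psi h l ^ 2 = 1 / Complex.cosh (xx h l) ^ 2 := by
    rw [psi_eq, Complex.tanh_eq_sinh_div_cosh, div_pow, eq_div_iff (pow_ne_zero 2 h3), sub_mul,
      div_mul_cancel₀ _ (pow_ne_zero 2 h3), one_mul]
    exact h5
  have e2 : ‖psi h l‖ ^ 2 = ‖Complex.sinh (xx h l)‖ ^ 2 / ‖Complex.cosh (xx h l)‖ ^ 2 := by
    rw [psi_eq, Complex.tanh_eq_sinh_div_cosh, norm_div, div_pow]
  rw [e1, e2, ← xx_im, ← h4, norm_mul, norm_div, norm_one, norm_pow, Complex.norm_real,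
    Real.norm_of_nonneg (by positivity)]
  have hp := Real.pi_pos
  field_simp

end Pool.Agent.MP_ae5b4e_an_NB4
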