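import Pool.Agent.Lib.MP_ae5b4e_an_NB4.StripA

/-!
# MP_ae5b4e_an, NB_4: the system in the coordinate of the disc
-/

noncomputable section

namespace Pool.Agent.MP_ae5b4e_an_NB4

open Complex Set Filter Topology Metric
open Pool.Agent.MP_ae5b4e_an_NBT (St)
open Pool.Agent.MP_ae5b4e_an_NB2 (Sys)
open scoped ComplexConjugate

variable {Y : Sys} {h : ℝ} {l m z w : ℂ}

private theorem rt_slit (hz : z ∈ ball (0:ℂ) 1) : 1 - z ^ 2 ∈ slitPlane := by
  rw [mem_ball_zero_iff] at hz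
  refine Or.inl ?_
  have h1 : (z ^ 2).re ≤ ‖z ^ 2‖ := Complex.re_le_norm _
  have h2 : ‖z ^ 2‖ < 1 := by
    rw [norm_pow]
    nlinarith [norm_nonneg z]
  simp only [sub_re, one_re]
  linarith

/-- `1 - z²` has positive real part, so it is in the slit plane and its square root is `≠ 0`. -/
theorem rt_ne (hh : 0 < h) (hz : z ∈ ball (0:ℂ) 1) : rt h z ≠ 0 := by
  have hu := rt_slit hz
  have hs : (Real.sqrt (Real.pi / (4 * h)) : ℂ) ≠ 0 := by
    have : 0 < Real.sqrt (Real.pi / (4 * h)) := Real.sqrt_pos.2 (by positivity)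
    exact_mod_cast this.ne'
  unfold rt
  refine mul_ne_zero hs ?_
  rw [Complex.cpow_ne_zero_iff_of_exponent_ne_zero (by norm_num)]
  exact slitPlane_ne_zero hu

theorem rt_deriv (hh : 0 < h) (hz : z ∈ ball (0:ℂ) 1) : HasDerivAt (rt h) (rt' h z) z := by
  have hu := rt_slit hz
  have hu0 := slitPlane_ne_zero hu
  have h1 : HasDerivAt (fun z : ℂ => 1 - z ^ 2) (-(2 * z)) z := by
    have := ((hasDerivAt_id z).pow 2).const_sub 1
    simpa using this
  have h2 := (h1.cpow_const (c := (1 / 2 : ℂ)) hu).const_mul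
    (Real.sqrt (Real.pi / (4 * h)) : ℂ)
  have h3 : HasDerivAt (rt h) ((Real.sqrt (Real.pi / (4 * h)) : ℂ) *
      (1 / 2 * (1 - z ^ 2) ^ (1 / 2 - 1 : ℂ) * -(2 * z))) z := h2
  refine h3.congr_deriv ?_
  rw [Complex.cpow_sub _ _ hu0, Complex.cpow_one]
  unfold rt' rt
  field_simp

/-- `rt ^ 2 * φ' = 1` -/
theorem rt_sq (hh : 0 < h) (hz : z ∈ ball (0:ℂ) 1) :
    rt h z ^ 2 * (4 * h / Real.pi / (1 - z ^ 2)) = 1 := by
  have hu0 := slitPlane_ne_zero (rt_slit hz)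
  have h1 : ((Real.sqrt (Real.pi / (4 * h)) : ℂ)) ^ 2 = Real.pi / (4 * h) := by
    have h2 : Real.sqrt (Real.pi / (4 * h)) ^ 2 = Real.pi / (4 * h) :=
      Real.sq_sqrt (by positivity)
    exact_mod_cast h2
  have h3 : (((1 - z ^ 2) ^ (1 / 2 : ℂ)) : ℂ) ^ 2 = 1 - z ^ 2 := by
    have h4 := Complex.cpow_nat_inv_pow (1 - z ^ 2) (n := 2) (by norm_num)
    have h5 : ((2 : ℕ) : ℂ)⁻¹ = 1 / 2 := by norm_num
    rwa [h5] at h4
  have hh' : (h : ℂ) ≠ 0 := by exact_mod_cast hh.ne'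
  have hpi : (Real.pi : ℂ) ≠ 0 := by exact_mod_cast Real.pi_ne_zero
  unfold rt
  rw [mul_pow, h1, h3]
  field_simp

/-- chain rule; the second derivative: with `r = rt`, `φ' r² = 1`,
`(r u(φ))'' = r'' u + (2 r' φ' + r φ'') u' + r φ'² u''`, the middle coefficient vanishes
(`r = φ'^(-1/2)`), `r'' = - r / (1 - z²)²`. -/
theorem dsys_on (hh : 0 < h) (hY : Y.On (St (-h) h)) : (dsys Y h).On (ball 0 1) := by
  have hA : ∀ z ∈ ball (0:ℂ) 1, ∀ (y y' : ℂ → ℂ) (c : ℂ),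
      HasDerivAt y (y' (phi h z)) (phi h z) → HasDerivAt y' c (phi h z) →
      HasDerivAt (fun z => rt h z * y (phi h z))
        (rt' h z * y (phi h z) + rt h z * (4 * h / Real.pi / (1 - z ^ 2)) * y' (phi h z)) z ∧
      HasDerivAt (fun z => rt' h z * y (phi h z) +
          rt h z * (4 * h / Real.pi / (1 - z ^ 2)) * y' (phi h z))
        (-(1 / (1 - z ^ 2) ^ 2 * (rt h z * y (phi h z))) +
          rt h z * (4 * h / Real.pi / (1 - z ^ 2)) ^ 2 * c) z := by
    intro z hz y y' c hy hy'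
    have hu0 := slitPlane_ne_zero (rt_slit hz)
    have hφ := phi_deriv hh hz
    have hr := rt_deriv hh hz
    have hyc : HasDerivAt (fun z => y (phi h z))
        (y' (phi h z) * (4 * h / Real.pi / (1 - z ^ 2))) z := HasDerivAt.comp z hy hφ
    have hyc' : HasDerivAt (fun z => y' (phi h z))
        (c * (4 * h / Real.pi / (1 - z ^ 2))) z := HasDerivAt.comp z hy' hφ
    have h1 : HasDerivAt (fun z : ℂ => 1 - z ^ 2) (-(2 * z)) z := by
      have := ((hasDerivAt_id z).pow 2).const_sub 1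
      simpa using this
    have hi : HasDerivAt (fun z : ℂ => 4 * h / Real.pi / (1 - z ^ 2))
        ((0 * (1 - z ^ 2) - 4 * h / Real.pi * -(2 * z)) / (1 - z ^ 2) ^ 2) z :=
      (hasDerivAt_const z (4 * h / Real.pi : ℂ)).div h1 hu0
    have hj : HasDerivAt (fun z : ℂ => -z / (1 - z ^ 2))
        ((-1 * (1 - z ^ 2) - -z * -(2 * z)) / (1 - z ^ 2) ^ 2) z :=
      ((hasDerivAt_id z).neg).div h1 hu0
    have hr' : HasDerivAt (fun z => rt' h z) _ z := hj.mul hr
    refine ⟨?_, ?_⟩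
    · refine (hr.mul hyc).congr_deriv ?_
      ring
    · refine ((hr'.mul hyc).add ((hr.mul hi).mul hyc')).congr_deriv ?_
      simp only [Pi.mul_apply]
      unfold rt'
      field_simp
      ring
  constructor
  · intro z hz
    exact (hA z hz Y.y1 Y.y1' _ (hY.d1 _ (phi_mem hh hz)) (hY.d1' _ (phi_mem hh hz))).1
  · intro z hz
    refine (hA z hz Y.y1 Y.y1' _ (hY.d1 _ (phi_mem hh hz))
      (hY.d1' _ (phi_mem hh hz))).2.congr_deriv ?_
    simp only [dsys]
    ring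
  · intro z hz
    exact (hA z hz Y.y2 Y.y2' _ (hY.d2 _ (phi_mem hh hz)) (hY.d2' _ (phi_mem hh hz))).1
  · intro z hz
    refine (hA z hz Y.y2 Y.y2' _ (hY.d2 _ (phi_mem hh hz))
      (hY.d2' _ (phi_mem hh hz))).2.congr_deriv ?_
    simp only [dsys]
    ring
  · intro z hz
    have h1 := hY.wr _ (phi_mem hh hz)
    have h2 := rt_sq hh hz
    simp only [dsys]
    linear_combination h1 + (Y.y1 (phi h z) * Y.y2' (phi h z) -
      Y.y1' (phi h z) * Y.y2 (phi h z)) * h2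

theorem wdg_dsys (z w : ℂ) : wdg (uu (dsys Y h) z) (uu (dsys Y h) w) =
    rt h z * rt h w * Y.s (phi h w) (phi h z) := by
  simp only [wdg, uu, dsys, Sys.s]
  ring

/-- in terms of the labels -/
theorem wdg_ne_iff (hh : 0 < h) (hl : l ∈ St (-h) h) (hm : m ∈ St (-h) h) :
    wdg (uu (dsys Y h) (psi h l)) (uu (dsys Y h) (psi h m)) ≠ 0 ↔ Y.s l m ≠ 0 := by
  rw [wdg_dsys, phi_psi hh hl, phi_psi hh hm]
  have h1 := rt_ne hh (psi_mem hh hl)
  have h2 := rt_ne hh (psi_mem hh hm)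
  have h3 : Y.s m l = -Y.s l m := by
    simp only [Sys.s]
    ring
  rw [h3]
  constructor
  · intro h4 h5
    exact h4 (by rw [h5]; ring)
  · intro h4
    exact mul_ne_zero (mul_ne_zero h1 h2) (neg_ne_zero.2 h4)

end Pool.Agent.MP_ae5b4e_an_NB4
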