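import Pool.Agent.Lib.MP_ae5b4e_an_NB4.PhiF
import Pool.Agent.Lib.MP_ae5b4e_an_NB4.DSB

/-!
# MP_ae5b4e_an, NB_4: lower bounds of the weights (3.2), (3.3)
-/

noncomputable section

namespace Pool.Agent.MP_ae5b4e_an_NB4

open Complex Set Filter Topology Metric
open Pool.Agent.MP_ae5b4e_an_NBT (St)
open Pool.Agent.MP_ae5b4e_an_NB2 (Sys)

variable {Y : Sys} {h q₁ : ℝ} {q : ℕ} [NeZero q] {z : ZMod q → ℂ} {π₀ : ℂ} {l m : ℂ}

/-- (3.2): `-U2 = e^{-θ G} (b + √X) ≤ C` gives `√X ≤ C e^{θ G}` -/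
theorem wt_ge (H : Bdd Y h q₁ q π₀) {C : ℝ} (hC : 0 < C) (hl : l ∈ St (-h) h)
    (hm : m ∈ St (-h) h) (hs : Y.s l m ≠ 0) (hU : -C ≤ U2 Y h q₁ l m) :
    Real.exp (-(2 * th q₁ * gg q₁ (W2 Y h q₁ l m))) / (4 * C) ≤ wt Y h q₁ l m := by
  have hz := psi_mem H.h_pos hl
  have hw := psi_mem H.h_pos hm
  have hs' := (wdg_ne_iff (Y := Y) H.h_pos hl hm).2 hs
  have hX : 1 ≤ XX q₁ (w2 Y h l m) (W2 Y h q₁ l m) := XX_ge H.q_pos (ww_le H.q_pos hz hw hs')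
  have hX0 : 0 < Real.sqrt (XX q₁ (w2 Y h l m) (W2 Y h q₁ l m)) :=
    Real.sqrt_pos.2 (by linarith)
  have h6 := C6_pos H.q_pos
  have h5 := C5_pos H.q_pos
  have hth : 0 < th q₁ := by
    unfold th
    positivity
  have hb : 0 < bb q₁ := by
    unfold bb
    positivity
  unfold U2 UU at hU
  unfold wt
  set G := gg q₁ (W2 Y h q₁ l m) with hG
  set X := Real.sqrt (XX q₁ (w2 Y h l m) (W2 Y h q₁ l m)) with hXd
  set e := Real.exp (-(th q₁ * G)) with he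
  have he0 : 0 < e := Real.exp_pos _
  have h1 : e * X ≤ C := by
    have : 0 < e * bb q₁ := mul_pos he0 hb
    nlinarith
  have h2 : Real.exp (-(2 * th q₁ * G)) = e * e := by
    rw [he, ← Real.exp_add]
    congr 1
    ring
  rw [h2, div_le_div_iff₀ (by positivity) (by positivity)]
  have h3 : e * (e * X) ≤ e * C := mul_le_mul_of_nonneg_left h1 he0.le
  nlinarith

/-- (3.3): by `nn_harnack` with `r = 1/4`, `pd_le` and `gg_lip` -/
theorem gg_harnack (H : Bdd Y h q₁ q π₀) : ∃ C ≥ 0, ∀ l ∈ St (-h) h, ∀ m ∈ St (-h) h,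
    ∀ l' m' : ℂ, ‖l' - l‖ ≤ DS h l / 8 → ‖m' - m‖ ≤ DS h m / 8 →
      gg q₁ (W2 Y h q₁ l' m') ≤ gg q₁ (W2 Y h q₁ l m) + C := by
  obtain ⟨C, hC, hN⟩ := nn_harnack H.q_pos (r := 1 / 4) (by norm_num) (by norm_num)
  have hlog : 0 ≤ Real.log C := Real.log_nonneg hC
  have hlam : 0 < lamq q₁ := by
    unfold lamq
    positivity
  refine ⟨Real.log C, hlog, fun l hl m hm l' m' hl' hm' => ?_⟩
  obtain ⟨hl1, hl2, -⟩ := pd_le H.h_pos hl hl'
  obtain ⟨hm1, hm2, -⟩ := pd_le H.h_pos hm hm'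
  have h1 := hN (dsys Y h) (dsys Y h) H.qb H.qb (psi h l') (psi_mem H.h_pos hl1) (psi h m')
    (psi_mem H.h_pos hm1) (psi h l) (psi_mem H.h_pos hl) (psi h m) (psi_mem H.h_pos hm) hl2 hm2
  have h2 := nn_lower H.q_pos H.qb H.qb (psi_mem H.h_pos hl1) (psi_mem H.h_pos hm1)
  have h3 := nn_lower H.q_pos H.qb H.qb (psi_mem H.h_pos hl) (psi_mem H.h_pos hm)
  have h4 : W2 Y h q₁ l' m' ≤ Real.log C + W2 Y h q₁ l m := by
    unfold W2
    rw [← Real.log_mul (by linarith) (by linarith)]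
    exact Real.log_le_log (by linarith) h1
  rcases le_total (W2 Y h q₁ l' m') (W2 Y h q₁ l m) with h5 | h5
  · have := (gg_lip H.q_pos _ _ h5).1
    linarith
  · have := (gg_lip H.q_pos _ _ h5).2
    linarith

/-- from `gg_le`, `NN_le_NE` and `lamq ≤ 1`: `exp (gg) ≤ exp W2 = NN ≤ 9 NE` where `gg > 0` -/
theorem NE_ge (H : Bdd Y h q₁ q π₀) (hl : l ∈ St (-h) h) (hm : m ∈ St (-h) h)
    (hg : 0 < gg q₁ (W2 Y h q₁ l m)) :
    Real.exp (gg q₁ (W2 Y h q₁ l m)) / 9 ≤ NE Y h l m := by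
  have hlam0 : 0 < lamq q₁ := by
    unfold lamq
    positivity
  have hlam1 : lamq q₁ ≤ 1 := by
    unfold lamq
    rw [div_le_one (by positivity)]
    nlinarith [sq_nonneg q₁]
  have h1 := nn_lower H.q_pos H.qb H.qb (psi_mem H.h_pos hl) (psi_mem H.h_pos hm)
  have h2 := NN_le_NE (Y := Y) H.h_pos hlam0 hlam1 hl hm
  have h3 := gg_le H.q_pos hg
  have h4 : Real.exp (gg q₁ (W2 Y h q₁ l m)) ≤
      NN (lamq q₁) (dsys Y h) (dsys Y h) (psi h l) (psi h m) := by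
    refine (Real.exp_le_exp.2 h3).trans ?_
    unfold W2
    rw [Real.exp_log (by linarith)]
  linarith

end Pool.Agent.MP_ae5b4e_an_NB4
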